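import Pool.Agent.Helper42.LB.Phi

/-!
# LB-A5: the function `LL`
-/

set_option autoImplicit false

namespace Pool.Agent.Helper42.LB

open Complex Metric

variable {w : ℂ}

/-- logarithms of numbers with positive real part -/
theorem diff_LL : DifferentiableOn ℂ LL (ball 0 1) := by
  intro w hw
  apply DifferentiableAt.differentiableWithinAt
  have h1 : DifferentiableAt ℂ (fun w => log (cay w)) w :=
    ((hasDerivAt_cay hw).differentiableAt).clog (mem_slitPlane_iff.2 (Or.inl (cay_re hw)))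
  have h2 : DifferentiableAt ℂ (fun w => log (VV w)) w :=
    ((hasDerivAt_VV hw).differentiableAt).clog (mem_slitPlane_iff.2 (Or.inl (VV_re hw)))
  exact h1.sub h2

theorem LL_zero : LL 0 = 0 := by
  unfold LL
  rw [cay_zero, VV_zero, sub_self]

theorem exp_LL (hw : w ∈ ball (0 : ℂ) 1) : exp (LL w) = cay w / VV w := by
  have h1 : cay w ≠ 0 := slitPlane_ne_zero (mem_slitPlane_iff.2 (Or.inl (cay_re hw)))
  have h2 : VV w ≠ 0 := slitPlane_ne_zero (mem_slitPlane_iff.2 (Or.inl (VV_re hw)))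
  unfold LL
  rw [exp_sub, exp_log h1, exp_log h2]

private theorem A5_one_add_sq (hw : w ∈ ball (0 : ℂ) 1) : 1 + w ^ 2 ≠ 0 := by
  intro h
  have h1 : ‖w‖ < 1 := by simpa using hw
  have h2 : w ^ 2 = -1 := by linear_combination h
  have h3 : ‖w‖ ^ 2 = 1 := by rw [← norm_pow, h2, norm_neg, norm_one]
  nlinarith [norm_nonneg w]

private theorem A5_one_sub_sq (hw : w ∈ ball (0 : ℂ) 1) : 1 - w ^ 2 ≠ 0 := by
  intro h
  have h1 : ‖w‖ < 1 := by simpa using hw
  have h2 : w ^ 2 = 1 := by linear_combination -h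
  have h3 : ‖w‖ ^ 2 = 1 := by rw [← norm_pow, h2, norm_one]
  nlinarith [norm_nonneg w]

/-- `v^2 / V^2 = 2 v^2 / (1 + v^2) = (1 + w)^2 / (1 + w^2)` -/
theorem exp_two_LL (hw : w ∈ ball (0 : ℂ) 1) : exp (2 * LL w) = 1 + 2 * w / (1 + w ^ 2) := by
  have h0 := one_sub_ne hw
  have h1 := A5_one_add_sq hw
  have h2 : VV w ≠ 0 := slitPlane_ne_zero (mem_slitPlane_iff.2 (Or.inl (VV_re hw)))
  have h3 := VV_sq hw
  have h4 : 1 + cay w ^ 2 = 2 * (1 + w ^ 2) / (1 - w) ^ 2 := by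
    unfold cay
    field_simp
    ring
  rw [two_mul, exp_add, exp_LL hw, div_mul_div_comm, ← sq, ← sq, h3, h4]
  unfold cay
  field_simp
  ring

/-- The norms: the product of `exp (2 LL (i^k w)) = (1 + i^k w)^2 / (1 + (i^k w)^2)`, `k < 4`, is
`(1 - w^4)^2 / ((1 + w^2)^2 (1 - w^2)^2) = 1`, and `‖exp z‖ = exp (Re z)`. -/
theorem LL_sum (hw : w ∈ ball (0 : ℂ) 1) :
    (LL w).re + (LL (I * w)).re + (LL (-w)).re + (LL (-(I * w))).re = 0 := by
  have hI : I * w ∈ ball (0 : ℂ) 1 := by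
    rw [mem_ball_zero_iff, norm_mul, norm_I, one_mul]; simpa using hw
  have hn : -w ∈ ball (0 : ℂ) 1 := by
    rw [mem_ball_zero_iff, norm_neg]; simpa using hw
  have hnI : -(I * w) ∈ ball (0 : ℂ) 1 := by
    rw [mem_ball_zero_iff, norm_neg]; simpa using hI
  have h1 := A5_one_add_sq hw
  have h2 := A5_one_sub_sq hw
  have hI2 : (I * w) ^ 2 = -w ^ 2 := by rw [mul_pow, I_sq]; ring
  have key : exp (2 * (LL w + LL (I * w) + LL (-w) + LL (-(I * w)))) = 1 := by
    have e : 2 * (LL w + LL (I * w) + LL (-w) + LL (-(I * w))) =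
        2 * LL w + 2 * LL (I * w) + 2 * LL (-w) + 2 * LL (-(I * w)) := by ring
    rw [e, exp_add, exp_add, exp_add, exp_two_LL hw, exp_two_LL hI, exp_two_LL hn, exp_two_LL hnI,
      neg_sq, neg_sq, hI2]
    have h3 : 1 + -w ^ 2 ≠ 0 := by rw [← sub_eq_add_neg]; exact h2
    have e1 : 1 + 2 * w / (1 + w ^ 2) = (1 + w) ^ 2 / (1 + w ^ 2) := by
      field_simp
      ring
    have e2 : 1 + 2 * (-w) / (1 + w ^ 2) = (1 - w) ^ 2 / (1 + w ^ 2) := by
      field_simp
      ring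
    have e3 : 1 + 2 * (I * w) / (1 + -w ^ 2) = (1 + I * w) ^ 2 / (1 - w ^ 2) := by
      rw [← sub_eq_add_neg]
      field_simp
      linear_combination -hI2
    have e4 : 1 + 2 * (-(I * w)) / (1 + -w ^ 2) = (1 - I * w) ^ 2 / (1 - w ^ 2) := by
      rw [← sub_eq_add_neg]
      field_simp
      linear_combination -hI2
    rw [e1, e2, e3, e4]
    have e5 : (1 + I * w) * (1 - I * w) = 1 + w ^ 2 := by linear_combination -hI2
    have e6 : (1 + w) * (1 - w) = 1 - w ^ 2 := by ring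
    have e7 : (1 + w) ^ 2 / (1 + w ^ 2) * ((1 + I * w) ^ 2 / (1 - w ^ 2)) *
        ((1 - w) ^ 2 / (1 + w ^ 2)) * ((1 - I * w) ^ 2 / (1 - w ^ 2)) =
        (((1 + w) * (1 - w)) * ((1 + I * w) * (1 - I * w))) ^ 2 /
          ((1 + w ^ 2) * (1 - w ^ 2)) ^ 2 := by
      field_simp
    rw [e7, e5, e6, mul_comm (1 - w ^ 2), div_self]
    exact pow_ne_zero 2 (mul_ne_zero h1 h2)
  have h5 := congrArg norm key
  rw [norm_exp, norm_one, Real.exp_eq_one_iff] at h5
  have h6 : (2 * (LL w + LL (I * w) + LL (-w) + LL (-(I * w)))).re =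
      2 * ((LL w).re + (LL (I * w)).re + (LL (-w)).re + (LL (-(I * w))).re) := by
    simp
  rw [h6] at h5
  linarith

end Pool.Agent.Helper42.LB
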