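import Pool.Agent.Helper42.LB.Fin1
import Pool.Agent.Helper42.LB.Ell

/-!
# LB-B4: continuity and differentiability of the finite approximations
-/

set_option autoImplicit false

namespace Pool.Agent.Helper42.LB

open Complex Metric Set

variable {τ : ℝ}

/-- joint continuity in the parameter and the variable, by induction (`ff_lt`, `diff_AA`) -/
theorem fB_cont2 (n : ℕ) :
    ContinuousOn (fun p : ℝ × ℂ => fB p.1 n p.2) (Ioc (0 : ℝ) 1 ×ˢ closedBall (0 : ℂ) 1) := by
  have hlog : ContinuousOn (fun p : ℝ × ℂ => Real.log p.1) (Ioc (0 : ℝ) 1 ×ˢ closedBall (0 : ℂ) 1) :=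
    continuousOn_fst.log (fun p hp => hp.1.1.ne')
  induction n with
  | zero =>
    show ContinuousOn (fun p : ℝ × ℂ => ((Real.log (p.1 / 2) / 3 : ℝ) : ℂ)) _
    refine continuous_ofReal.comp_continuousOn (ContinuousOn.div_const (ContinuousOn.log
      (continuousOn_fst.div_const 2) (fun p hp => ?_)) 3)
    have : (0 : ℝ) < p.1 := hp.1.1
    positivity
  | succ n ih =>
    have hT : ContinuousOn (fun p : ℝ × ℂ => fB p.1 n (p.2 ^ 4))
        (Ioc (0 : ℝ) 1 ×ˢ closedBall (0 : ℂ) 1) :=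
      ih.comp (f := fun p : ℝ × ℂ => (p.1, p.2 ^ 4))
        (continuousOn_fst.prodMk (continuousOn_snd.pow 4)) (fun p hp => ⟨hp.1, pow_mem hp.2 4⟩)
    have hA : ContinuousOn (fun p : ℝ × ℂ => AA (p.2 ^ 4 * exp (fB p.1 n (p.2 ^ 4))))
        (Ioc (0 : ℝ) 1 ×ˢ closedBall (0 : ℂ) 1) :=
      diff_AA.continuousOn.comp ((continuousOn_snd.pow 4).mul hT.cexp)
        (fun p hp => ff_lt hp.1.1 hp.1.2 n (pow_mem hp.2 4))
    exact ((hT.add (continuous_ofReal.comp_continuousOn hlog)).add hA).div_const 4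

theorem fB_cont (h0 : 0 < τ) (h1 : τ ≤ 1) (n : ℕ) : ContinuousOn (fB τ n) (closedBall 0 1) :=
  (fB_cont2 n).comp (f := fun z : ℂ => (τ, z)) (by fun_prop) (fun _ hz => ⟨⟨h0, h1⟩, hz⟩)

theorem ff_cont (h0 : 0 < τ) (h1 : τ ≤ 1) (n : ℕ) : ContinuousOn (ff τ n) (closedBall 0 1) :=
  continuousOn_id.mul (fB_cont h0 h1 n).cexp

/-- induction (`ff_lt`, `diff_AA`) -/
theorem fB_diff (h0 : 0 < τ) (h1 : τ ≤ 1) (n : ℕ) : DifferentiableOn ℂ (fB τ n) (ball 0 1) := by
  induction n with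
  | zero => exact differentiableOn_const _
  | succ n ih =>
    have hm : ∀ z ∈ ball (0 : ℂ) 1, z ^ 4 ∈ ball (0 : ℂ) 1 := by
      intro z hz
      rw [mem_ball_zero_iff] at hz ⊢
      rw [norm_pow]
      exact pow_lt_one₀ (norm_nonneg _) hz (by norm_num)
    have hT : DifferentiableOn ℂ (fun z : ℂ => fB τ n (z ^ 4)) (ball 0 1) :=
      ih.comp (differentiableOn_id.pow 4) hm
    have hA : DifferentiableOn ℂ (fun z : ℂ => AA (z ^ 4 * exp (fB τ n (z ^ 4)))) (ball 0 1) :=
      diff_AA.comp ((differentiableOn_id.pow 4).mul hT.cexp)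
        (fun z hz => ff_lt h0 h1 n (ball_subset_closedBall (hm z hz)))
    exact ((hT.add_const _).add hA).div_const 4

theorem ff_diff (h0 : 0 < τ) (h1 : τ ≤ 1) (n : ℕ) : DifferentiableOn ℂ (ff τ n) (ball 0 1) :=
  differentiableOn_id.mul (fB_diff h0 h1 n).cexp

theorem LLff_cont (h0 : 0 < τ) (h1 : τ ≤ 1) (n : ℕ) :
    ContinuousOn (fun z => LL (ff τ n z)) (closedBall 0 1) :=
  diff_LL.continuousOn.comp (ff_cont h0 h1 n) (fun _ hz => ff_lt h0 h1 n hz)

theorem LLff_diff (h0 : 0 < τ) (h1 : τ ≤ 1) (n : ℕ) :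
    DifferentiableOn ℂ (fun z => LL (ff τ n z)) (ball 0 1) :=
  diff_LL.comp (ff_diff h0 h1 n) (fun _ hz => ff_lt h0 h1 n (ball_subset_closedBall hz))

/-- The Fourier coefficients are continuous in the parameter: the integrand is continuous in
`(τ, θ)` on `(0, 1] × ℝ` (`fB_cont2`, `diff_LL`), so the integral is continuous
(`intervalIntegral.continuousOn_..`, or sequences and dominated convergence, or uniform continuity on
compact sets). -/
theorem coef_cont (m n : ℕ) :
    ContinuousOn (fun τ : ℝ => coef (fun z => LL (ff τ m z)) n) (Ioc (0 : ℝ) 1) := by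
  rw [continuousOn_iff_continuous_domRestrict]
  have hpt : Continuous (fun θ : ℝ => pt 1 θ) := by
    unfold pt
    fun_prop
  have hmem : ∀ θ, pt 1 θ ∈ closedBall (0 : ℂ) 1 := by
    intro θ
    rw [mem_closedBall_zero_iff]
    unfold pt
    rw [ofReal_one, one_mul, norm_exp_ofReal_mul_I]
  have h0 : Continuous (fun p : Ioc (0 : ℝ) 1 × ℝ => ((p.1 : ℝ), pt 1 p.2)) :=
    (continuous_subtype_val.comp continuous_fst).prodMk (hpt.comp continuous_snd)
  have h1 : Continuous (fun p : Ioc (0 : ℝ) 1 × ℝ => fB p.1 m (pt 1 p.2)) :=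
    (fB_cont2 m).comp_continuous h0 (fun p => ⟨p.1.2, hmem p.2⟩)
  have h2 : Continuous (fun p : Ioc (0 : ℝ) 1 × ℝ => ff p.1 m (pt 1 p.2)) := by
    unfold ff
    exact (hpt.comp continuous_snd).mul (continuous_exp.comp h1)
  have h3 : Continuous (fun p : Ioc (0 : ℝ) 1 × ℝ => LL (ff p.1 m (pt 1 p.2))) :=
    diff_LL.continuousOn.comp_continuous h2 (fun p => ff_lt p.1.2.1 p.1.2.2 m (hmem p.2))
  have h4 : Continuous (Function.uncurry fun (x : Ioc (0 : ℝ) 1) (θ : ℝ) =>
      LL (ff x m (pt 1 θ)) * exp (-(n * θ * I))) := by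
    refine h3.mul ?_
    fun_prop
  have h5 := intervalIntegral.continuous_parametric_intervalIntegral_of_continuous'
    (μ := MeasureTheory.volume) h4 0 (2 * Real.pi)
  exact continuous_const.mul h5

end Pool.Agent.Helper42.LB
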