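import Mathlib

/-!
# LB-B1: Schwarz-Pick lemma for the upper half plane
-/

set_option autoImplicit false

namespace Pool.Agent.Helper42.LB

open Complex Metric

/-- `‖z - w‖ < ‖z - conj w‖` for `z`, `w` in the upper half plane -/
theorem norm_sub_lt {z w : ℂ} (hz : 0 < z.im) (hw : 0 < w.im) :
    ‖z - w‖ < ‖z - (starRingEnd ℂ) w‖ := by
  refine lt_of_pow_lt_pow_left₀ 2 (norm_nonneg _) ?_
  rw [← normSq_eq_norm_sq, ← normSq_eq_norm_sq, normSq_apply, normSq_apply]
  simp only [sub_re, sub_im, conj_re, conj_im]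
  nlinarith [mul_pos hz hw]

private theorem LBB1_im {w u : ℂ} (hu : u ≠ 1) :
    ((w - (starRingEnd ℂ) w * u) / (1 - u)).im = w.im * (1 - ‖u‖ ^ 2) / ‖1 - u‖ ^ 2 := by
  have h1 : normSq (1 - u) ≠ 0 := by
    rw [Ne, normSq_eq_zero, sub_eq_zero]
    exact fun h => hu h.symm
  rw [div_im, ← normSq_eq_norm_sq, ← normSq_eq_norm_sq, ← sub_div]
  congr 1
  simp only [normSq_apply, sub_re, sub_im, mul_re, mul_im, conj_re, conj_im, one_re, one_im]
  ring

private theorem LBB1_ne {z w : ℂ} (hz : 0 < z.im) (hw : 0 < w.im) :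
    z - (starRingEnd ℂ) w ≠ 0 := by
  intro h
  have h1 := congrArg im h
  simp only [sub_im, conj_im, zero_im] at h1
  linarith

/-- Schwarz-Pick. The function `u ↦ (h ζ - h w) / (h ζ - conj (h w))`, `ζ = (w - conj w u) / (1 - u)`,
maps the unit disc to the unit disc and `0` to `0` (`Im ζ = Im w (1 - |u|^2) / |1 - u|^2 > 0`); apply the
Schwarz lemma (`Complex.norm_le_norm_of_mapsTo_ball_self` or a similar name) at
`u = (z - w) / (z - conj w)`, for which `ζ = z`. -/
theorem schwarz_pick {h : ℂ → ℂ} (hd : DifferentiableOn ℂ h {z | 0 < z.im})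
    (hm : ∀ z : ℂ, 0 < z.im → 0 < (h z).im) {z w : ℂ} (hz : 0 < z.im) (hw : 0 < w.im) :
    ‖h z - h w‖ * ‖z - (starRingEnd ℂ) w‖ ≤ ‖z - w‖ * ‖h z - (starRingEnd ℂ) (h w)‖ := by
  have hhw := hm w hw
  set ζ : ℂ → ℂ := fun u => (w - (starRingEnd ℂ) w * u) / (1 - u) with hζ
  have hu1 : ∀ u ∈ ball (0 : ℂ) 1, u ≠ 1 := by
    intro u hu h
    rw [h, mem_ball_zero_iff, norm_one] at hu
    exact lt_irrefl _ hu
  have hζi : ∀ u ∈ ball (0 : ℂ) 1, 0 < (ζ u).im := by
    intro u hu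
    have h1 := hu1 u hu
    rw [hζ]
    simp only
    rw [LBB1_im h1]
    have h2 : ‖u‖ < 1 := mem_ball_zero_iff.1 hu
    have h3 : ‖u‖ ^ 2 < 1 := by nlinarith [norm_nonneg u]
    have h4 : 0 < ‖1 - u‖ := norm_pos_iff.2 (sub_ne_zero.2 h1.symm)
    exact div_pos (mul_pos hw (by linarith)) (pow_pos h4 2)
  have hζd : DifferentiableOn ℂ ζ (ball 0 1) := by
    intro u hu
    have h1 : (1 : ℂ) - u ≠ 0 := sub_ne_zero.2 (hu1 u hu).symm
    refine DifferentiableAt.differentiableWithinAt ?_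
    exact (((differentiableAt_const w).sub ((differentiableAt_const _).mul differentiableAt_id)).div
      ((differentiableAt_const (1 : ℂ)).sub differentiableAt_id) h1)
  have hhζ : DifferentiableOn ℂ (fun u => h (ζ u)) (ball 0 1) :=
    hd.comp hζd (fun u hu => hζi u hu)
  set g : ℂ → ℂ := fun u => (h (ζ u) - h w) / (h (ζ u) - (starRingEnd ℂ) (h w)) with hg
  have hgd : DifferentiableOn ℂ g (ball 0 1) :=
    (hhζ.sub (differentiableOn_const _)).div (hhζ.sub (differentiableOn_const _))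
      (fun u hu => LBB1_ne (hm _ (hζi u hu)) hhw)
  have hgm : Set.MapsTo g (ball 0 1) (closedBall 0 1) := by
    intro u hu
    rw [mem_closedBall_zero_iff, hg]
    simp only
    rw [norm_div]
    exact div_le_one_of_le₀ (norm_sub_lt (hm _ (hζi u hu)) hhw).le (norm_nonneg _)
  have hg0 : g 0 = 0 := by
    simp [hg, hζ]
  have hzw : z - (starRingEnd ℂ) w ≠ 0 := LBB1_ne hz hw
  have hn : 0 < ‖z - (starRingEnd ℂ) w‖ := norm_pos_iff.2 hzw
  have hun : ‖(z - w) / (z - (starRingEnd ℂ) w)‖ < 1 := by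
    rw [norm_div, div_lt_one hn]
    exact norm_sub_lt hz hw
  have hζz : ζ ((z - w) / (z - (starRingEnd ℂ) w)) = z := by
    have h1 : (1 : ℂ) - (z - w) / (z - (starRingEnd ℂ) w) =
        (w - (starRingEnd ℂ) w) / (z - (starRingEnd ℂ) w) := by
      rw [eq_div_iff hzw, sub_mul, div_mul_cancel₀ _ hzw]
      ring
    have h2 : w - (starRingEnd ℂ) w ≠ 0 := LBB1_ne hw hw
    have h3 : w - (starRingEnd ℂ) w * ((z - w) / (z - (starRingEnd ℂ) w)) =
        z * (w - (starRingEnd ℂ) w) / (z - (starRingEnd ℂ) w) := by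
      rw [eq_div_iff hzw, sub_mul, mul_assoc, div_mul_cancel₀ _ hzw]
      ring
    rw [hζ]
    simp only
    rw [h1, h3, div_div_div_cancel_right₀ hzw, mul_div_cancel_right₀ _ h2]
  have hfin := norm_le_norm_of_mapsTo_ball hgd hgm hg0 hun
  have hhn : 0 < ‖h z - (starRingEnd ℂ) (h w)‖ := norm_pos_iff.2 (LBB1_ne (hm z hz) hhw)
  rw [hg] at hfin
  simp only at hfin
  rw [hζz, norm_div, norm_div, div_le_div_iff₀ hhn hn] at hfin
  exact hfin

end Pool.Agent.Helper42.LB
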