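import Pool.Agent.Helper42.LB.Phi
import Pool.Agent.Helper42.LB.SP

/-!
# LB-B2: the slit map in the upper half plane
-/

set_option autoImplicit false

namespace Pool.Agent.Helper42.LB

open Complex Metric

theorem exp_mem {z : ℂ} (hz : 0 < z.im) : exp (I * z) ∈ ball (0 : ℂ) 1 := by
  rw [mem_ball_zero_iff, Complex.norm_exp]
  have h : (I * z).re = -z.im := by simp
  rw [h]
  rw [Real.exp_lt_one_iff]; linarith

theorem gg_diff : DifferentiableOn ℂ gg {z | 0 < z.im} := by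
  have h1 : DifferentiableOn ℂ (fun z : ℂ => AA (exp (I * z))) {z | 0 < z.im} := by
    refine diff_AA.comp (g := AA) (f := fun z : ℂ => exp (I * z)) ?_ ?_
    · exact (Differentiable.differentiableOn
        (((differentiable_const I).mul differentiable_id).cexp))
    · intro z hz
      exact exp_mem hz
  exact differentiableOn_id.sub ((differentiableOn_const I).mul h1)

/-- `Im gg z = Im z - Re (AA ..)` -/
theorem gg_im {z : ℂ} (hz : 0 < z.im) : z.im ≤ (gg z).im := by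
  have h := AA_re_nonpos (exp_mem hz)
  have h2 : (gg z).im = z.im - (AA (exp (I * z))).re := by
    unfold gg
    simp
  rw [h2]
  linarith

/-- Strict contraction after the translation by `i ε`. With `a = gg z - conj (gg w)`, `Im a > 0`:
`‖a + 2 i ε‖^2 = ‖a‖^2 + 4 ε Im a + 4 ε^2 ≥ ‖a‖^2 (1 + 4 ε^2 / R^2)`; then `schwarz_pick` for `gg`. -/
theorem gg_contr {ε R : ℝ} (hε : 0 < ε) {z w : ℂ} (hz : 0 < z.im) (hw : 0 < w.im)
    (hR : ‖gg z - (starRingEnd ℂ) (gg w)‖ ≤ R) :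
    ‖gg z - gg w‖ * ‖z - (starRingEnd ℂ) w‖ * √(1 + 4 * ε ^ 2 / R ^ 2) ≤
      ‖z - w‖ * ‖(gg z + I * ε) - (starRingEnd ℂ) (gg w + I * ε)‖ := by
  have hm : ∀ u : ℂ, 0 < u.im → 0 < (gg u).im := fun u hu => lt_of_lt_of_le hu (gg_im hu)
  have hsp := schwarz_pick gg_diff hm hz hw
  have hA := hm z hz
  have hB := hm w hw
  set a : ℂ := gg z - (starRingEnd ℂ) (gg w) with ha
  have haim : 0 < a.im := by
    rw [ha]; simp; linarith
  have ha0 : 0 < ‖a‖ := by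
    rw [norm_pos_iff]
    intro h0
    rw [h0] at haim
    simp at haim
  have hR0 : 0 < R := lt_of_lt_of_le ha0 hR
  have ha' : (gg z + I * ε) - (starRingEnd ℂ) (gg w + I * ε) = a + 2 * I * ε := by
    rw [ha, map_add, map_mul, Complex.conj_I, Complex.conj_ofReal]
    ring
  rw [ha']
  have hn : ‖a + 2 * I * ε‖ ^ 2 = ‖a‖ ^ 2 + 4 * ε * a.im + 4 * ε ^ 2 := by
    rw [← Complex.normSq_eq_norm_sq, ← Complex.normSq_eq_norm_sq, Complex.normSq_apply,
      Complex.normSq_apply]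
    simp
    ring
  have hkey : ‖a‖ * √(1 + 4 * ε ^ 2 / R ^ 2) ≤ ‖a + 2 * I * ε‖ := by
    apply le_of_sq_le_sq _ (norm_nonneg _)
    rw [mul_pow, Real.sq_sqrt (by positivity), hn]
    have h1 : ‖a‖ ^ 2 * (4 * ε ^ 2 / R ^ 2) ≤ 4 * ε ^ 2 := by
      rw [← mul_div_assoc, div_le_iff₀ (by positivity)]
      have h2 : ‖a‖ ^ 2 ≤ R ^ 2 := pow_le_pow_left₀ ha0.le hR 2
      nlinarith [sq_nonneg ε]
    have h3 : 0 ≤ 4 * ε * a.im := by positivity
    nlinarith
  calc ‖gg z - gg w‖ * ‖z - (starRingEnd ℂ) w‖ * √(1 + 4 * ε ^ 2 / R ^ 2)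
      ≤ (‖z - w‖ * ‖a‖) * √(1 + 4 * ε ^ 2 / R ^ 2) :=
        mul_le_mul_of_nonneg_right hsp (Real.sqrt_nonneg _)
    _ = ‖z - w‖ * (‖a‖ * √(1 + 4 * ε ^ 2 / R ^ 2)) := by ring
    _ ≤ ‖z - w‖ * ‖a + 2 * I * ε‖ := mul_le_mul_of_nonneg_left hkey (norm_nonneg _)

end Pool.Agent.Helper42.LB
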