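import Pool.Agent.Helper42.LB.Fin2
import Pool.Agent.Helper42.LB.Gg

/-!
# LB-B5, B6: the solution of the functional equation
-/

set_option autoImplicit false

namespace Pool.Agent.Helper42.LB

open Complex Metric Set

variable {τ : ℝ}

/-- the point `x - i fB τ n (exp (i x))` -/
private noncomputable def EE (τ : ℝ) (n : ℕ) (x : ℝ) : ℂ := (x : ℂ) - I * fB τ n (exp (x * I))

private theorem circ_mem (x : ℝ) : exp (x * I) ∈ closedBall (0 : ℂ) 1 := by
  rw [mem_closedBall_zero_iff, norm_exp_ofReal_mul_I]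

private theorem circ_pow (x : ℝ) : exp ((x : ℂ) * I) ^ 4 = exp (((4 * x : ℝ) : ℂ) * I) := by
  rw [← Complex.exp_nat_mul]
  congr 1
  push_cast
  ring

private theorem exp_EE (n : ℕ) (x : ℝ) : exp (I * EE τ n x) = ff τ n (exp (x * I)) := by
  have h : I * EE τ n x = x * I + fB τ n (exp (x * I)) := by
    unfold EE
    linear_combination (-(fB τ n (exp (x * I)))) * I_mul_I
  rw [h, Complex.exp_add]
  rfl

private theorem EE_im (h0 : 0 < τ) (h1 : τ < 1) (n : ℕ) (x : ℝ) : 0 < (EE τ n x).im := by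
  have h := ff_lt h0 h1.le n (circ_mem x)
  rw [← exp_EE, mem_ball_zero_iff, Complex.norm_exp] at h
  have h2 : (I * EE τ n x).re < 0 := by
    by_contra hc
    push Not at hc
    have := Real.one_le_exp hc
    linarith
  simp only [Complex.mul_re, Complex.I_re, Complex.I_im, zero_mul, one_mul, zero_sub] at h2
  linarith

private theorem EE_succ (n : ℕ) (x : ℝ) :
    4 * EE τ (n + 1) x = gg (EE τ n (4 * x)) + I * ((-Real.log τ : ℝ) : ℂ) := by
  have h1 : gg (EE τ n (4 * x)) = EE τ n (4 * x) - I * AA (ff τ n (exp (((4 * x : ℝ) : ℂ) * I))) := by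
    rw [← exp_EE]
    rfl
  have h2 : fB τ (n + 1) (exp (x * I)) = (fB τ n (exp (((4 * x : ℝ) : ℂ) * I)) + (Real.log τ : ℝ) +
      AA (ff τ n (exp (((4 * x : ℝ) : ℂ) * I)))) / 4 := by
    rw [← circ_pow]
    rfl
  rw [h1]
  unfold EE
  rw [h2]
  push_cast
  ring

private theorem EE_conj (h0 : 0 < τ) (h1 : τ < 1) (m n : ℕ) (x : ℝ) :
    0 < ‖EE τ m x - (starRingEnd ℂ) (EE τ n x)‖ := by
  have h : 0 < (EE τ m x - (starRingEnd ℂ) (EE τ n x)).im := by
    have h2 := EE_im h0 h1 m x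
    have h3 := EE_im h0 h1 n x
    simp only [Complex.sub_im, Complex.conj_im]
    linarith
  exact norm_pos_iff.mpr (fun hc => by rw [hc] at h; simp at h)

private theorem EE_step (h0 : 0 < τ) (h1 : τ < 1) {R : ℝ} (n : ℕ) (x : ℝ)
    (hR : ‖gg (EE τ (n + 1) (4 * x)) - (starRingEnd ℂ) (gg (EE τ n (4 * x)))‖ ≤ R) :
    ‖EE τ (n + 2) x - EE τ (n + 1) x‖ *
        ‖EE τ (n + 1) (4 * x) - (starRingEnd ℂ) (EE τ n (4 * x))‖ *
        √(1 + 4 * (-Real.log τ) ^ 2 / R ^ 2) ≤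
      ‖EE τ (n + 1) (4 * x) - EE τ n (4 * x)‖ *
        ‖EE τ (n + 2) x - (starRingEnd ℂ) (EE τ (n + 1) x)‖ := by
  have hε : 0 < -Real.log τ := by
    have := Real.log_neg h0 h1
    linarith
  have h := gg_contr hε (EE_im h0 h1 (n + 1) (4 * x)) (EE_im h0 h1 n (4 * x)) hR
  rw [← EE_succ, ← EE_succ] at h
  have e1 : gg (EE τ (n + 1) (4 * x)) - gg (EE τ n (4 * x)) =
      4 * (EE τ (n + 2) x - EE τ (n + 1) x) := by
    linear_combination EE_succ (τ := τ) n x - EE_succ (τ := τ) (n + 1) x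
  have e2 : 4 * EE τ (n + 1 + 1) x - (starRingEnd ℂ) (4 * EE τ (n + 1) x) =
      4 * (EE τ (n + 2) x - (starRingEnd ℂ) (EE τ (n + 1) x)) := by
    rw [map_mul, show (starRingEnd ℂ) 4 = 4 from Complex.conj_ofNat 4]
    ring
  rw [e1, e2, norm_mul, norm_mul, show ‖(4 : ℂ)‖ = 4 by simp] at h
  nlinarith [h]

/-- Contraction on the circle. For `z = exp (i x)`, `x` real, let `F n = 4 x - i fB τ n (z^4)` and
`E n = x - i fB τ n z`. Then `exp (i F n) = ff τ n (z^4)`, so `Im F n > 0` (`ff_lt`) and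
`4 E (n+1) = gg (F n) - i log τ`. The numbers `‖F n - 4 x‖` and `‖gg (F n) - 4 x‖` are bounded
(`fB_bound`, `AA_bound`), so `‖gg (F (n+1)) - conj (gg (F n))‖ ≤ R`. With `ε = - log τ > 0` and
`k = 1 / √(1 + 4 ε^2 / R^2) < 1`, `gg_contr` gives
`‖E (n+2) - E (n+1)‖ / ‖E (n+2) - conj (E (n+1))‖ ≤ k ‖F (n+1) - F n‖ / ‖F (n+1) - conj (F n)‖`. As
`z^4` is again on the circle, with `4 x` instead of `x`, induction on `n` (for all `x`) gives
`‖E (n+1) - E n‖ ≤ k^n ‖E (n+1) - conj (E n)‖ ≤ k^n C` for all `x` (the case `n = 0` is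
`norm_sub_lt`, `Im E n > 0`). -/
theorem circle_contr (h0 : 0 < τ) (h1 : τ < 1) : ∃ k C : ℝ, 0 ≤ k ∧ k < 1 ∧ 0 ≤ C ∧
    ∀ (n : ℕ) (x : ℝ), ‖fB τ (n + 1) (exp (x * I)) - fB τ n (exp (x * I))‖ ≤ C * k ^ n := by
  obtain ⟨B, hB, hBn⟩ := fB_bound h0 h1.le
  obtain ⟨A, hA, hAn⟩ := AA_bound
  set R : ℝ := 2 * (B + A) with hRdef
  have hR : 0 < R := by positivity
  have hgg : ∀ (n : ℕ) (y : ℝ),
      ‖gg (EE τ (n + 1) y) - (starRingEnd ℂ) (gg (EE τ n y))‖ ≤ R := by
    intro n y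
    have e : ∀ m, gg (EE τ m y) =
        (y : ℂ) - I * (fB τ m (exp (y * I)) + AA (ff τ m (exp (y * I)))) := by
      intro m
      unfold gg
      rw [exp_EE]
      unfold EE
      ring
    have hb : ∀ m, ‖fB τ m (exp (y * I)) + AA (ff τ m (exp (y * I)))‖ ≤ B + A := fun m =>
      (norm_add_le _ _).trans (add_le_add (hBn m _ (circ_mem y))
        (hAn _ (ff_lt h0 h1.le m (circ_mem y))))
    rw [e, e, map_sub, map_mul, Complex.conj_ofReal, Complex.conj_I]
    set a := fB τ (n + 1) (exp (y * I)) + AA (ff τ (n + 1) (exp (y * I))) with ha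
    set b := fB τ n (exp (y * I)) + AA (ff τ n (exp (y * I))) with hb'
    have e2 : (y : ℂ) - I * a - (y - -I * (starRingEnd ℂ) b) = -(I * (a + (starRingEnd ℂ) b)) := by
      ring
    rw [e2, norm_neg, norm_mul, Complex.norm_I, one_mul]
    calc ‖a + (starRingEnd ℂ) b‖ ≤ ‖a‖ + ‖(starRingEnd ℂ) b‖ := norm_add_le _ _
      _ ≤ (B + A) + (B + A) := by
        rw [Complex.norm_conj]
        exact add_le_add (hb (n + 1)) (hb n)
      _ = R := by rw [hRdef]; ring
  have hε : 0 < -Real.log τ := by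
    have := Real.log_neg h0 h1
    linarith
  set s : ℝ := √(1 + 4 * (-Real.log τ) ^ 2 / R ^ 2) with hs
  have hs1 : 1 < s := by
    rw [hs]
    apply Real.lt_sqrt_of_sq_lt
    have : 0 < 4 * (-Real.log τ) ^ 2 / R ^ 2 := by positivity
    linarith
  have hs0 : 0 < s := by linarith
  have key : ∀ (n : ℕ) (x : ℝ), ‖EE τ (n + 1) x - EE τ n x‖ ≤
      (1 / s) ^ n * ‖EE τ (n + 1) x - (starRingEnd ℂ) (EE τ n x)‖ := by
    intro n
    induction n with
    | zero =>
      intro x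
      rw [pow_zero, one_mul]
      exact (norm_sub_lt (EE_im h0 h1 _ x) (EE_im h0 h1 _ x)).le
    | succ n ih =>
      intro x
      have h := EE_step h0 h1 n x (hgg n (4 * x))
      rw [← hs] at h
      have hp := EE_conj h0 h1 (n + 1) n (4 * x)
      have h2 := h.trans (mul_le_mul_of_nonneg_right (ih (4 * x)) (norm_nonneg _))
      have h3 : ‖EE τ (n + 2) x - EE τ (n + 1) x‖ * s ≤
          (1 / s) ^ n * ‖EE τ (n + 2) x - (starRingEnd ℂ) (EE τ (n + 1) x)‖ := by
        apply le_of_mul_le_mul_left _ hp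
        linarith
      rw [pow_succ, show (1 / s) ^ n * (1 / s) * ‖EE τ (n + 1 + 1) x -
        (starRingEnd ℂ) (EE τ (n + 1) x)‖ = ((1 / s) ^ n * ‖EE τ (n + 1 + 1) x -
        (starRingEnd ℂ) (EE τ (n + 1) x)‖) / s by ring, le_div_iff₀ hs0]
      exact h3
  refine ⟨1 / s, 2 * B, by positivity, by rw [div_lt_one hs0]; exact hs1, by positivity, ?_⟩
  intro n x
  have hK : ‖EE τ (n + 1) x - (starRingEnd ℂ) (EE τ n x)‖ ≤ 2 * B := by
    unfold EE
    rw [map_sub, map_mul, Complex.conj_ofReal, Complex.conj_I]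
    set a := fB τ (n + 1) (exp (x * I)) with ha
    set b := fB τ n (exp (x * I)) with hb
    have e2 : (x : ℂ) - I * a - (x - -I * (starRingEnd ℂ) b) = -(I * (a + (starRingEnd ℂ) b)) := by
      ring
    rw [e2, norm_neg, norm_mul, Complex.norm_I, one_mul]
    calc ‖a + (starRingEnd ℂ) b‖ ≤ ‖a‖ + ‖(starRingEnd ℂ) b‖ := norm_add_le _ _
      _ ≤ B + B := by
        rw [Complex.norm_conj]
        exact add_le_add (hBn _ _ (circ_mem x)) (hBn _ _ (circ_mem x))
      _ = 2 * B := by ring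
  have hD : ‖fB τ (n + 1) (exp (x * I)) - fB τ n (exp (x * I))‖ = ‖EE τ (n + 1) x - EE τ n x‖ := by
    unfold EE
    rw [show (x : ℂ) - I * fB τ (n + 1) (exp (x * I)) - (x - I * fB τ n (exp (x * I))) =
      -(I * (fB τ (n + 1) (exp (x * I)) - fB τ n (exp (x * I)))) by ring, norm_neg, norm_mul,
      Complex.norm_I, one_mul]
  rw [hD]
  calc ‖EE τ (n + 1) x - EE τ n x‖ ≤
        (1 / s) ^ n * ‖EE τ (n + 1) x - (starRingEnd ℂ) (EE τ n x)‖ := key n x
    _ ≤ (1 / s) ^ n * (2 * B) := mul_le_mul_of_nonneg_left hK (by positivity)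
    _ = 2 * B * (1 / s) ^ n := by ring

/-- Maximum principle (`Complex.norm_le_of_forall_mem_frontier_norm_le`, `fB_cont`, `fB_diff`). -/
theorem ball_contr (h0 : 0 < τ) (h1 : τ < 1) : ∃ k C : ℝ, 0 ≤ k ∧ k < 1 ∧ 0 ≤ C ∧
    ∀ (n : ℕ), ∀ z ∈ closedBall (0 : ℂ) 1, ‖fB τ (n + 1) z - fB τ n z‖ ≤ C * k ^ n := by
  obtain ⟨k, C, hk0, hk1, hC, hcirc⟩ := circle_contr h0 h1
  refine ⟨k, C, hk0, hk1, hC, fun n z hz => ?_⟩
  have hcl : closure (ball (0 : ℂ) 1) = closedBall 0 1 := closure_ball _ one_ne_zero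
  have hd : DiffContOnCl ℂ (fun w => fB τ (n + 1) w - fB τ n w) (ball (0 : ℂ) 1) := by
    refine ⟨(fB_diff h0 h1.le (n + 1)).sub (fB_diff h0 h1.le n), ?_⟩
    rw [hcl]
    exact (fB_cont h0 h1.le (n + 1)).sub (fB_cont h0 h1.le n)
  refine Complex.norm_le_of_forall_mem_frontier_norm_le isBounded_ball hd ?_ (hcl ▸ hz)
  intro w hw
  rw [frontier_ball _ one_ne_zero, mem_sphere_zero_iff_norm] at hw
  have hw2 : exp ((arg w : ℝ) * I) = w := by
    have h := Complex.norm_mul_exp_arg_mul_I w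
    rw [hw, ofReal_one, one_mul] at h
    exact h
  have h := hcirc n (arg w)
  rw [hw2] at h
  exact h

/-- `fB τ n` converges uniformly on the closed disc (`ball_contr`, e.g. `cauchySeq_of_le_geometric` and
`dist_le_of_le_geometric_of_tendsto`); the limit `B` is continuous
(`TendstoUniformlyOn.continuousOn`), differentiable in the disc
(`TendstoLocallyUniformlyOn.differentiableOn`), `‖fn B z‖^4 ≤ τ < 1` (`ff_pow_le`), and the equation is
the limit of the definition of `fB` (`AA` is continuous at `fn B (z^4)`). -/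
theorem exists_sol (h0 : 0 < τ) (h1 : τ < 1) : ∃ B, Sol τ B := by
  obtain ⟨k, C, hk0, hk1, hC, hb⟩ := ball_contr h0 h1
  have hd : ∀ z ∈ closedBall (0 : ℂ) 1, ∀ n, dist (fB τ n z) (fB τ (n + 1) z) ≤ C * k ^ n := by
    intro z hz n
    rw [dist_comm, dist_eq_norm]
    exact hb n z hz
  have hex : ∀ z : ℂ, ∃ b : ℂ, z ∈ closedBall (0 : ℂ) 1 →
      Filter.Tendsto (fun n => fB τ n z) Filter.atTop (nhds b) := by
    intro z
    by_cases hz : z ∈ closedBall (0 : ℂ) 1
    · obtain ⟨b, hb'⟩ := cauchySeq_tendsto_of_complete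
        (cauchySeq_of_le_geometric k C hk1 (hd z hz))
      exact ⟨b, fun _ => hb'⟩
    · exact ⟨0, fun h => absurd h hz⟩
  choose B hB using hex
  have hdist : ∀ z ∈ closedBall (0 : ℂ) 1, ∀ n, dist (fB τ n z) (B z) ≤ C * k ^ n / (1 - k) :=
    fun z hz n => dist_le_of_le_geometric_of_tendsto k C hk1 (hd z hz) (hB z hz) n
  have hlim : Filter.Tendsto (fun n : ℕ => C * k ^ n / (1 - k)) Filter.atTop (nhds 0) := by
    have h2 := ((tendsto_pow_atTop_nhds_zero_of_lt_one hk0 hk1).const_mul C).div_const (1 - k)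
    simpa using h2
  have hu : TendstoUniformlyOn (fun n z => fB τ n z) B Filter.atTop (closedBall (0 : ℂ) 1) := by
    rw [Metric.tendstoUniformlyOn_iff]
    intro ε hε
    filter_upwards [hlim.eventually (gt_mem_nhds hε)] with n hn z hz
    rw [dist_comm]
    exact lt_of_le_of_lt (hdist z hz n) hn
  have hff : ∀ z ∈ closedBall (0 : ℂ) 1,
      Filter.Tendsto (fun n => ff τ n z) Filter.atTop (nhds (fn B z)) := by
    intro z hz
    have h2 : Filter.Tendsto (fun n => exp (fB τ n z)) Filter.atTop (nhds (exp (B z))) :=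
      (continuous_exp.tendsto (B z)).comp (hB z hz)
    exact h2.const_mul z
  have hlt : ∀ z ∈ closedBall (0 : ℂ) 1, ‖fn B z‖ < 1 := by
    intro z hz
    have h2 : Filter.Tendsto (fun n => ‖ff τ (n + 1) z‖ ^ 4) Filter.atTop
        (nhds (‖fn B z‖ ^ 4)) :=
      (((hff z hz).comp (Filter.tendsto_add_atTop_nat 1)).norm).pow 4
    have h3 : ‖fn B z‖ ^ 4 ≤ τ := le_of_tendsto' h2 fun n => ff_pow_le h0 h1.le n hz
    exact (pow_lt_one_iff_of_nonneg (norm_nonneg _) (by norm_num)).1 (lt_of_le_of_lt h3 h1)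
  refine ⟨B, ?_, ?_, hlt, ?_⟩
  · exact hu.continuousOn (Filter.Eventually.frequently
      (Filter.Eventually.of_forall fun n => fB_cont h0 h1.le n))
  · exact (hu.mono ball_subset_closedBall).tendstoLocallyUniformlyOn.differentiableOn
      (Filter.Eventually.of_forall fun n => fB_diff h0 h1.le n) isOpen_ball
  · intro z hz
    have hz4 : z ^ 4 ∈ closedBall (0 : ℂ) 1 := pow_mem hz 4
    have hmem : fn B (z ^ 4) ∈ ball (0 : ℂ) 1 := by
      rw [mem_ball_zero_iff]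
      exact hlt _ hz4
    have hAA : ContinuousAt AA (fn B (z ^ 4)) :=
      (diff_AA.differentiableAt (isOpen_ball.mem_nhds hmem)).continuousAt
    have h2 : Filter.Tendsto (fun n => 4 * fB τ (n + 1) z) Filter.atTop (nhds (4 * B z)) :=
      ((hB z hz).comp (Filter.tendsto_add_atTop_nat 1)).const_mul 4
    have h3 : Filter.Tendsto (fun n => fB τ n (z ^ 4) + (Real.log τ : ℝ) + AA (ff τ n (z ^ 4)))
        Filter.atTop (nhds (B (z ^ 4) + (Real.log τ : ℝ) + AA (fn B (z ^ 4)))) :=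
      ((hB _ hz4).add_const _).add (hAA.tendsto.comp (hff _ hz4))
    refine tendsto_nhds_unique h2 (h3.congr fun n => ?_)
    change _ = 4 * ((fB τ n (z ^ 4) + (Real.log τ : ℝ) + AA (z ^ 4 * exp (fB τ n (z ^ 4)))) / 4)
    unfold ff
    ring

end Pool.Agent.Helper42.LB
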