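import Pool.Agent.Helper42.LB.Block

/-!
# LB-D6: growth of the integral means
-/

set_option autoImplicit false

namespace Pool.Agent.Helper42.LB

open Complex Metric Set Finset

variable {τ : ℝ} {B : ℂ → ℂ}

/-- `exp x ≤ 1 + x + x^2` for `0 ≤ x ≤ 1`, `x = c p^2 m log 4`, and `c log 4 (1 + x) ≤ v / 2` for small
`p`. -/
theorem step_ineq {c v : ℝ} (hc : 0 < c) (hv : 2 * Real.log 4 * c < v) {m : ℕ} (hm : 1 ≤ m) :
    ∃ p₀ : ℝ, 0 < p₀ ∧ ∀ p, 0 < p → p ≤ p₀ →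
      (4 : ℝ) ^ (c * p ^ 2 * m) ≤ 1 + p ^ 2 / 2 * (m * v) := by
  have hl : 0 < Real.log 4 := Real.log_pos (by norm_num)
  have hm0 : (0 : ℝ) < m := by exact_mod_cast (show 0 < m by omega)
  have hcl : 0 < c * Real.log 4 := mul_pos hc hl
  set δ : ℝ := min 1 ((v / 2 - c * Real.log 4) / (c * Real.log 4)) with hδ
  have hδ0 : 0 < δ := lt_min one_pos (div_pos (by linarith) hcl)
  have hδ1 : δ ≤ 1 := min_le_left _ _
  have hδ2 : c * Real.log 4 * (1 + δ) ≤ v / 2 := by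
    have h1 : δ * (c * Real.log 4) ≤ v / 2 - c * Real.log 4 := by
      rw [← le_div_iff₀ hcl]
      exact min_le_right _ _
    nlinarith
  have hD : 0 < c * Real.log 4 * m := mul_pos hcl hm0
  refine ⟨Real.sqrt (δ / (c * Real.log 4 * m)), Real.sqrt_pos.2 (div_pos hδ0 hD), ?_⟩
  intro p hp hp0
  have hp2 : p ^ 2 ≤ δ / (c * Real.log 4 * m) := by
    rw [← Real.sqrt_le_sqrt_iff (div_pos hδ0 hD).le, Real.sqrt_sq hp.le]
    exact hp0
  have hy : Real.log 4 * (c * p ^ 2 * m) ≤ δ := by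
    rw [le_div_iff₀ hD] at hp2
    nlinarith
  have hy0 : 0 ≤ Real.log 4 * (c * p ^ 2 * m) := by positivity
  have h3 := Real.abs_exp_sub_one_sub_id_le (x := Real.log 4 * (c * p ^ 2 * m))
    (by rw [abs_of_nonneg hy0]; exact hy.trans hδ1)
  have h4 := (abs_le.1 h3).2
  rw [Real.rpow_def_of_pos (by norm_num : (0 : ℝ) < 4)]
  have h5 : (Real.log 4 * (c * p ^ 2 * m)) ^ 2 ≤ Real.log 4 * (c * p ^ 2 * m) * δ := by
    rw [sq]
    exact mul_le_mul_of_nonneg_left hy hy0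
  have h6 : Real.log 4 * (c * p ^ 2 * m) * (1 + δ) ≤ p ^ 2 / 2 * (m * v) := by
    have h7 : 0 ≤ p ^ 2 * m := by positivity
    have h8 := mul_le_mul_of_nonneg_left hδ2 h7
    nlinarith
  nlinarith

/-- `n` is the smallest number with `r ^ 4 ^ (m (n+1) + 1) < ρ₁` (`Nat.find`; it exists as
`r^k → 0`); for `n > 0` the number `n - 1` does not have this property. -/
theorem scale_exists {m : ℕ} (hm : 1 ≤ m) {ρ₁ r : ℝ} (hρ : 0 < ρ₁) (h0 : 0 < r) (h1 : r < 1) :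
    ∃ n : ℕ, (0 < n → ρ₁ ≤ (r ^ 4) ^ 4 ^ (m * n)) ∧ r ^ 4 ^ (m * (n + 1) + 1) < ρ₁ := by
  classical
  have hex : ∃ n : ℕ, r ^ 4 ^ (m * (n + 1) + 1) < ρ₁ := by
    obtain ⟨N, hN⟩ := exists_pow_lt_of_lt_one hρ h1
    refine ⟨N, lt_of_le_of_lt (pow_le_pow_of_le_one h0.le h1.le ?_) hN⟩
    have h2 : N < 4 ^ N := Nat.lt_pow_self (by norm_num)
    refine h2.le.trans (Nat.pow_le_pow_right (by norm_num) ?_)
    nlinarith
  refine ⟨Nat.find hex, fun hn => ?_, Nat.find_spec hex⟩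
  have h3 := Nat.find_min hex (Nat.sub_lt hn one_pos)
  rw [not_lt, Nat.sub_add_cancel (show 1 ≤ Nat.find hex from hn)] at h3
  rw [← pow_mul, mul_comm 4, ← pow_succ]
  exact h3

/-- `‖f'‖ = ‖exp B‖ ‖Q‖` (`deriv_fn`), `‖Q z‖ = exp (SS (m n) (z^4)) ‖Q (z^(4^(m n)))‖` (`QQ_norm`),
`‖exp B‖ ≥ exp (-C)` and `‖Q‖ ≥ q` on `‖z‖ ≤ r₂`. Hence the integral is
`≥ (exp (-C) q)^p ci (exp (p SS (m n) (z^4))) r`, and `ci_pow`. -/
theorem mean_lower (h0 : 0 < τ) (S : Sol τ B) {r₂ : ℝ} (h2 : r₂ < 1) :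
    ∃ b : ℝ, 0 < b ∧ ∀ p, 0 < p → ∀ k : ℕ, ∀ r, 0 < r → r < 1 → r ^ 4 ^ k ≤ r₂ →
      b ^ p * ci (fun z => Real.exp (p * SS B k z)) (r ^ 4) ≤
        ∫ θ in (0 : ℝ)..2 * Real.pi, ‖deriv (fn B) (pt r θ)‖ ^ p := by
  obtain ⟨q, hq, hQ⟩ := QQ_lower h0 S h2
  obtain ⟨C, hC⟩ := (isCompact_closedBall (0 : ℂ) 1).exists_bound_of_continuousOn S.cont
  have hb : 0 < Real.exp (-C) * q := mul_pos (Real.exp_pos _) hq
  refine ⟨Real.exp (-C) * q, hb, fun p hp k r hr hr1 hrk => ?_⟩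
  have hpc : Continuous (fun θ : ℝ => pt r θ) := by
    have := pt_cont.comp (continuous_const.prodMk continuous_id : Continuous fun θ : ℝ => (r, θ))
    exact this
  have hball : ∀ θ : ℝ, pt r θ ∈ ball (0 : ℂ) 1 := fun θ => by
    rw [mem_ball_zero_iff, norm_pt hr.le]
    exact hr1
  have hu : ContinuousOn (fun z => Real.exp (p * SS B k z)) (closedBall 0 1) :=
    Real.continuous_exp.comp_continuousOn (continuousOn_const.mul (SS_cont S k))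
  have h3 := ci_pow hu hr.le hr1.le (N := 4) (by norm_num)
  rw [← h3]
  have h5 : (Real.exp (-C) * q) ^ p * ci (fun z => Real.exp (p * SS B k (z ^ 4))) r =
      ∫ θ in (0 : ℝ)..2 * Real.pi, (Real.exp (-C) * q) ^ p *
        Real.exp (p * SS B k (pt r θ ^ 4)) := by
    rw [intervalIntegral.integral_const_mul]
    rfl
  rw [h5]
  have hc1 : Continuous (fun θ : ℝ => (Real.exp (-C) * q) ^ p *
      Real.exp (p * SS B k (pt r θ ^ 4))) :=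
    continuous_const.mul (comp_pt_cont (comp_pow_cont hu 4) hr.le hr1.le)
  have hd : ContinuousOn (deriv (fn B)) (ball 0 1) :=
    ((fn_diff S).deriv isOpen_ball).continuousOn
  have hc2 : Continuous (fun θ : ℝ => ‖deriv (fn B) (pt r θ)‖ ^ p) := by
    have h6 : Continuous (fun θ : ℝ => deriv (fn B) (pt r θ)) := hd.comp_continuous hpc hball
    exact h6.norm.rpow_const fun θ => Or.inr hp.le
  refine intervalIntegral.integral_mono_on (by positivity) (hc1.intervalIntegrable _ _)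
    (hc2.intervalIntegrable _ _) fun θ _ => ?_
  have hz := hball θ
  have hz1 : pt r θ ∈ closedBall (0 : ℂ) 1 := ball_subset_closedBall hz
  have h6 : ‖deriv (fn B) (pt r θ)‖ =
      Real.exp (B (pt r θ)).re * (Real.exp (SS B k (pt r θ ^ 4)) * ‖QQ B (pt r θ ^ 4 ^ k)‖) := by
    rw [deriv_fn S hz, norm_mul, Complex.norm_exp, QQ_norm h0 S k hz]
  have h7 : -C ≤ (B (pt r θ)).re := by
    have h8 := abs_re_le_norm (B (pt r θ))
    have h9 := hC _ hz1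
    have h10 := neg_abs_le (B (pt r θ)).re
    linarith
  have h8 : q ≤ ‖QQ B (pt r θ ^ 4 ^ k)‖ := by
    apply hQ
    rw [norm_pow, norm_pt hr.le]
    exact hrk
  have h9 : Real.exp (-C) * q * Real.exp (SS B k (pt r θ ^ 4)) ≤ ‖deriv (fn B) (pt r θ)‖ := by
    rw [h6]
    calc Real.exp (-C) * q * Real.exp (SS B k (pt r θ ^ 4))
        = Real.exp (-C) * (Real.exp (SS B k (pt r θ ^ 4)) * q) := by ring
      _ ≤ Real.exp (B (pt r θ)).re *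
          (Real.exp (SS B k (pt r θ ^ 4)) * ‖QQ B (pt r θ ^ 4 ^ k)‖) :=
        mul_le_mul (Real.exp_le_exp.2 h7) (mul_le_mul_of_nonneg_left h8 (Real.exp_pos _).le)
          (by positivity) (Real.exp_pos _).le
  calc (Real.exp (-C) * q) ^ p * Real.exp (p * SS B k (pt r θ ^ 4))
      = (Real.exp (-C) * q * Real.exp (SS B k (pt r θ ^ 4))) ^ p := by
        rw [Real.mul_rpow hb.le (Real.exp_pos _).le, ← Real.exp_mul, mul_comm p]
    _ ≤ ‖deriv (fn B) (pt r θ)‖ ^ p :=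
        Real.rpow_le_rpow (mul_pos hb (Real.exp_pos _)).le h9 hp.le

/-- If `r ^ 4 ^ (m (n+1) + 1) < ρ₁` then `1 - r > (1 - ρ₁) / 4^(m (n+1) + 1)` (Bernoulli,
`one_add_mul_le_pow`), so `(1 - r)^(-e) ≤ ((1 - ρ₁)/4^(m+1))^(-e) (4^(e m))^n` for `e ≥ 0`. -/
theorem scale_bound {m n : ℕ} {ρ₁ r e a : ℝ} (hρ : ρ₁ < 1) (h0 : 0 < r) (h1 : r < 1) (he : 0 ≤ e)
    (hr : r ^ 4 ^ (m * (n + 1) + 1) < ρ₁) (ha : (4 : ℝ) ^ (e * m) ≤ a) :
    (1 - r) ^ (-e) ≤ ((1 - ρ₁) / 4 ^ (m + 1)) ^ (-e) * a ^ n := by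
  have h2 : (1 : ℝ) + ((4 ^ (m * (n + 1) + 1) : ℕ) : ℝ) * (r - 1) ≤
      (1 + (r - 1)) ^ (4 ^ (m * (n + 1) + 1)) := one_add_mul_le_pow (by linarith) _
  rw [add_sub_cancel] at h2
  have hρ1 : 0 < 1 - ρ₁ := by linarith
  have hK : ((4 ^ (m * (n + 1) + 1) : ℕ) : ℝ) = 4 ^ (m + 1) * 4 ^ (m * n) := by
    push_cast
    rw [← pow_add]
    congr 1
    ring
  have hK0 : (0 : ℝ) < 4 ^ (m + 1) * 4 ^ (m * n) := by positivity
  rw [hK] at h2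
  have h3 : (1 - ρ₁) / (4 ^ (m + 1) * 4 ^ (m * n)) ≤ 1 - r := by
    rw [div_le_iff₀ hK0]
    nlinarith
  have h4 : (1 - r) ^ (-e) ≤ ((1 - ρ₁) / (4 ^ (m + 1) * 4 ^ (m * n))) ^ (-e) :=
    Real.rpow_le_rpow_of_nonpos (div_pos hρ1 hK0) h3 (by linarith)
  refine h4.trans ?_
  have hA : (0 : ℝ) ≤ (1 - ρ₁) / 4 ^ (m + 1) := by positivity
  rw [← div_div, Real.div_rpow hA (by positivity)]
  have h5 : (((4 : ℝ) ^ (m * n)) ^ (-e))⁻¹ = ((4 : ℝ) ^ (e * m)) ^ n := by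
    rw [Real.rpow_neg (by positivity), inv_inv, ← Real.rpow_natCast 4 (m * n),
      ← Real.rpow_mul (by norm_num), ← Real.rpow_natCast ((4 : ℝ) ^ (e * m)) n,
      ← Real.rpow_mul (by norm_num)]
    congr 1
    push_cast
    ring
  rw [div_eq_mul_inv, h5]
  exact mul_le_mul_of_nonneg_left (pow_le_pow_left₀ (by positivity) ha n) (Real.rpow_nonneg hA _)

/-- Choose `v` with `2 log 4 c < v < σ²`, `m`, `ρ₁`, `p₀` from `block`, `p₀` also from `step_ineq`,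
`a = 1 + p^2/2 (m v)`; `r₂ = ρ₁ ^ (1 / 4^(m+1))`. For `r` take `n` from `scale_exists`:
`(r ^ 4 ^ (m n)) ^ 4 ^ (m+1) < ρ₁`, so `r ^ 4 ^ (m n) ≤ r₂`. Then `mean_lower` with `k = m n`, `iter` and
`scale_bound` with `e = c p^2`. -/
theorem growth (h0 : 0 < τ) (S : Sol τ B) {c : ℝ} (hc : 0 < c)
    (hc1 : 2 * Real.log 4 * c < (2 * Real.pi)⁻¹ * ci (fun z => ps B z ^ 2) 1) :
    ∃ p₀ : ℝ, 0 < p₀ ∧ ∀ p, 0 < p → p ≤ p₀ → ∃ K : ℝ, 0 < K ∧ ∀ r, 0 < r → r < 1 →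
      K * (1 - r) ^ (-(c * p ^ 2)) ≤
        ∫ θ in (0 : ℝ)..2 * Real.pi, ‖deriv (fn B) (pt r θ)‖ ^ p := by
  obtain ⟨v, hv1, hv2⟩ := exists_between hc1
  have hl : 0 < Real.log 4 := Real.log_pos (by norm_num)
  have hv0 : 0 < v := lt_trans (by positivity) hv1
  obtain ⟨m, hm, ρ₁, hρ0, hρ1, p₁, hp₁, H⟩ := block S hv0 hv2
  obtain ⟨p₂, hp₂, H2⟩ := step_ineq hc hv1 hm
  refine ⟨min p₁ p₂, lt_min hp₁ hp₂, ?_⟩
  intro p hp hpp
  have hpos4 : (0 : ℝ) < 4 ^ (m + 1) := by positivity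
  have h2 : ρ₁ ^ (1 / (4 ^ (m + 1) : ℝ)) < 1 :=
    Real.rpow_lt_one hρ0.le hρ1 (by positivity)
  obtain ⟨b, hb, HB⟩ := mean_lower h0 S h2
  have hD : 0 < (1 - ρ₁) / 4 ^ (m + 1) := div_pos (by linarith) hpos4
  have hDe : 0 < ((1 - ρ₁) / 4 ^ (m + 1)) ^ (-(c * p ^ 2)) := Real.rpow_pos_of_pos hD _
  have hbp : 0 < b ^ p := Real.rpow_pos_of_pos hb _
  have hpi : 0 < 2 * Real.pi := by positivity
  refine ⟨b ^ p * (2 * Real.pi) / ((1 - ρ₁) / 4 ^ (m + 1)) ^ (-(c * p ^ 2)), by positivity, ?_⟩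
  intro r hr0 hr1
  obtain ⟨n, hn1, hn2⟩ := scale_exists hm hρ0 hr0 hr1
  have ha0 : (0 : ℝ) ≤ 1 + p ^ 2 / 2 * (m * v) := by positivity
  have h40 : (0 : ℝ) ≤ r ^ 4 := by positivity
  have h41 : r ^ 4 ≤ 1 := pow_le_one₀ hr0.le hr1.le
  have e1 := iter S ha0 (H p hp (hpp.trans (min_le_left _ _))) n h40 h41 hn1
  have hk : r ^ 4 ^ (m * n) ≤ ρ₁ ^ (1 / (4 ^ (m + 1) : ℝ)) := by
    have h3 : (r ^ 4 ^ (m * n)) ^ 4 ^ (m + 1) < ρ₁ := by
      rw [← pow_mul, ← pow_add]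
      have e : m * n + (m + 1) = m * (n + 1) + 1 := by ring
      rw [e]
      exact hn2
    have h4 : 0 ≤ r ^ 4 ^ (m * n) := by positivity
    have h5 : r ^ 4 ^ (m * n) =
        ((r ^ 4 ^ (m * n)) ^ 4 ^ (m + 1)) ^ (1 / (4 ^ (m + 1) : ℝ)) := by
      rw [← Real.rpow_natCast (r ^ 4 ^ (m * n)) (4 ^ (m + 1)), ← Real.rpow_mul h4]
      push_cast
      rw [mul_one_div_cancel hpos4.ne', Real.rpow_one]
    rw [h5]
    exact Real.rpow_le_rpow (by positivity) h3.le (by positivity)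
  have e2 := HB p hp (m * n) r hr0 hr1 hk
  have e3 := scale_bound (e := c * p ^ 2) (a := 1 + p ^ 2 / 2 * (m * v)) hρ1 hr0 hr1
    (by positivity) hn2 (H2 p hp (hpp.trans (min_le_right _ _)))
  calc b ^ p * (2 * Real.pi) / ((1 - ρ₁) / 4 ^ (m + 1)) ^ (-(c * p ^ 2)) *
        (1 - r) ^ (-(c * p ^ 2))
      ≤ b ^ p * (2 * Real.pi) / ((1 - ρ₁) / 4 ^ (m + 1)) ^ (-(c * p ^ 2)) *
        (((1 - ρ₁) / 4 ^ (m + 1)) ^ (-(c * p ^ 2)) * (1 + p ^ 2 / 2 * (m * v)) ^ n) :=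
        mul_le_mul_of_nonneg_left e3 (by positivity)
    _ = b ^ p * ((1 + p ^ 2 / 2 * (m * v)) ^ n * (2 * Real.pi)) := by
        field_simp
    _ ≤ b ^ p * ci (fun z => Real.exp (p * SS B (m * n) z)) (r ^ 4) :=
        mul_le_mul_of_nonneg_left e1 hbp.le
    _ ≤ _ := e2

end Pool.Agent.Helper42.LB
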