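import Pool.Agent.Helper42.LB.Cir

/-!
# LB-D3: equidistribution
-/

set_option autoImplicit false

namespace Pool.Agent.Helper42.LB

open Complex Metric Set Finset

variable {u w : ℂ → ℝ} {r : ℝ}

/-- the distance of two points of the unit circle -/
private theorem rie_arc (a φ : ℝ) : ‖pt 1 φ - pt 1 a‖ ≤ |φ - a| := by
  have h1 : pt 1 φ - pt 1 a = pt 1 a * (exp (I * ((φ - a : ℝ) : ℂ)) - 1) := by
    unfold pt
    rw [ofReal_one, one_mul, one_mul, mul_sub, mul_one, ← Complex.exp_add]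
    congr 2
    push_cast
    ring
  rw [h1, norm_mul, norm_pt zero_le_one, one_mul]
  exact Real.norm_exp_I_mul_ofReal_sub_one_le

/-- the distance of two points of a ray -/
private theorem rie_ray {r : ℝ} (hr : r ≤ 1) (a : ℝ) : ‖pt 1 a - pt r a‖ = 1 - r := by
  have h1 : pt 1 a - pt r a = ((1 - r : ℝ) : ℂ) * pt 1 a := by
    unfold pt
    push_cast
    ring
  rw [h1, norm_mul, norm_pt zero_le_one, mul_one, Complex.norm_real, Real.norm_eq_abs,
    abs_of_nonneg (by linarith)]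

/-- Riemann sums. `u` is uniformly continuous on the closed disc: `|u z - u z'| ≤ ε` for
`|z - z'| < δ`. Let `N = 4^k`, `1 - r < δ/2`, `2 π / N < δ / 2`, `a j = θ + 2 π j / N`. Then
`ci u 1 = ∑_{j<N} ∫_{a j}^{a (j+1)} u (pt 1 φ) dφ` (periodicity, adjacent intervals) and for `φ` in
`[a j, a (j+1)]`: `|pt 1 φ - pt r (a j)| ≤ (1 - r) + 2 π / N < δ`. -/
theorem riemann (hu : ContinuousOn u (closedBall 0 1)) {ε : ℝ} (hε : 0 < ε) :
    ∃ ρ₁ : ℝ, 0 < ρ₁ ∧ ρ₁ < 1 ∧ ∃ k₀ : ℕ, ∀ k, k₀ ≤ k → ∀ r, ρ₁ ≤ r → r ≤ 1 → ∀ θ : ℝ,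
      (2 * Real.pi)⁻¹ * ci u 1 - ε ≤
        ((4 : ℝ) ^ k)⁻¹ * ∑ j ∈ range (4 ^ k), u (pt r (θ + 2 * Real.pi * j / 4 ^ k)) := by
  have hπ : 0 < Real.pi := Real.pi_pos
  obtain ⟨δ, hδ, hd⟩ := Metric.uniformContinuousOn_iff_le.1
    ((isCompact_closedBall (0 : ℂ) 1).uniformContinuousOn_of_continuous hu) ε hε
  obtain ⟨k₀, hk₀⟩ := exists_nat_ge (4 * Real.pi / δ)
  refine ⟨max (1 / 2) (1 - δ / 2), lt_max_of_lt_left (by norm_num),
    max_lt (by norm_num) (by linarith), k₀, ?_⟩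
  intro k hk r hr1 hr2 θ
  have hr3 : 1 / 2 ≤ r := le_trans (le_max_left _ _) hr1
  have hr4 : 1 - δ / 2 ≤ r := le_trans (le_max_right _ _) hr1
  have hN : (0 : ℝ) < (4 : ℝ) ^ k := by positivity
  have hNk : 4 * Real.pi / δ ≤ (4 : ℝ) ^ k := by
    have h1 : (k : ℝ) ≤ (4 : ℝ) ^ k := by
      exact_mod_cast (Nat.lt_pow_self (by norm_num : 1 < 4)).le
    have h2 : (k₀ : ℝ) ≤ k := by exact_mod_cast hk
    linarith
  have hh : 2 * Real.pi / (4 : ℝ) ^ k ≤ δ / 2 := by
    rw [div_le_iff₀ hδ] at hNk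
    rw [div_le_iff₀ hN]
    linarith
  set a : ℕ → ℝ := fun j => θ + 2 * Real.pi * j / 4 ^ k with ha
  set f : ℝ → ℝ := fun φ => u (pt 1 φ) with hf
  have hfc : Continuous f := comp_pt_cont hu zero_le_one le_rfl
  have hfp : Function.Periodic f (2 * Real.pi) := fun φ => by
    rw [hf]
    change u (pt 1 (φ + 2 * Real.pi)) = u (pt 1 φ)
    rw [pt_periodic 1 φ]
  have hsum : ∑ j ∈ range (4 ^ k), ∫ φ in a j..a (j + 1), f φ = ci u 1 := by
    rw [intervalIntegral.sum_integral_adjacent_intervals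
      (fun j _ => hfc.intervalIntegrable _ _)]
    have h1 : a (4 ^ k) = a 0 + 2 * Real.pi := by
      rw [ha]
      push_cast
      field_simp
      ring
    rw [h1, hfp.intervalIntegral_add_eq (a 0) 0, zero_add]
    rfl
  have hstep : ∀ j : ℕ, a (j + 1) - a j = 2 * Real.pi / 4 ^ k := by
    intro j
    rw [ha]
    push_cast
    ring
  have hpos : 0 < 2 * Real.pi / (4 : ℝ) ^ k := by positivity
  have hint : ∀ j ∈ range (4 ^ k), ∫ φ in a j..a (j + 1), f φ ≤
      2 * Real.pi / 4 ^ k * (u (pt r (a j)) + ε) := by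
    intro j _
    have hle : a j ≤ a (j + 1) := by
      have := hstep j
      linarith
    calc ∫ φ in a j..a (j + 1), f φ ≤ ∫ _ in a j..a (j + 1), (u (pt r (a j)) + ε) := by
          refine intervalIntegral.integral_mono_on hle (hfc.intervalIntegrable _ _)
            (intervalIntegrable_const) ?_
          intro φ hφ
          have h1 : dist (pt 1 φ) (pt r (a j)) ≤ δ := by
            rw [dist_eq_norm]
            have h2 : pt 1 φ - pt r (a j) = (pt 1 φ - pt 1 (a j)) + (pt 1 (a j) - pt r (a j)) := by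
              ring
            rw [h2]
            refine le_trans (norm_add_le _ _) ?_
            rw [rie_ray hr2]
            have h3 := rie_arc (a j) φ
            have h4 : |φ - a j| ≤ 2 * Real.pi / 4 ^ k := by
              rw [abs_of_nonneg (by linarith [hφ.1])]
              have := hstep j
              linarith [hφ.2]
            linarith
          have h5 := hd _ (pt_mem zero_le_one le_rfl φ) _ (pt_mem (by linarith) hr2 (a j)) h1
          rw [Real.dist_eq] at h5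
          have h6 := (abs_le.1 h5).2
          change u (pt 1 φ) ≤ _
          linarith
      _ = 2 * Real.pi / 4 ^ k * (u (pt r (a j)) + ε) := by
          rw [intervalIntegral.integral_const, smul_eq_mul, hstep]
  have htot : ci u 1 ≤ 2 * Real.pi / 4 ^ k *
      (∑ j ∈ range (4 ^ k), u (pt r (a j)) + 4 ^ k * ε) := by
    rw [← hsum]
    refine le_trans (Finset.sum_le_sum hint) (le_of_eq ?_)
    rw [← Finset.mul_sum, Finset.sum_add_distrib, Finset.sum_const, Finset.card_range, nsmul_eq_mul]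
    push_cast
    ring
  have hfin : (2 * Real.pi)⁻¹ * ci u 1 ≤
      ((4 : ℝ) ^ k)⁻¹ * ∑ j ∈ range (4 ^ k), u (pt r (a j)) + ε := by
    have h1 : (0 : ℝ) ≤ (2 * Real.pi)⁻¹ := by positivity
    refine le_trans (mul_le_mul_of_nonneg_left htot h1) (le_of_eq ?_)
    field_simp
  linarith

/-- Average over the rotations by the roots of unity of the order `N`: `ci_rot` with
`α = 2 π j / N` (`pt 1 α ^ N = 1`), `ci_sum`. -/
theorem ci_avg (hu : ContinuousOn u (closedBall 0 1)) (hw : ContinuousOn w (closedBall 0 1))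
    (h0 : 0 ≤ r) (h1 : r ≤ 1) {N : ℕ} (hN : 0 < N) :
    ci (fun z => u z * w (z ^ N)) r =
      ci (fun z => ((N : ℝ)⁻¹ * ∑ j ∈ range N, u (pt 1 (2 * Real.pi * j / N) * z)) * w (z ^ N)) r := by
  have hN' : (N : ℝ) ≠ 0 := by exact_mod_cast hN.ne'
  have hrot : ∀ j : ℕ, ci (fun z => u (pt 1 (2 * Real.pi * j / N) * z) * w (z ^ N)) r =
      ci (fun z => u z * w (z ^ N)) r := by
    intro j
    rw [← ci_rot (fun z => u z * w (z ^ N)) r (2 * Real.pi * j / N)]
    refine ci_congr h0 (fun z _ => ?_)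
    change _ = u (pt 1 (2 * Real.pi * j / N) * z) * w ((pt 1 (2 * Real.pi * j / N) * z) ^ N)
    have h2 : pt 1 (2 * Real.pi * j / N) ^ N = 1 := by
      rw [pt_pow, one_pow, mul_div_cancel₀ _ hN']
      have h3 := (pt_periodic 1).nat_mul j 0
      rw [zero_add] at h3
      rw [mul_comm (2 * Real.pi) (j : ℝ), h3]
      unfold pt
      simp
    rw [mul_pow, h2, one_mul]
  have hc : ∀ j : ℕ, ContinuousOn
      (fun z => u (pt 1 (2 * Real.pi * j / N) * z) * w (z ^ N)) (closedBall 0 1) := by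
    intro j
    refine ContinuousOn.mul (hu.comp (by fun_prop) ?_) (comp_pow_cont hw N)
    intro z hz
    rw [mem_closedBall_zero_iff] at hz ⊢
    rw [norm_mul, norm_pt zero_le_one, one_mul]
    exact hz
  have hs := ci_sum N hc h0 h1
  have hs2 : ∑ j ∈ range N, ci (fun z => u (pt 1 (2 * Real.pi * j / N) * z) * w (z ^ N)) r =
      N * ci (fun z => u z * w (z ^ N)) r := by
    rw [Finset.sum_congr rfl (fun j _ => hrot j), Finset.sum_const, Finset.card_range,
      nsmul_eq_mul]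
  have hr : ci (fun z => ((N : ℝ)⁻¹ * ∑ j ∈ range N, u (pt 1 (2 * Real.pi * j / N) * z)) *
      w (z ^ N)) r = (N : ℝ)⁻¹ * ci (fun z => ∑ j ∈ range N,
        u (pt 1 (2 * Real.pi * j / N) * z) * w (z ^ N)) r := by
    rw [← ci_mul_left]
    refine ci_congr h0 (fun z _ => ?_)
    rw [mul_assoc, Finset.sum_mul]
  rw [hr, hs, hs2, inv_mul_cancel_left₀ hN']

/-- `ci_avg` with `N = 4^k`, `riemann` and `ci_mono`. -/
theorem equi (hu : ContinuousOn u (closedBall 0 1)) {ε : ℝ} (hε : 0 < ε) :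
    ∃ ρ₁ : ℝ, 0 < ρ₁ ∧ ρ₁ < 1 ∧ ∃ k₀ : ℕ, ∀ k, k₀ ≤ k → ∀ r, ρ₁ ≤ r → r ≤ 1 → ∀ w : ℂ → ℝ,
      ContinuousOn w (closedBall 0 1) → (∀ z, 0 ≤ w z) →
      ((2 * Real.pi)⁻¹ * ci u 1 - ε) * ci (fun z => w (z ^ 4 ^ k)) r ≤
        ci (fun z => u z * w (z ^ 4 ^ k)) r := by
  obtain ⟨ρ₁, h1, h2, k₀, h⟩ := riemann hu hε
  refine ⟨ρ₁, h1, h2, k₀, fun k hk r hr1 hr2 w hw hw0 => ?_⟩
  have h0 : 0 ≤ r := by linarith
  rw [ci_avg hu hw h0 hr2 (N := 4 ^ k) (by positivity), ← ci_mul_left]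
  have hrotc : ∀ j : ℕ, ContinuousOn
      (fun z => u (pt 1 (2 * Real.pi * j / (4 ^ k : ℕ)) * z)) (closedBall 0 1) := by
    intro j
    refine hu.comp (by fun_prop) ?_
    intro z hz
    rw [mem_closedBall_zero_iff] at hz ⊢
    rw [norm_mul, norm_pt zero_le_one, one_mul]
    exact hz
  refine ci_mono (continuousOn_const.mul (comp_pow_cont hw _))
    ((continuousOn_const.mul (continuousOn_finsetSum _ fun j _ => hrotc j)).mul
      (comp_pow_cont hw _)) h0 hr2 (fun z hz => ?_)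
  refine mul_le_mul_of_nonneg_right ?_ (hw0 _)
  have hz' : z = pt r (arg z) := by
    unfold pt
    rw [← hz]
    exact (norm_mul_exp_arg_mul_I z).symm
  have h3 := h k hk r hr1 hr2 (arg z)
  refine le_trans h3 (le_of_eq ?_)
  push_cast
  congr 1
  refine Finset.sum_congr rfl (fun j _ => ?_)
  conv_rhs => rw [hz', pt_mul, one_mul, add_comm]

end Pool.Agent.Helper42.LB
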