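import Pool.Agent.Helper42.LB.Orth
import Pool.Agent.Helper42.LB.Equi

/-!
# LB-D4: one block
-/

set_option autoImplicit false

namespace Pool.Agent.Helper42.LB

open Complex Metric Set Finset

variable {τ : ℝ} {B : ℂ → ℂ}

private theorem bl_exp2 {x : ℝ} (hx : x ≤ 0) : Real.exp x ≤ 1 + x + x ^ 2 / 2 := by
  have hd : ∀ y : ℝ, HasDerivAt (fun y : ℝ => 1 + y + y ^ 2 / 2 - Real.exp y)
      (1 + y - Real.exp y) y := by
    intro y
    have h1 : HasDerivAt (fun y : ℝ => 1 + y) 1 y := (hasDerivAt_id' y).const_add 1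
    have h2 : HasDerivAt (fun y : ℝ => y ^ 2 / 2) (2 * y / 2) y := by
      have h := (hasDerivAt_pow 2 y).div_const 2
      simpa using h
    have h3 := (h1.fun_add h2).fun_sub (Real.hasDerivAt_exp y)
    exact h3.congr_deriv (by ring)
  have hanti : AntitoneOn (fun y : ℝ => 1 + y + y ^ 2 / 2 - Real.exp y) (Set.Iic 0) := by
    refine antitoneOn_of_deriv_nonpos (convex_Iic 0)
      (fun y _ => (hd y).continuousAt.continuousWithinAt)
      (fun y _ => (hd y).differentiableAt.differentiableWithinAt) ?_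
    intro y _
    rw [(hd y).deriv]
    have := Real.add_one_le_exp y
    linarith
  have h := hanti (Set.mem_Iic.2 hx) (Set.mem_Iic.2 (le_refl (0 : ℝ))) hx
  simp only [Real.exp_zero] at h
  linarith

/-- `exp x ≥ 1 + x + x^2/2 + x^3/6` for all real `x` -/
theorem exp_lower (x : ℝ) : 1 + x + x ^ 2 / 2 - |x| ^ 3 / 6 ≤ Real.exp x := by
  rcases le_total 0 x with hx | hx
  · have h1 := Real.quadratic_le_exp_of_nonneg hx
    have h2 : 0 ≤ |x| ^ 3 / 6 := by positivity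
    linarith
  · have hd : ∀ y : ℝ, HasDerivAt (fun y : ℝ => Real.exp y - (1 + y + y ^ 2 / 2 + y ^ 3 / 6))
        (Real.exp y - (1 + y + y ^ 2 / 2)) y := by
      intro y
      have h1 : HasDerivAt (fun y : ℝ => 1 + y) 1 y := (hasDerivAt_id' y).const_add 1
      have h2 : HasDerivAt (fun y : ℝ => y ^ 2 / 2) (2 * y / 2) y := by
        have h := (hasDerivAt_pow 2 y).div_const 2
        simpa using h
      have h3 : HasDerivAt (fun y : ℝ => y ^ 3 / 6) (3 * y ^ 2 / 6) y := by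
        have h := (hasDerivAt_pow 3 y).div_const 6
        simpa using h
      have h4 := (Real.hasDerivAt_exp y).fun_sub ((h1.fun_add h2).fun_add h3)
      exact h4.congr_deriv (by ring)
    have hanti : AntitoneOn (fun y : ℝ => Real.exp y - (1 + y + y ^ 2 / 2 + y ^ 3 / 6))
        (Set.Iic 0) := by
      refine antitoneOn_of_deriv_nonpos (convex_Iic 0)
        (fun y _ => (hd y).continuousAt.continuousWithinAt)
        (fun y _ => (hd y).differentiableAt.differentiableWithinAt) ?_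
      intro y hy
      rw [(hd y).deriv]
      have hy' : y ≤ 0 := by
        rw [interior_Iic] at hy
        exact le_of_lt hy
      have := bl_exp2 hy'
      linarith
    have h := hanti (Set.mem_Iic.2 hx) (Set.mem_Iic.2 (le_refl (0 : ℝ))) hx
    simp only [Real.exp_zero] at h
    have h3 : |x| ^ 3 = -x ^ 3 := by
      rw [abs_of_nonpos hx]
      ring
    rw [h3]
    linarith

private theorem bl_term (S : Sol τ B) {w : ℂ → ℝ} (hw : ContinuousOn w (closedBall 0 1)) {r : ℝ}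
    (h0 : 0 ≤ r) (h1 : r ≤ 1) {j m : ℕ} (hj : j ≤ m) :
    ci (fun z => ps B (z ^ 4 ^ j) ^ 2 * w (z ^ 4 ^ m)) r =
      ci (fun z => ps B z ^ 2 * w (z ^ 4 ^ (m - j))) (r ^ 4 ^ j) := by
  have h := ci_pow (u := fun z => ps B z ^ 2 * w (z ^ 4 ^ (m - j)))
    (((ps_cont S).pow 2).mul (comp_pow_cont hw _)) h0 h1 (N := 4 ^ j) (by positivity)
  rw [← h]
  refine congrArg (fun u => ci u r) (funext fun z => ?_)
  show ps B (z ^ 4 ^ j) ^ 2 * w (z ^ 4 ^ m) =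
    ps B (z ^ 4 ^ j) ^ 2 * w ((z ^ 4 ^ j) ^ 4 ^ (m - j))
  rw [← pow_mul, ← pow_add, Nat.add_sub_cancel' hj]

private theorem bl_w {w : ℂ → ℝ} (hw : ContinuousOn w (closedBall 0 1)) {r : ℝ}
    (h0 : 0 ≤ r) (h1 : r ≤ 1) {j m : ℕ} (hj : j ≤ m) :
    ci (fun z => w (z ^ 4 ^ m)) r = ci (fun z => w (z ^ 4 ^ (m - j))) (r ^ 4 ^ j) := by
  have h := ci_pow (u := fun z => w (z ^ 4 ^ (m - j)))
    (comp_pow_cont hw _) h0 h1 (N := 4 ^ j) (by positivity)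
  rw [← h]
  refine congrArg (fun u => ci u r) (funext fun z => ?_)
  show w (z ^ 4 ^ m) = w ((z ^ 4 ^ j) ^ 4 ^ (m - j))
  rw [← pow_mul, ← pow_add, Nat.add_sub_cancel' hj]

private theorem bl_nonneg {u : ℂ → ℝ} (hu : ContinuousOn u (closedBall 0 1)) {r : ℝ}
    (h0 : 0 ≤ r) (h1 : r ≤ 1) (hp : ∀ z, 0 ≤ u z) : 0 ≤ ci u r := by
  have h := ci_mono (u := fun _ => (0 : ℝ)) continuousOn_const hu h0 h1 fun z _ => hp z
  rwa [ci_const, mul_zero] at h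

/-- Choose `ε = (σ² - v)/3` (`σ²` the mean of `ps^2`, a number `≥ 0`), `ρ₁`, `k₀` from `equi` for
`u = ps B ^ 2`, and `m ≥ 1` with `(m - k₀) (σ² - ε) ≥ m (v + ε)`, i.e. `m ε ≥ k₀ (σ² - ε)`. By
`ci_SS_sq_mul` the integral is the sum of the
`ci (ps (z^(4^j))^2 w (z^(4^m))) r = ci (ps^2 w (z^(4^(m-j)))) (r^(4^j))` (`ci_pow`), which are `≥ 0` for
all `j` and for `m - j ≥ k₀` at least `(σ² - ε)` times
`ci (w (z^(4^(m-j)))) (r^(4^j)) = ci (w (z^(4^m))) r`, as `ρ₁ ≤ r^(4^m) ≤ r^(4^j)`. -/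
theorem block_sq (S : Sol τ B) {v : ℝ} (hv0 : 0 < v)
    (hv : v < (2 * Real.pi)⁻¹ * ci (fun z => ps B z ^ 2) 1) :
    ∃ m : ℕ, 1 ≤ m ∧ ∃ ε : ℝ, 0 < ε ∧ ∃ ρ₁ : ℝ, 0 < ρ₁ ∧ ρ₁ < 1 ∧ ∀ r, 0 ≤ r → r ≤ 1 →
      ρ₁ ≤ r ^ 4 ^ m → ∀ w : ℂ → ℝ, ContinuousOn w (closedBall 0 1) → (∀ z, 0 ≤ w z) →
      m * (v + ε) * ci (fun z => w (z ^ 4 ^ m)) r ≤ ci (fun z => SS B m z ^ 2 * w (z ^ 4 ^ m)) r := by
  have hu : ContinuousOn (fun z => ps B z ^ 2) (closedBall 0 1) := (ps_cont S).pow 2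
  obtain ⟨σ, hσ⟩ : ∃ σ, (2 * Real.pi)⁻¹ * ci (fun z => ps B z ^ 2) 1 = σ := ⟨_, rfl⟩
  rw [hσ] at hv
  obtain ⟨ε, hεd⟩ : ∃ ε, (σ - v) / 3 = ε := ⟨_, rfl⟩
  have hε : 0 < ε := by
    rw [← hεd]
    linarith
  obtain ⟨ρ₁, hρ0, hρ1, k₀, hE⟩ := equi hu hε
  simp only [hσ] at hE
  obtain ⟨m0, hm0⟩ := exists_nat_ge (k₀ * (σ - ε) / ε)
  obtain ⟨m, hm⟩ : ∃ m, m0 + k₀ + 1 = m := ⟨_, rfl⟩
  refine ⟨m, by omega, ε, hε, ρ₁, hρ0, hρ1, ?_⟩
  intro r h0 h1 hr w hw hw0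
  rw [ci_SS_sq_mul S hw h0 h1]
  obtain ⟨W, hW⟩ : ∃ W, ci (fun z => w (z ^ 4 ^ m)) r = W := ⟨_, rfl⟩
  rw [hW]
  have hW0 : 0 ≤ W := by
    rw [← hW]
    exact bl_nonneg (comp_pow_cont hw _) h0 h1 fun z => hw0 _
  have hn : ∀ j, 0 ≤ ci (fun z => ps B (z ^ 4 ^ j) ^ 2 * w (z ^ 4 ^ m)) r := fun j =>
    bl_nonneg ((comp_pow_cont hu (4 ^ j)).mul (comp_pow_cont hw (4 ^ m))) h0 h1
      fun z => mul_nonneg (sq_nonneg _) (hw0 _)
  have hb : ∀ j ∈ range (m - k₀), (σ - ε) * W ≤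
      ci (fun z => ps B (z ^ 4 ^ j) ^ 2 * w (z ^ 4 ^ m)) r := by
    intro j hj
    rw [Finset.mem_range] at hj
    have hjm : j ≤ m := by omega
    have hr1 : ρ₁ ≤ r ^ 4 ^ j :=
      le_trans hr (pow_le_pow_of_le_one h0 h1 (Nat.pow_le_pow_right (by norm_num) hjm))
    have h := hE (m - j) (by omega) (r ^ 4 ^ j) hr1 (pow_le_one₀ h0 h1) w hw hw0
    rw [← bl_w hw h0 h1 hjm, hW] at h
    rw [bl_term S hw h0 h1 hjm]
    exact h
  have hsub : range (m - k₀) ⊆ range m := Finset.range_subset_range.2 (Nat.sub_le _ _)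
  have h2 : ((m - k₀ : ℕ) : ℝ) * ((σ - ε) * W) ≤
      ∑ j ∈ range m, ci (fun z => ps B (z ^ 4 ^ j) ^ 2 * w (z ^ 4 ^ m)) r := by
    calc ((m - k₀ : ℕ) : ℝ) * ((σ - ε) * W) = ∑ _j ∈ range (m - k₀), (σ - ε) * W := by
          rw [Finset.sum_const, Finset.card_range, nsmul_eq_mul]
      _ ≤ ∑ j ∈ range (m - k₀), ci (fun z => ps B (z ^ 4 ^ j) ^ 2 * w (z ^ 4 ^ m)) r :=
          Finset.sum_le_sum hb
      _ ≤ _ := Finset.sum_le_sum_of_subset_of_nonneg hsub fun j _ _ => hn j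
  refine le_trans ?_ h2
  rw [← mul_assoc]
  refine mul_le_mul_of_nonneg_right ?_ hW0
  have hk : k₀ ≤ m := by omega
  rw [Nat.cast_sub hk]
  have h3 : (k₀ : ℝ) * (σ - ε) ≤ m * ε := by
    rw [div_le_iff₀ hε] at hm0
    refine le_trans hm0 (mul_le_mul_of_nonneg_right ?_ hε.le)
    exact_mod_cast (by omega : m0 ≤ m)
  have h4 : v = σ - 3 * ε := by
    rw [← hεd]
    ring
  rw [h4]
  linarith

/-- With `m`, `ε`, `ρ₁` from `block_sq`, `M` from `ps_bound`: `exp_lower` for `x = p SS m z`,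
`|x| ≤ p m M`, integrated against `w ≥ 0` (`ci_SS_mul` kills the linear term), gives
`≥ (1 + p^2/2 m (v + ε) - (p m M)^3/6) ci (w (z^(4^m))) r`, and `(p m M)^3/6 ≤ p^2 m ε / 2` for
`p ≤ p₀ = ε / (m^2 M^3)`. -/
theorem block (S : Sol τ B) {v : ℝ} (hv0 : 0 < v)
    (hv : v < (2 * Real.pi)⁻¹ * ci (fun z => ps B z ^ 2) 1) :
    ∃ m : ℕ, 1 ≤ m ∧ ∃ ρ₁ : ℝ, 0 < ρ₁ ∧ ρ₁ < 1 ∧ ∃ p₀ : ℝ, 0 < p₀ ∧ ∀ p, 0 < p → p ≤ p₀ →
      ∀ r, 0 ≤ r → r ≤ 1 → ρ₁ ≤ r ^ 4 ^ m → ∀ w : ℂ → ℝ, ContinuousOn w (closedBall 0 1) →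
      (∀ z, 0 ≤ w z) → (1 + p ^ 2 / 2 * (m * v)) * ci (fun z => w (z ^ 4 ^ m)) r ≤
        ci (fun z => Real.exp (p * SS B m z) * w (z ^ 4 ^ m)) r := by
  obtain ⟨m, hm, ε, hε, ρ₁, hρ0, hρ1, H⟩ := block_sq S hv0 hv
  obtain ⟨M, hM0, hM⟩ := ps_bound S
  have hm0 : (0 : ℝ) < m := by exact_mod_cast hm
  refine ⟨m, hm, ρ₁, hρ0, hρ1, ε / (m ^ 2 * M ^ 3), by positivity, ?_⟩
  intro p hp hp0 r hr0 hr1 hr w hw hw0
  have hW : ContinuousOn (fun z => w (z ^ 4 ^ m)) (closedBall 0 1) := comp_pow_cont hw (4 ^ m)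
  have hS : ContinuousOn (SS B m) (closedBall 0 1) := SS_cont S m
  have hSW : ContinuousOn (fun z => SS B m z * w (z ^ 4 ^ m)) (closedBall 0 1) := hS.mul hW
  have hSSW : ContinuousOn (fun z => SS B m z ^ 2 * w (z ^ 4 ^ m)) (closedBall 0 1) :=
    (hS.pow 2).mul hW
  have e1 := ci_SS_mul S hw hr0 hr1 m
  have e2 := H r hr0 hr1 hr w hw hw0
  have hK : (p * (m * M)) ^ 3 / 6 ≤ p ^ 2 / 2 * (m * ε) := by
    have h1 : p * (m ^ 2 * M ^ 3) ≤ ε := by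
      rwa [le_div_iff₀ (by positivity)] at hp0
    have h2 : (p * (m * M)) ^ 3 / 6 = p ^ 2 * m * (p * (m ^ 2 * M ^ 3)) / 6 := by ring
    have h3 : p ^ 2 * m * (p * (m ^ 2 * M ^ 3)) ≤ p ^ 2 * m * ε :=
      mul_le_mul_of_nonneg_left h1 (by positivity)
    have h4 : 0 ≤ p ^ 2 * m * ε := by positivity
    have h5 : p ^ 2 / 2 * (m * ε) = p ^ 2 * m * ε / 2 := by ring
    rw [h2, h5]
    linarith
  have hCW : 0 ≤ ci (fun z => w (z ^ 4 ^ m)) r := by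
    have h1 := ci_mono (u := fun _ => 0) continuousOn_const hW hr0 hr1 (fun z _ => hw0 _)
    rwa [ci_const, mul_zero] at h1
  have key : ci (fun z => ((1 - (p * (m * M)) ^ 3 / 6) * w (z ^ 4 ^ m) +
      p * (SS B m z * w (z ^ 4 ^ m))) + p ^ 2 / 2 * (SS B m z ^ 2 * w (z ^ 4 ^ m))) r =
      (1 - (p * (m * M)) ^ 3 / 6) * ci (fun z => w (z ^ 4 ^ m)) r +
        p ^ 2 / 2 * ci (fun z => SS B m z ^ 2 * w (z ^ 4 ^ m)) r := by
    rw [ci_add (u := fun z => (1 - (p * (m * M)) ^ 3 / 6) * w (z ^ 4 ^ m) +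
        p * (SS B m z * w (z ^ 4 ^ m))) (w := fun z => p ^ 2 / 2 * (SS B m z ^ 2 * w (z ^ 4 ^ m)))
        ((continuousOn_const.mul hW).add (continuousOn_const.mul hSW))
        (continuousOn_const.mul hSSW) hr0 hr1,
      ci_add (u := fun z => (1 - (p * (m * M)) ^ 3 / 6) * w (z ^ 4 ^ m))
        (w := fun z => p * (SS B m z * w (z ^ 4 ^ m))) (continuousOn_const.mul hW)
        (continuousOn_const.mul hSW) hr0 hr1,
      ci_mul_left (u := fun z => w (z ^ 4 ^ m)),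
      ci_mul_left (u := fun z => SS B m z * w (z ^ 4 ^ m)),
      ci_mul_left (u := fun z => SS B m z ^ 2 * w (z ^ 4 ^ m)), e1]
    ring
  have mono : ci (fun z => ((1 - (p * (m * M)) ^ 3 / 6) * w (z ^ 4 ^ m) +
      p * (SS B m z * w (z ^ 4 ^ m))) + p ^ 2 / 2 * (SS B m z ^ 2 * w (z ^ 4 ^ m))) r ≤
      ci (fun z => Real.exp (p * SS B m z) * w (z ^ 4 ^ m)) r := by
    refine ci_mono ?_ ?_ hr0 hr1 ?_
    · exact ((continuousOn_const.mul hW).add (continuousOn_const.mul hSW)).add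
        (continuousOn_const.mul hSSW)
    · exact (Real.continuous_exp.comp_continuousOn (continuousOn_const.mul hS)).mul hW
    · intro z hz
      have hz' : z ∈ closedBall (0 : ℂ) 1 := by
        rw [mem_closedBall_zero_iff, hz]
        exact hr1
      have h1 := SS_bound hM m hz'
      have h2 := exp_lower (p * SS B m z)
      have h3 : |p * SS B m z| ^ 3 ≤ (p * (m * M)) ^ 3 := by
        rw [abs_mul, abs_of_pos hp]
        exact pow_le_pow_left₀ (by positivity) (mul_le_mul_of_nonneg_left h1 hp.le) 3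
      have h5 : 1 + p * SS B m z + (p * SS B m z) ^ 2 / 2 - (p * (m * M)) ^ 3 / 6 ≤
          Real.exp (p * SS B m z) := by linarith
      calc ((1 - (p * (m * M)) ^ 3 / 6) * w (z ^ 4 ^ m) +
          p * (SS B m z * w (z ^ 4 ^ m))) + p ^ 2 / 2 * (SS B m z ^ 2 * w (z ^ 4 ^ m))
          = (1 + p * SS B m z + (p * SS B m z) ^ 2 / 2 - (p * (m * M)) ^ 3 / 6) *
            w (z ^ 4 ^ m) := by ring
        _ ≤ _ := mul_le_mul_of_nonneg_right h5 (hw0 _)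
  rw [key] at mono
  refine le_trans ?_ mono
  have h6 : p ^ 2 / 2 * (m * (v + ε) * ci (fun z => w (z ^ 4 ^ m)) r) ≤
      p ^ 2 / 2 * ci (fun z => SS B m z ^ 2 * w (z ^ 4 ^ m)) r :=
    mul_le_mul_of_nonneg_left e2 (by positivity)
  have h7 : (p * (m * M)) ^ 3 / 6 * ci (fun z => w (z ^ 4 ^ m)) r ≤
      p ^ 2 / 2 * (m * ε) * ci (fun z => w (z ^ 4 ^ m)) r := mul_le_mul_of_nonneg_right hK hCW
  calc (1 + p ^ 2 / 2 * (m * v)) * ci (fun z => w (z ^ 4 ^ m)) r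
      = ci (fun z => w (z ^ 4 ^ m)) r - p ^ 2 / 2 * (m * ε) * ci (fun z => w (z ^ 4 ^ m)) r +
        p ^ 2 / 2 * (m * (v + ε) * ci (fun z => w (z ^ 4 ^ m)) r) := by ring
    _ ≤ ci (fun z => w (z ^ 4 ^ m)) r -
        (p * (m * M)) ^ 3 / 6 * ci (fun z => w (z ^ 4 ^ m)) r +
        p ^ 2 / 2 * ci (fun z => SS B m z ^ 2 * w (z ^ 4 ^ m)) r := by linarith
    _ = _ := by ring

/-- Iteration. Induction on `n` for all `r`: `SS (m (n+1)) z = SS m z + SS (m n) (z^(4^m))` (`SS_add`);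
apply `H` to `w z = exp (p SS (m n) z)` and `ci_pow`. -/
theorem iter (S : Sol τ B) {m : ℕ} {ρ₁ a p : ℝ} (ha : 0 ≤ a)
    (H : ∀ r, 0 ≤ r → r ≤ 1 → ρ₁ ≤ r ^ 4 ^ m → ∀ w : ℂ → ℝ, ContinuousOn w (closedBall 0 1) →
      (∀ z, 0 ≤ w z) → a * ci (fun z => w (z ^ 4 ^ m)) r ≤
        ci (fun z => Real.exp (p * SS B m z) * w (z ^ 4 ^ m)) r)
    (n : ℕ) {r : ℝ} (h0 : 0 ≤ r) (h1 : r ≤ 1) (hr : 0 < n → ρ₁ ≤ r ^ 4 ^ (m * n)) :
    a ^ n * (2 * Real.pi) ≤ ci (fun z => Real.exp (p * SS B (m * n) z)) r := by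
  induction n generalizing r with
  | zero =>
    have e : ci (fun z => Real.exp (p * SS B (m * 0) z)) r = ci (fun _ => 1) r :=
      ci_congr h0 fun z _ => by simp [SS]
    rw [e, ci_const, pow_zero]
    exact le_of_eq (by ring)
  | succ n ih =>
    have hw : ContinuousOn (fun z => Real.exp (p * SS B (m * n) z)) (closedBall 0 1) :=
      Real.continuous_exp.comp_continuousOn (continuousOn_const.mul (SS_cont S (m * n)))
    have hr' : ρ₁ ≤ r ^ 4 ^ m := by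
      refine (hr (Nat.succ_pos n)).trans (pow_le_pow_of_le_one h0 h1 ?_)
      exact Nat.pow_le_pow_right (by norm_num) (Nat.le_mul_of_pos_right m (Nat.succ_pos n))
    have h2 := H r h0 h1 hr' (fun z => Real.exp (p * SS B (m * n) z)) hw
      (fun z => (Real.exp_pos _).le)
    have e1 : ci (fun z => Real.exp (p * SS B (m * n) (z ^ 4 ^ m))) r =
        ci (fun z => Real.exp (p * SS B (m * n) z)) (r ^ 4 ^ m) :=
      ci_pow hw h0 h1 (by positivity)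
    have h3 := ih (r := r ^ 4 ^ m) (pow_nonneg h0 _) (pow_le_one₀ h0 h1) (fun _ => by
      rw [← pow_mul, ← pow_add]
      have := hr (Nat.succ_pos n)
      rwa [mul_add, mul_one, add_comm (m * n) m] at this)
    have e2 : ci (fun z => Real.exp (p * SS B (m * (n + 1)) z)) r =
        ci (fun z => Real.exp (p * SS B m z) * Real.exp (p * SS B (m * n) (z ^ 4 ^ m))) r :=
      ci_congr h0 fun z _ => by
        rw [mul_add, mul_one, add_comm (m * n) m, SS_add, mul_add, Real.exp_add]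
    rw [e2]
    refine le_trans ?_ h2
    simp only [e1]
    calc a ^ (n + 1) * (2 * Real.pi) = a * (a ^ n * (2 * Real.pi)) := by ring
      _ ≤ a * ci (fun z => Real.exp (p * SS B (m * n) z)) (r ^ 4 ^ m) :=
        mul_le_mul_of_nonneg_left h3 ha

end Pool.Agent.Helper42.LB
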