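import Pool.Agent.Helper42.LB.Defs

/-!
# LB-A1: the square root `VV`
-/

set_option autoImplicit false

namespace Pool.Agent.Helper42.LB

open Complex Metric

variable {w : ℂ}

theorem one_sub_ne (hw : w ∈ ball (0 : ℂ) 1) : 1 - w ≠ 0 := by
  intro h
  have h1 : w = 1 := (sub_eq_zero.1 h).symm
  rw [h1, mem_ball, dist_zero_right, norm_one] at hw
  exact lt_irrefl _ hw

theorem cay_zero : cay 0 = 1 := by
  unfold cay
  rw [add_zero, sub_zero, div_one]

/-- `Re ((1 + w) / (1 - w)) = (1 - |w|^2) / |1 - w|^2` -/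
theorem cay_re (hw : w ∈ ball (0 : ℂ) 1) : 0 < (cay w).re := by
  have h0 : 0 < normSq (1 - w) := normSq_pos.2 (one_sub_ne hw)
  have h1 : ‖w‖ < 1 := by rwa [mem_ball, dist_zero_right] at hw
  have h2 : normSq w < 1 := by
    rw [normSq_eq_norm_sq]
    nlinarith [norm_nonneg w]
  have h3 : (cay w).re = (1 - normSq w) / normSq (1 - w) := by
    unfold cay
    rw [div_re, ← add_div]
    congr 1
    rw [normSq_apply w]
    simp only [add_re, sub_re, one_re, add_im, sub_im, one_im]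
    ring
  rw [h3]
  exact div_pos (by linarith) h0

/-- If `(1 + v^2)/2` is not in the slit plane, then it is a real number `≤ 0`, `v^2` is a real number
`≤ -1`, so `2 Re v Im v = 0`, `Im v = 0` and `v^2 ≥ 0`: contradiction. (`Complex.mem_slitPlane_iff`.) -/
theorem arg_mem (hw : w ∈ ball (0 : ℂ) 1) : (1 + cay w ^ 2) / 2 ∈ slitPlane := by
  have hv := cay_re hw
  have hre : ((1 + cay w ^ 2) / 2).re = (1 + ((cay w).re ^ 2 - (cay w).im ^ 2)) / 2 := by
    have h2 : (2 : ℂ) = ((2 : ℝ) : ℂ) := by norm_num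
    rw [h2, div_ofReal_re, add_re, one_re, sq, mul_re]
    ring
  have him : ((1 + cay w ^ 2) / 2).im = (cay w).re * (cay w).im := by
    have h2 : (2 : ℂ) = ((2 : ℝ) : ℂ) := by norm_num
    rw [h2, div_ofReal_im, add_im, one_im, sq, mul_im]
    ring
  rw [mem_slitPlane_iff, hre, him]
  by_cases h : (cay w).im = 0
  · left
    rw [h]
    nlinarith [sq_nonneg (cay w).re]
  · right
    exact mul_ne_zero hv.ne' h

/-- `VV w = exp (log x / 2)`, `|Im (log x / 2)| < π / 2`. -/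
theorem VV_re (hw : w ∈ ball (0 : ℂ) 1) : 0 < (VV w).re := by
  have hx := arg_mem hw
  have h1 := Complex.neg_pi_lt_arg ((1 + cay w ^ 2) / 2)
  have h2 : Complex.arg ((1 + cay w ^ 2) / 2) < Real.pi :=
    lt_of_le_of_ne (Complex.arg_le_pi _) (Complex.mem_slitPlane_iff_arg.1 hx).1
  unfold VV
  rw [Complex.exp_re]
  apply mul_pos (Real.exp_pos _)
  have h3 : (log ((1 + cay w ^ 2) / 2) / 2).im = Complex.arg ((1 + cay w ^ 2) / 2) / 2 := by
    rw [Complex.div_ofNat_im, Complex.log_im]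
  rw [h3]
  apply Real.cos_pos_of_mem_Ioo
  constructor
  · linarith
  · linarith

theorem VV_sq (hw : w ∈ ball (0 : ℂ) 1) : VV w ^ 2 = (1 + cay w ^ 2) / 2 := by
  have hx := Complex.slitPlane_ne_zero (arg_mem hw)
  unfold VV
  rw [← Complex.exp_nat_mul]
  have h1 : ((2 : ℕ) : ℂ) * (log ((1 + cay w ^ 2) / 2) / 2) = log ((1 + cay w ^ 2) / 2) := by
    push_cast
    ring
  rw [h1, Complex.exp_log hx]

theorem VV_zero : VV 0 = 1 := by
  unfold VV
  rw [cay_zero]
  norm_num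

theorem hasDerivAt_cay (hw : w ∈ ball (0 : ℂ) 1) : HasDerivAt cay (2 / (1 - w) ^ 2) w := by
  have h1 : HasDerivAt (fun w : ℂ => 1 + w) 1 w := (hasDerivAt_id w).const_add 1
  have h2 : HasDerivAt (fun w : ℂ => 1 - w) (-1) w := (hasDerivAt_id w).const_sub 1
  have h3 := h1.div h2 (one_sub_ne hw)
  have h4 : (1 * (1 - w) - (1 + w) * -1) / (1 - w) ^ 2 = 2 / (1 - w) ^ 2 := by
    congr 1
    ring
  rw [h4] at h3
  exact h3

/-- Chain rule: `VV' = VV * (1/2) * (cay cay') / ((1 + cay^2)/2)`, and `VV_sq`. -/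
theorem hasDerivAt_VV (hw : w ∈ ball (0 : ℂ) 1) :
    HasDerivAt VV (cay w / (VV w * (1 - w) ^ 2)) w := by
  have hx := arg_mem hw
  have hx0 := Complex.slitPlane_ne_zero hx
  have hc := hasDerivAt_cay hw
  have h1 : HasDerivAt (fun w => (1 + cay w ^ 2) / 2) (cay w * (2 / (1 - w) ^ 2)) w := by
    have h := ((hc.pow 2).const_add 1).div_const 2
    have e : ((2 : ℕ) : ℂ) * cay w ^ (2 - 1) * (2 / (1 - w) ^ 2) / 2 =
        cay w * (2 / (1 - w) ^ 2) := by
      push_cast
      rw [pow_one]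
      ring
    rw [e] at h
    exact h
  have h2 := ((h1.clog hx).div_const 2).cexp
  have h3 : VV w ≠ 0 := by
    unfold VV
    exact Complex.exp_ne_zero _
  have h4 : exp (log ((1 + cay w ^ 2) / 2) / 2) * (cay w * (2 / (1 - w) ^ 2) /
      ((1 + cay w ^ 2) / 2) / 2) = cay w / (VV w * (1 - w) ^ 2) := by
    have h5 : exp (log ((1 + cay w ^ 2) / 2) / 2) = VV w := rfl
    rw [h5, ← VV_sq hw]
    have h6 := one_sub_ne hw
    field_simp
  rw [h4] at h2
  exact h2

end Pool.Agent.Helper42.LB
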