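import Pool.Agent.Helper42.LB.Cert

/-!
# LB-E5: the certificate as divisibility of polynomials
-/

set_option autoImplicit false

namespace Pool.Agent.Helper42.LB

open Polynomial

/-- Kronecker substitution. Induction on `K`: if `b^(K+1)` divides `eval b p` then `b` divides
`p.coeff 0` (`p = C (p.coeff 0) + X * p.divX`), `|p.coeff 0| < b`, so it is `0`, `p = X * divX p` and
`b^K` divides `eval b (divX p)`. -/
theorem kron {b : ℤ} (hb : 0 < b) {K : ℕ} {p : ℤ[X]} (hc : ∀ n, |p.coeff n| < b)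
    (h : b ^ K ∣ p.eval b) : X ^ K ∣ p := by
  induction K generalizing p with
  | zero => simp
  | succ K ih =>
    have hp : divX p * X + C (p.coeff 0) = p := divX_mul_X_add p
    have he : (divX p).eval b * b + p.coeff 0 = p.eval b := by
      have h1 := congrArg (fun q : ℤ[X] => q.eval b) hp
      simpa using h1
    have h0 : p.coeff 0 = 0 := by
      have h1 : b ∣ p.coeff 0 := by
        have h2 : b ∣ p.eval b := (dvd_pow_self b (Nat.succ_ne_zero K)).trans h
        rw [← he] at h2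
        exact (dvd_add_right (dvd_mul_left b _)).1 h2
      exact Int.eq_zero_of_abs_lt_dvd h1 (hc 0)
    have h3 : b ^ K ∣ (divX p).eval b := by
      rw [← he, h0, add_zero, pow_succ] at h
      exact (mul_dvd_mul_iff_right hb.ne').1 h
    have h4 : X ^ K ∣ divX p := ih (p := divX p) (fun n => by rw [coeff_divX]; exact hc _) h3
    rw [← hp, h0, C_0, add_zero, pow_succ]
    exact mul_dvd_mul_right h4 X

/-- `A` bounds the sum of the absolute values of the coefficients -/
def Bd (p : ℤ[X]) (A : ℤ) : Prop := ∀ n, ∑ i ∈ Finset.range n, |p.coeff i| ≤ A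

theorem Bd_coeff {p : ℤ[X]} {A : ℤ} (h : Bd p A) (n : ℕ) : |p.coeff n| ≤ A := by
  refine le_trans ?_ (h (n + 1))
  exact Finset.single_le_sum (f := fun i => |p.coeff i|) (fun i _ => abs_nonneg _)
    (Finset.mem_range.2 (Nat.lt_succ_self n))

theorem Bd_toP (l : List ℤ) : Bd (toP l) (nrm l) := by
  induction l with
  | nil =>
    intro n
    simp [toP, nrm]
  | cons a l ih =>
    intro n
    cases n with
    | zero =>
      rw [Finset.range_zero, Finset.sum_empty]
      exact Int.natCast_nonneg _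
    | succ n =>
      rw [Finset.sum_range_succ']
      have h0 : (toP (a :: l)).coeff 0 = a := by simp [toP]
      have h1 : ∀ i, (toP (a :: l)).coeff (i + 1) = (toP l).coeff i := by
        intro i
        rw [toP, coeff_add, coeff_C_succ, zero_add, coeff_X_mul]
      rw [h0, Finset.sum_congr rfl (fun i _ => by rw [h1 i])]
      have h2 := ih n
      have h3 : ((nrm (a :: l) : ℕ) : ℤ) = |a| + (nrm l : ℤ) := by
        rw [nrm, Nat.cast_add, Int.natCast_natAbs]
      rw [h3]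
      linarith

theorem Bd_add {p q : ℤ[X]} {A B : ℤ} (hp : Bd p A) (hq : Bd q B) : Bd (p + q) (A + B) := by
  intro n
  refine le_trans ?_ (add_le_add (hp n) (hq n))
  rw [← Finset.sum_add_distrib]
  refine Finset.sum_le_sum fun i _ => ?_
  rw [coeff_add]
  exact abs_add_le _ _

theorem Bd_sub {p q : ℤ[X]} {A B : ℤ} (hp : Bd p A) (hq : Bd q B) : Bd (p - q) (A + B) := by
  intro n
  refine le_trans ?_ (add_le_add (hp n) (hq n))
  rw [← Finset.sum_add_distrib]
  refine Finset.sum_le_sum fun i _ => ?_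
  rw [coeff_sub]
  exact abs_sub _ _

theorem Bd_C (a : ℤ) : Bd (C a) |a| := by
  intro n
  cases n with
  | zero =>
    rw [Finset.range_zero, Finset.sum_empty]
    exact abs_nonneg a
  | succ n =>
    rw [Finset.sum_range_succ', coeff_C_zero]
    have h1 : ∑ i ∈ Finset.range n, |(C a : ℤ[X]).coeff (i + 1)| = 0 :=
      Finset.sum_eq_zero fun i _ => by rw [coeff_C_succ, abs_zero]
    rw [h1, zero_add]

/-- `∑_{i<n} |∑_{j+k=i} p_j q_k| ≤ (∑_{j<n} |p_j|) (∑_{k<n} |q_k|)` -/
theorem Bd_mul {p q : ℤ[X]} {A B : ℤ} (hp : Bd p A) (hq : Bd q B) : Bd (p * q) (A * B) := by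
  intro n
  have hB : 0 ≤ B := by
    have h := hq 0
    rwa [Finset.range_zero, Finset.sum_empty] at h
  calc ∑ i ∈ Finset.range n, |(p * q).coeff i|
      ≤ ∑ i ∈ Finset.range n, ∑ j ∈ Finset.range (i + 1), |p.coeff j| * |q.coeff (i - j)| := by
        refine Finset.sum_le_sum fun i _ => ?_
        rw [coeff_mul, Finset.Nat.sum_antidiagonal_eq_sum_range_succ_mk]
        refine (Finset.abs_sum_le_sum_abs _ _).trans (Finset.sum_le_sum fun j _ => ?_)
        rw [abs_mul]
    _ = ∑ j ∈ Finset.range n, ∑ i ∈ Finset.Ico j n, |p.coeff j| * |q.coeff (i - j)| := by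
        refine Finset.sum_comm' fun i j => ?_
        simp only [Finset.mem_range, Finset.mem_Ico]
        omega
    _ ≤ ∑ j ∈ Finset.range n, |p.coeff j| * B := by
        refine Finset.sum_le_sum fun j _ => ?_
        rw [← Finset.mul_sum, Finset.sum_Ico_eq_sum_range]
        refine mul_le_mul_of_nonneg_left ?_ (abs_nonneg _)
        simp only [Nat.add_sub_cancel_left]
        exact hq (n - j)
    _ = (∑ j ∈ Finset.range n, |p.coeff j|) * B := by rw [Finset.sum_mul]
    _ ≤ A * B := mul_le_mul_of_nonneg_right (hp n) hB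

theorem eval_toP (l : List ℤ) (x : ℤ) : (toP l).eval x = evZ l x := by
  induction l with
  | nil => exact eval_zero
  | cons a l ih =>
    change (C a + X * toP l).eval x = a + x * evZ l x
    rw [eval_add, eval_C, eval_mul, eval_X, ih]

/-- by induction, for all `k` -/
theorem toP_spr (k : ℤ) (l : List ℤ) :
    toP (spr k l) = C k * (toP l).comp (C 16 * X ^ 4) := by
  induction l generalizing k with
  | nil =>
    change (0 : ℤ[X]) = C k * (0 : ℤ[X]).comp (C 16 * X ^ 4)
    rw [zero_comp, mul_zero]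
  | cons a l ih =>
    change C (a * k) + X * (C 0 + X * (C 0 + X * (C 0 + X * toP (spr (16 * k) l)))) =
      C k * (C a + X * toP l).comp (C 16 * X ^ 4)
    rw [ih, add_comp, mul_comp, C_comp, X_comp, C_0, C_mul, C_mul]
    ring

/-- by induction, for all `k` -/
theorem toP_xder (k : ℤ) (l : List ℤ) :
    toP (xder k l) = C k * toP l + X * derivative (toP l) := by
  induction l generalizing k with
  | nil =>
    change (0 : ℤ[X]) = C k * (0 : ℤ[X]) + X * derivative (0 : ℤ[X])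
    rw [derivative_zero, mul_zero, mul_zero, add_zero]
  | cons a l ih =>
    change C (a * k) + X * toP (xder (k + 1) l) =
      C k * (C a + X * toP l) + X * derivative (C a + X * toP l)
    rw [ih, derivative_add, derivative_mul, derivative_C, derivative_X, C_mul, C_add, C_1]
    ring

theorem toP_take (l : List ℤ) (k : ℕ) : X ^ k ∣ toP l - toP (l.take k) := by
  induction l generalizing k with
  | nil =>
    rw [List.take_nil, sub_self]
    exact dvd_zero _
  | cons a l ih =>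
    cases k with
    | zero =>
      rw [pow_zero]
      exact one_dvd _
    | succ k =>
      obtain ⟨q, hq⟩ := ih k
      refine ⟨q, ?_⟩
      change C a + X * toP l - (C a + X * toP (l.take k)) = X ^ (k + 1) * q
      rw [pow_succ', mul_assoc, ← hq]
      ring

private theorem cert_aux {e K : ℕ} {p : ℤ[X]} {v A : ℤ} (hA : Bd p A) (hlt : A < 2 ^ e)
    (hv : p.eval (2 ^ e) = v) (h : v % 2 ^ (e * K) = 0) : X ^ K ∣ p := by
  refine kron (b := 2 ^ e) (by positivity) (fun n => lt_of_le_of_lt (Bd_coeff hA n) hlt) ?_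
  rw [hv, ← pow_mul]
  exact Int.dvd_of_emod_eq_zero h

private theorem cert_mul {A B : ℤ} {m n : ℕ} (hA : A < 2 ^ m) (hB : B < 2 ^ n) (hA0 : 0 ≤ A)
    (hB0 : 0 ≤ B) : A * B ≤ 2 ^ (m + n) := by
  rw [pow_add]
  exact mul_le_mul hA.le hB.le hB0 (by positivity)

private theorem cert1_gen (r t : List ℤ) (hr : nrm r < 2 ^ 520) (ht : nrm t < 2 ^ 1000)
    (hk : ((evZ r (2 ^ 1100)) ^ 2 - evZ t (2 ^ 1100)) % (2 ^ (1100 * 388)) = 0) :
    X ^ 388 ∣ toP r ^ 2 - toP t := by
  refine cert_aux (e := 1100) (K := 388)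
    (A := (nrm r : ℤ) * (nrm r : ℤ) + (nrm t : ℤ)) ?_ ?_ ?_ hk
  · rw [pow_two]
    exact Bd_sub (Bd_mul (Bd_toP _) (Bd_toP _)) (Bd_toP _)
  · have h1 : ((nrm r : ℕ) : ℤ) < 2 ^ 520 := by exact_mod_cast hr
    have h2 := cert_mul h1 h1 (Nat.cast_nonneg _) (Nat.cast_nonneg _)
    have h3 : ((nrm t : ℕ) : ℤ) < 2 ^ 1000 := by exact_mod_cast ht
    have h4 : (2 : ℤ) ^ (520 + 520) + 2 ^ 1000 < 2 ^ 1100 := by decide +kernel
    exact lt_of_le_of_lt (add_le_add h2 h3.le) h4
  · rw [eval_sub, eval_pow, eval_toP, eval_toP]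

private theorem cert2_gen (r q : List ℤ) (hr : nrm r < 2 ^ 520) (hq : nrm q < 2 ^ 520)
    (hk : ((1 + evZ r (2 ^ 1700)) * (evZ q (2 ^ 1700)) ^ 2 - 2 * evZ r (2 ^ 1700)) %
      (2 ^ (1700 * 386)) = 0) :
    X ^ 386 ∣ (1 + toP r) * toP q ^ 2 - 2 * toP r := by
  refine cert_aux (e := 1700) (K := 386)
    (A := (|1| + (nrm r : ℤ)) * ((nrm q : ℤ) * (nrm q : ℤ)) + |2| * (nrm r : ℤ)) ?_ ?_ ?_ hk
  · rw [pow_two, ← C_1, show (2 : ℤ[X]) = C 2 from rfl]
    exact Bd_sub (Bd_mul (Bd_add (Bd_C 1) (Bd_toP _)) (Bd_mul (Bd_toP _) (Bd_toP _)))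
      (Bd_mul (Bd_C 2) (Bd_toP _))
  · have h2 : ((nrm r : ℕ) : ℤ) < 2 ^ 520 := by exact_mod_cast hr
    have h3 : ((nrm q : ℕ) : ℤ) < 2 ^ 520 := by exact_mod_cast hq
    have h1 := cert_mul h3 h3 (Nat.cast_nonneg _) (Nat.cast_nonneg _)
    have h5 : (1 + (nrm r : ℤ)) * ((nrm q : ℤ) * (nrm q : ℤ)) ≤
        (1 + 2 ^ 520) * 2 ^ (520 + 520) :=
      mul_le_mul (add_le_add le_rfl h2.le) h1
        (mul_nonneg (Nat.cast_nonneg _) (Nat.cast_nonneg _))
        (add_nonneg zero_le_one (pow_nonneg zero_le_two _))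
    have h4 : (1 + 2 ^ 520) * 2 ^ (520 + 520) + 2 * (2 : ℤ) ^ 520 < 2 ^ 1700 := by decide +kernel
    rw [abs_one, abs_two]
    exact lt_of_le_of_lt (add_le_add h5 (mul_le_mul_of_nonneg_left h2.le zero_le_two)) h4
  · rw [eval_sub, eval_mul, eval_add, eval_one, eval_pow, eval_mul, eval_ofNat, eval_toP, eval_toP]

private theorem cert3_gen (q e x : List ℤ) (hq : nrm q < 2 ^ 520) (he : nrm e < 2 ^ 520)
    (hx : nrm x < 2 ^ 530)
    (hk : (evZ x (2 ^ 1100) - 2 * ((1 + evZ q (2 ^ 1100)) * evZ e (2 ^ 1100))) %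
      (2 ^ (1100 * 385)) = 0) :
    X ^ 385 ∣ toP x - 2 * ((1 + toP q) * toP e) := by
  refine cert_aux (e := 1100) (K := 385)
    (A := (nrm x : ℤ) + |2| * ((|1| + (nrm q : ℤ)) * (nrm e : ℤ))) ?_ ?_ ?_ hk
  · rw [← C_1, show (2 : ℤ[X]) = C 2 from rfl]
    exact Bd_sub (Bd_toP _) (Bd_mul (Bd_C 2) (Bd_mul (Bd_add (Bd_C 1) (Bd_toP _)) (Bd_toP _)))
  · have h1 : ((nrm x : ℕ) : ℤ) < 2 ^ 530 := by exact_mod_cast hx
    have h2 : ((nrm q : ℕ) : ℤ) < 2 ^ 520 := by exact_mod_cast hq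
    have h5 : ((nrm e : ℕ) : ℤ) < 2 ^ 520 := by exact_mod_cast he
    have h3 : (1 + (nrm q : ℤ)) * (nrm e : ℤ) ≤ (1 + 2 ^ 520) * 2 ^ 520 :=
      mul_le_mul (add_le_add le_rfl h2.le) h5.le (Nat.cast_nonneg _)
        (add_nonneg zero_le_one (pow_nonneg zero_le_two _))
    have h4 : (2 : ℤ) ^ 530 + 2 * ((1 + 2 ^ 520) * 2 ^ 520) < 2 ^ 1100 := by decide +kernel
    rw [abs_one, abs_two]
    exact lt_of_le_of_lt (add_le_add h1.le (mul_le_mul_of_nonneg_left h3 zero_le_two)) h4
  · rw [eval_sub, eval_mul, eval_mul, eval_add, eval_one, eval_ofNat, eval_toP, eval_toP, eval_toP]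

private theorem cert1_comp (q : List ℤ) (P : ℤ[X]) (k m : ℕ) (hm : m = 4 * k)
    (h : X ^ m ∣ P - toP (spr 1 (q.take k))) :
    X ^ m ∣ P - (toP q).comp (C 16 * X ^ 4) := by
  subst hm
  have h5 : X ^ (4 * k) ∣ (toP q).comp (C 16 * X ^ 4) - toP (spr 1 (q.take k)) := by
    rw [toP_spr, C_1, one_mul, ← sub_comp]
    obtain ⟨t, ht⟩ := toP_take q k
    rw [ht, mul_comp, pow_comp, X_comp, mul_pow, ← pow_mul, mul_comm (C 16 ^ k)]
    exact Dvd.intro _ (by rw [mul_assoc])
  have h6 : P - (toP q).comp (C 16 * X ^ 4) =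
      (P - toP (spr 1 (q.take k))) -
        ((toP q).comp (C 16 * X ^ 4) - toP (spr 1 (q.take k))) := by ring
  rw [h6]
  exact dvd_sub h h5

private theorem cert3_der (q : List ℤ) : X * derivative (toP q) = toP (xder 0 q) := by
  rw [toP_xder, C_0, zero_mul, zero_add]

/-- `kr1`, `kron` with `b = 2^1100`, `Bd_mul`, `Bd_sub`, `nrm_RL`, `nrm_SL`; then `toP_spr`, `toP_take`
with `k = 97` (composed with `16 X^4`). -/
theorem cert1 : X ^ 388 ∣ toP RL ^ 2 - (toP PL).comp (C 16 * X ^ 4) :=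
  cert1_comp PL (toP RL ^ 2) 97 388 rfl (cert1_gen RL (spr 1 (PL.take 97)) nrm_RL nrm_SL kr1)

/-- `kr2`, `kron` with `b = 2^1700` -/
theorem cert2 : X ^ 386 ∣ (1 + toP RL) * toP PL ^ 2 - 2 * toP RL :=
  cert2_gen RL PL nrm_RL nrm_PL kr2

/-- `kr3`, `kron` with `b = 2^1100`, `toP_xder` with `k = 0` -/
theorem cert3 : X ^ 385 ∣ X * derivative (toP PL) - 2 * ((1 + toP PL) * toP EL) := by
  rw [cert3_der]
  exact cert3_gen PL EL (xder 0 PL) nrm_PL nrm_EL nrm_xder kr3

private theorem coeff_PL_getD (l : List ℤ) (n : ℕ) : (toP l).coeff n = l.getD n 0 := by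
  induction l generalizing n with
  | nil => rw [toP, coeff_zero, List.getD_nil]
  | cons a l ih =>
    rw [toP]
    cases n with
    | zero => rw [coeff_add, coeff_C_zero, coeff_X_mul_zero, add_zero, List.getD_cons_zero]
    | succ n => rw [coeff_add, coeff_C_succ, coeff_X_mul, zero_add, List.getD_cons_succ, ih]

/-- `simp [PL, toP]` or `toP_take` and a computation for the first coefficients -/
theorem coeff_PL : (toP PL).coeff 0 = 0 ∧ (toP PL).coeff 1 = 4 := by
  rw [coeff_PL_getD, coeff_PL_getD]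
  decide +kernel

theorem coeff_RL : (toP RL).coeff 0 = 0 ∧ (toP RL).coeff 1 = 0 ∧ (toP RL).coeff 2 = 8 := by
  rw [coeff_PL_getD, coeff_PL_getD, coeff_PL_getD]
  decide +kernel

theorem coeff_EL : (toP EL).coeff 0 = 0 ∧ ∀ n, 385 ≤ n → (toP EL).coeff n = 0 := by
  constructor
  · rw [coeff_PL_getD]
    decide +kernel
  · intro n hn
    rw [coeff_PL_getD]
    exact List.getD_eq_default _ _ (by rw [length_EL]; exact hn)

end Pool.Agent.Helper42.LB
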