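import Pool.Agent.Helper42.LB.Defs

/-!
# LB-D1: integrals over circles
-/

set_option autoImplicit false

namespace Pool.Agent.Helper42.LB

open Complex Metric Set

variable {u w : ℂ → ℝ} {r : ℝ}

theorem pt_pow (r θ : ℝ) (n : ℕ) : pt r θ ^ n = pt (r ^ n) (n * θ) := by
  unfold pt
  rw [mul_pow, ← exp_nat_mul]
  push_cast
  rw [mul_assoc]

theorem pt_mul (r s θ φ : ℝ) : pt r θ * pt s φ = pt (r * s) (θ + φ) := by
  unfold pt
  push_cast
  rw [add_mul, exp_add]
  ring

theorem norm_pt (h0 : 0 ≤ r) (θ : ℝ) : ‖pt r θ‖ = r := by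
  unfold pt
  rw [norm_mul, norm_exp_ofReal_mul_I, mul_one, norm_real, Real.norm_eq_abs, abs_of_nonneg h0]

theorem pt_mem (h0 : 0 ≤ r) (h1 : r ≤ 1) (θ : ℝ) : pt r θ ∈ closedBall (0 : ℂ) 1 := by
  rw [mem_closedBall_zero_iff, norm_pt h0]
  exact h1

theorem pt_periodic (r : ℝ) : Function.Periodic (pt r) (2 * Real.pi) := by
  intro θ
  unfold pt
  push_cast
  rw [add_mul, exp_add, exp_two_pi_mul_I, mul_one]

theorem pt_cont : Continuous (fun p : ℝ × ℝ => pt p.1 p.2) := by
  unfold pt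
  fun_prop

theorem comp_pt_cont (hu : ContinuousOn u (closedBall 0 1)) (h0 : 0 ≤ r) (h1 : r ≤ 1) :
    Continuous (fun θ : ℝ => u (pt r θ)) := by
  have h2 : Continuous (fun θ : ℝ => pt r θ) :=
    pt_cont.comp (by fun_prop : Continuous fun θ : ℝ => (r, θ))
  exact hu.comp_continuous h2 (fun θ => pt_mem h0 h1 θ)

theorem comp_pow_cont (hu : ContinuousOn u (closedBall 0 1)) (N : ℕ) :
    ContinuousOn (fun z => u (z ^ N)) (closedBall 0 1) := by
  refine hu.comp (continuous_pow N).continuousOn (fun z hz => ?_)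
  rw [mem_closedBall_zero_iff] at hz ⊢
  rw [norm_pow]
  exact pow_le_one₀ (norm_nonneg z) hz

theorem ci_add (hu : ContinuousOn u (closedBall 0 1)) (hw : ContinuousOn w (closedBall 0 1))
    (h0 : 0 ≤ r) (h1 : r ≤ 1) : ci (fun z => u z + w z) r = ci u r + ci w r := by
  unfold ci
  exact intervalIntegral.integral_add ((comp_pt_cont hu h0 h1).intervalIntegrable _ _)
    ((comp_pt_cont hw h0 h1).intervalIntegrable _ _)

theorem ci_mul_left (a : ℝ) : ci (fun z => a * u z) r = a * ci u r := by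
  unfold ci
  exact intervalIntegral.integral_const_mul _ _

theorem ci_sum {s : ℕ → ℂ → ℝ} (n : ℕ) (hs : ∀ i, ContinuousOn (s i) (closedBall 0 1))
    (h0 : 0 ≤ r) (h1 : r ≤ 1) :
    ci (fun z => ∑ i ∈ Finset.range n, s i z) r = ∑ i ∈ Finset.range n, ci (s i) r := by
  unfold ci
  exact intervalIntegral.integral_finsetSum
    (fun i _ => (comp_pt_cont (hs i) h0 h1).intervalIntegrable _ _)

theorem ci_mono (hu : ContinuousOn u (closedBall 0 1)) (hw : ContinuousOn w (closedBall 0 1))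
    (h0 : 0 ≤ r) (h1 : r ≤ 1) (h : ∀ z : ℂ, ‖z‖ = r → u z ≤ w z) : ci u r ≤ ci w r := by
  unfold ci
  exact intervalIntegral.integral_mono Real.two_pi_pos.le
    ((comp_pt_cont hu h0 h1).intervalIntegrable _ _)
    ((comp_pt_cont hw h0 h1).intervalIntegrable _ _) (fun θ => h _ (norm_pt h0 θ))

theorem ci_congr (h0 : 0 ≤ r) (h : ∀ z : ℂ, ‖z‖ = r → u z = w z) : ci u r = ci w r := by
  unfold ci
  exact intervalIntegral.integral_congr (fun θ _ => h _ (norm_pt h0 θ))

theorem ci_const (a : ℝ) : ci (fun _ => a) r = 2 * Real.pi * a := by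
  unfold ci
  rw [intervalIntegral.integral_const, sub_zero, smul_eq_mul]

/-- periodicity (`Function.Periodic.intervalIntegral_add_eq`) -/
theorem ci_rot (u : ℂ → ℝ) (r α : ℝ) : ci (fun z => u (pt 1 α * z)) r = ci u r := by
  unfold ci
  have h1 : ∀ θ : ℝ, u (pt 1 α * pt r θ) = (fun t => u (pt r t)) (α + θ) := by
    intro θ
    rw [pt_mul, one_mul]
  have h2 : Function.Periodic (fun t => u (pt r t)) (2 * Real.pi) := by
    intro t
    show u (pt r (t + 2 * Real.pi)) = u (pt r t)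
    rw [pt_periodic r t]
  simp only [h1]
  rw [intervalIntegral.integral_comp_add_left (fun t => u (pt r t)) α, add_zero,
    h2.intervalIntegral_add_eq α 0, zero_add]

/-- `∫₀^{2π} u (r^N exp (i N θ)) dθ = N⁻¹ ∫₀^{2πN} u (r^N exp (i t)) dt`, and periodicity
(`Function.Periodic.intervalIntegral_add_zsmul_eq` or induction on `N`). -/
theorem ci_pow (hu : ContinuousOn u (closedBall 0 1)) (h0 : 0 ≤ r) (h1 : r ≤ 1) {N : ℕ}
    (hN : 0 < N) : ci (fun z => u (z ^ N)) r = ci u (r ^ N) := by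
  unfold ci
  have hN' : (N : ℝ) ≠ 0 := by exact_mod_cast hN.ne'
  have h2 : ∀ θ : ℝ, u (pt r θ ^ N) = (fun t => u (pt (r ^ N) t)) ((N : ℝ) * θ) := by
    intro θ
    rw [pt_pow]
  have h3 : Function.Periodic (fun t => u (pt (r ^ N) t)) (2 * Real.pi) := by
    intro t
    show u (pt (r ^ N) (t + 2 * Real.pi)) = u (pt (r ^ N) t)
    rw [pt_periodic (r ^ N) t]
  have h4 : Continuous (fun t => u (pt (r ^ N) t)) :=
    comp_pt_cont hu (pow_nonneg h0 N) (pow_le_one₀ h0 h1)
  have h5 := h3.intervalIntegral_add_zsmul_eq (N : ℤ) 0 (fun a b => h4.intervalIntegrable a b)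
  have h6 : (0 : ℝ) + (N : ℤ) • (2 * Real.pi) = N * (2 * Real.pi) := by
    rw [zero_add, zsmul_eq_mul, Int.cast_natCast]
  rw [h6] at h5
  simp only [h2]
  rw [intervalIntegral.integral_comp_mul_left (fun t => u (pt (r ^ N) t)) hN', mul_zero, h5,
    zsmul_eq_mul, Int.cast_natCast, zero_add, smul_eq_mul, inv_mul_cancel_left₀ hN']

end Pool.Agent.Helper42.LB
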