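import Mathlib

/-!
# Project LB (MP_433f59_an): definitions

`Phi` is the slit map of the unit disc with `Phi / (1 - Phi)^2 = (1/2) w / (1 - w)^2`. For `0 < τ < 1`
there is a function `f z = z exp (B z)`, continuous in the closed unit disc and injective in the open
disc, with `f z ^ 4 = τ Phi (f (z ^ 4))` (`Sol`). `Q z = z f' z / f z` is the product of the
`exp (LL (f (z ^ 4 ^ j)))`, `j ≥ 1`, where `exp (LL w) = w Phi' w / Phi w`. The integral means of
`|Q|^p` grow with the exponent `S p^2 / (4 log 4)`, where `S` is the sum of the squares of the Taylor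
coefficients of `LL (f z)`. As `τ → 1` these tend to numbers computed in `Cert`.
-/

set_option autoImplicit false

namespace Pool.Agent.Helper42.LB

open Complex Metric

/-- `v = (1 + w) / (1 - w)` -/
noncomputable def cay (w : ℂ) : ℂ := (1 + w) / (1 - w)

/-- the square root of `(1 + v ^ 2) / 2` in the right half plane -/
noncomputable def VV (w : ℂ) : ℂ := exp (log ((1 + cay w ^ 2) / 2) / 2)

/-- the slit map -/
noncomputable def Phi (w : ℂ) : ℂ := (VV w - 1) / (VV w + 1)

/-- logarithm of `Phi w / w` -/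
noncomputable def AA (w : ℂ) : ℂ := 2 * log (cay w + 1) - 2 * log (VV w + 1) - log 2

/-- logarithm of `w Phi' w / Phi w` -/
noncomputable def LL (w : ℂ) : ℂ := log (cay w) - log (VV w)

/-- the finite approximations: logarithm of `f_n z / z` -/
noncomputable def fB (τ : ℝ) : ℕ → ℂ → ℂ
  | 0, _ => ((Real.log (τ / 2) / 3 : ℝ) : ℂ)
  | n + 1, z => (fB τ n (z ^ 4) + (Real.log τ : ℝ) + AA (z ^ 4 * exp (fB τ n (z ^ 4)))) / 4

/-- the finite approximations `f_n` -/
noncomputable def ff (τ : ℝ) (n : ℕ) (z : ℂ) : ℂ := z * exp (fB τ n z)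

/-- the function with logarithm `B` of `f z / z` -/
noncomputable def fn (B : ℂ → ℂ) (z : ℂ) : ℂ := z * exp (B z)

/-- `B` solves the functional equation with the parameter `τ` -/
structure Sol (τ : ℝ) (B : ℂ → ℂ) : Prop where
  cont : ContinuousOn B (closedBall 0 1)
  diff : DifferentiableOn ℂ B (ball 0 1)
  lt : ∀ z ∈ closedBall (0 : ℂ) 1, ‖fn B z‖ < 1
  eq : ∀ z ∈ closedBall (0 : ℂ) 1, 4 * B z = B (z ^ 4) + (Real.log τ : ℝ) + AA (fn B (z ^ 4))

/-- the slit map in the logarithmic coordinate of the upper half plane -/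
noncomputable def gg (z : ℂ) : ℂ := z - I * AA (exp (I * z))

/-- `Q z = z f' z / f z` -/
noncomputable def QQ (B : ℂ → ℂ) (z : ℂ) : ℂ := 1 + z * deriv B z

/-- `log |G (f z)|` -/
noncomputable def ps (B : ℂ → ℂ) (z : ℂ) : ℝ := (LL (fn B z)).re

/-- the sums along the orbit of `z ↦ z ^ 4` -/
noncomputable def SS (B : ℂ → ℂ) (n : ℕ) (z : ℂ) : ℝ := ∑ j ∈ Finset.range n, ps B (z ^ 4 ^ j)

/-- the point `r exp (i θ)` -/
noncomputable def pt (r θ : ℝ) : ℂ := r * exp (θ * I)

/-- integral over the circle of radius `r` -/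
noncomputable def ci (u : ℂ → ℝ) (r : ℝ) : ℝ := ∫ θ in (0 : ℝ)..2 * Real.pi, u (pt r θ)

/-- Fourier coefficient on the unit circle -/
noncomputable def coef (h : ℂ → ℂ) (n : ℕ) : ℂ :=
  (2 * Real.pi : ℝ)⁻¹ * ∫ θ in (0 : ℝ)..2 * Real.pi, h (pt 1 θ) * exp (-(n * θ * I))

/-- the number `2^(-1/3)` -/
noncomputable def rho : ℝ := Real.exp (Real.log (1 / 2) / 3)

/-- `2 f / (1 + f ^ 2)` for `f = f_m`, `τ = 1` -/
noncomputable def gm (m : ℕ) (z : ℂ) : ℂ := 2 * ff 1 m z / (1 + ff 1 m z ^ 2)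

/-- `2 f ^ 2 / (1 + f ^ 4)` for `f = f_m`, `τ = 1` -/
noncomputable def Rm (m : ℕ) (z : ℂ) : ℂ := 2 * ff 1 m z ^ 2 / (1 + ff 1 m z ^ 4)

/-! ### polynomials as lists of integers -/

/-- value of the polynomial with the given list of coefficients -/
def evZ : List ℤ → ℤ → ℤ
  | [], _ => 0
  | a :: l, x => a + x * evZ l x

/-- sum of the absolute values of the coefficients -/
def nrm : List ℤ → ℕ
  | [] => 0
  | a :: l => a.natAbs + nrm l

/-- `l (16 x ^ 4)`; `k` is the power of `16` of the head -/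
def spr (k : ℤ) : List ℤ → List ℤ
  | [] => []
  | a :: l => (a * k) :: 0 :: 0 :: 0 :: spr (16 * k) l

/-- the polynomial with the given list of coefficients -/
noncomputable def toP : List ℤ → Polynomial ℤ
  | [] => 0
  | a :: l => Polynomial.C a + Polynomial.X * toP l

/-- lower bound for `10^12 (a / (n 2^n))^2 2^(-2n/3)`, `n = k` for the head -/
def lowS (k : ℕ) : List ℤ → ℕ
  | [] => 0
  | a :: l => a.natAbs ^ 2 * 1000 * (if k % 3 = 0 then 1000000000 else if k % 3 = 1 then 629960524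
      else 396850262) / (k ^ 2 * 4 ^ (k + k / 3)) + lowS (k + 1) l

end Pool.Agent.Helper42.LB
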