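import Pool.Agent.Helper42.LB.Phi

/-!
# LB-B3: the finite approximations
-/

set_option autoImplicit false

namespace Pool.Agent.Helper42.LB

open Complex Metric Set

variable {τ : ℝ}

theorem pow_mem {z : ℂ} (hz : z ∈ closedBall (0 : ℂ) 1) (k : ℕ) : z ^ k ∈ closedBall (0 : ℂ) 1 := by
  rw [mem_closedBall_zero_iff] at hz ⊢
  rw [norm_pow]
  exact pow_le_one₀ (norm_nonneg z) hz

/-- If `‖ff τ n (z^4)‖ < 1` then `ff τ (n+1) z ^ 4 = τ Phi (ff τ n (z^4))` (`Phi_eq`,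
`exp (log τ) = τ`). -/
theorem ff_pow (h0 : 0 < τ) (n : ℕ) {z : ℂ} (hz : ff τ n (z ^ 4) ∈ ball (0 : ℂ) 1) :
    ff τ (n + 1) z ^ 4 = τ * Phi (ff τ n (z ^ 4)) := by
  have h1 := Phi_eq hz
  have h2 : exp ((Real.log τ : ℝ) : ℂ) = (τ : ℂ) := by
    rw [← ofReal_exp, Real.exp_log h0]
  have h3 : ff τ n (z ^ 4) = z ^ 4 * exp (fB τ n (z ^ 4)) := rfl
  have h4 : fB τ (n + 1) z =
      (fB τ n (z ^ 4) + (Real.log τ : ℝ) + AA (z ^ 4 * exp (fB τ n (z ^ 4)))) / 4 := rfl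
  have h5 : ff τ (n + 1) z = z * exp (fB τ (n + 1) z) := rfl
  rw [h1, h5, mul_pow, ← exp_nat_mul, h4]
  have h6 : ((4 : ℕ) : ℂ) * ((fB τ n (z ^ 4) + (Real.log τ : ℝ) +
      AA (z ^ 4 * exp (fB τ n (z ^ 4)))) / 4) =
      fB τ n (z ^ 4) + (Real.log τ : ℝ) + AA (z ^ 4 * exp (fB τ n (z ^ 4))) := by
    push_cast
    ring
  rw [h6, exp_add, exp_add, h2, ← h3]
  rw [h3]
  ring

/-- Induction: `‖ff τ 0 z‖ = (τ/2)^(1/3) ‖z‖ < 1`; then `ff_pow` and `Phi_mem`. -/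
theorem ff_lt (h0 : 0 < τ) (h1 : τ ≤ 1) (n : ℕ) {z : ℂ} (hz : z ∈ closedBall (0 : ℂ) 1) :
    ff τ n z ∈ ball (0 : ℂ) 1 := by
  induction n generalizing z with
  | zero =>
    rw [mem_closedBall_zero_iff] at hz
    rw [mem_ball_zero_iff]
    change ‖z * exp (((Real.log (τ / 2) / 3 : ℝ) : ℂ))‖ < 1
    rw [norm_mul, norm_exp, ofReal_re]
    have h2 : Real.log (τ / 2) < 0 := Real.log_neg (by linarith) (by linarith)
    have h3 : Real.exp (Real.log (τ / 2) / 3) < 1 := by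
      rw [← Real.exp_zero]
      exact Real.exp_lt_exp.mpr (by linarith)
    have h4 : 0 < Real.exp (Real.log (τ / 2) / 3) := Real.exp_pos _
    nlinarith [norm_nonneg z]
  | succ n ih =>
    have hb := ih (pow_mem hz 4)
    have h2 := ff_pow h0 n hb
    have h3 := Phi_mem hb
    rw [mem_ball_zero_iff] at h3 ⊢
    have h4 : ‖ff τ (n + 1) z‖ ^ 4 < 1 := by
      rw [← norm_pow, h2, norm_mul, norm_real, Real.norm_eq_abs, abs_of_pos h0]
      nlinarith [norm_nonneg (Phi (ff τ n (z ^ 4)))]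
    exact lt_of_pow_lt_pow_left₀ 4 zero_le_one (by rw [one_pow]; exact h4)

theorem ff_pow_le (h0 : 0 < τ) (h1 : τ ≤ 1) (n : ℕ) {z : ℂ} (hz : z ∈ closedBall (0 : ℂ) 1) :
    ‖ff τ (n + 1) z‖ ^ 4 ≤ τ := by
  have hb := ff_lt h0 h1 n (pow_mem hz 4)
  have h2 := ff_pow h0 n hb
  have h3 := Phi_mem hb
  rw [mem_ball_zero_iff] at h3
  rw [← norm_pow, h2, norm_mul, norm_real, Real.norm_eq_abs, abs_of_pos h0]
  nlinarith [norm_nonneg (Phi (ff τ n (z ^ 4)))]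

/-- Induction on `n` with `AA_bound`: `C = max ‖fB τ 0 0‖ ((|log τ| + C_A) / 3)`. -/
theorem fB_bound (h0 : 0 < τ) (h1 : τ ≤ 1) : ∃ C : ℝ, 0 < C ∧ ∀ n, ∀ z ∈ closedBall (0 : ℂ) 1,
    ‖fB τ n z‖ ≤ C := by
  obtain ⟨CA, hCA, hA⟩ := AA_bound
  refine ⟨max ‖fB τ 0 0‖ ((|Real.log τ| + CA) / 3), lt_max_of_lt_right ?_, ?_⟩
  · have := abs_nonneg (Real.log τ)
    linarith
  · intro n
    induction n with
    | zero =>
      intro z _
      exact le_max_left _ _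
    | succ n ih =>
      intro z hz
      have hb := ff_lt h0 h1 n (pow_mem hz 4)
      have h2 := ih (z ^ 4) (pow_mem hz 4)
      have h3 := hA _ hb
      have h4 := le_max_right ‖fB τ 0 0‖ ((|Real.log τ| + CA) / 3)
      change ‖(fB τ n (z ^ 4) + (Real.log τ : ℝ) + AA (ff τ n (z ^ 4))) / 4‖ ≤ _
      have h5 : ‖(4 : ℂ)‖ = 4 := by norm_num
      rw [norm_div, h5, div_le_iff₀ (by norm_num)]
      refine (norm_add_le _ _).trans ?_
      refine (add_le_add_left (norm_add_le _ _) _).trans ?_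
      rw [norm_real, Real.norm_eq_abs]
      linarith

/-- Induction: `fB τ (n+1) 0 = (fB τ n 0 + log τ - log 2) / 4` (`AA_zero`). -/
theorem fB_zero (h0 : 0 < τ) (n : ℕ) : fB τ n 0 = ((Real.log (τ / 2) / 3 : ℝ) : ℂ) := by
  have h2 : (log 2 : ℂ) = ((Real.log 2 : ℝ) : ℂ) := by
    rw [ofReal_log (by norm_num)]
    norm_num
  induction n with
  | zero => rfl
  | succ n ih =>
    change (fB τ n (0 ^ 4) + (Real.log τ : ℝ) + AA (0 ^ 4 * exp (fB τ n (0 ^ 4)))) / 4 = _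
    have h3 : (0 : ℂ) ^ 4 = 0 := by norm_num
    rw [h3, ih, zero_mul, AA_zero, h2, Real.log_div h0.ne' (by norm_num)]
    push_cast
    ring

end Pool.Agent.Helper42.LB
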