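import Pool.Agent.Helper42.LB.Cir

/-!
# LB-E1, E2, E3: Fourier coefficients
-/

set_option autoImplicit false

namespace Pool.Agent.Helper42.LB

open Complex Metric Set Filter Topology Asymptotics

variable {h : ℂ → ℂ}

private theorem h11_pt_cm (θ : ℝ) : pt 1 θ = circleMap 0 1 θ := by
  simp [pt, circleMap]

private theorem h11_cont (hc : ContinuousOn h (closedBall 0 1)) :
    Continuous (fun θ : ℝ => h (pt 1 θ)) := by
  have h1 : Continuous (fun θ : ℝ => pt 1 θ) := by unfold pt; fun_prop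
  refine hc.comp_continuous h1 (fun θ => ?_)
  rw [h11_pt_cm]
  exact sphere_subset_closedBall (circleMap_mem_sphere 0 zero_le_one θ)

/-- Mean value property on the closed disc for `h^2` (`Complex.circleIntegral_sub_inv_smul_of_differentiable_on_off_countable`
or `circleAverage_of_differentiable_on`, continuous on the closed disc is enough): `∫ h (exp (iθ))^2 dθ = 0`.
Its real part is `∫ (re h)^2 - (im h)^2`, and `‖h‖^2 = (re h)^2 + (im h)^2`. -/
theorem var_half (hc : ContinuousOn h (closedBall 0 1)) (hd : DifferentiableOn ℂ h (ball 0 1))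
    (h0 : h 0 = 0) : ci (fun z => (h z).re ^ 2) 1 = 1 / 2 * ci (fun z => ‖h z‖ ^ 2) 1 := by
  have hcl : DiffContOnCl ℂ (fun z => h z ^ 2) (ball 0 |(1 : ℝ)|) := by
    have h1 : DiffContOnCl ℂ h (ball 0 |(1 : ℝ)|) := by
      rw [abs_one]
      refine ⟨hd, ?_⟩
      rw [closure_ball (0 : ℂ) one_ne_zero]
      exact hc
    exact ⟨h1.1.pow 2, h1.2.pow 2⟩
  have hmv := hcl.circleAverage
  have hint : ∫ θ in (0 : ℝ)..2 * Real.pi, h (pt 1 θ) ^ 2 = 0 := by
    rw [Real.circleAverage_def] at hmv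
    have h2 : (2 * Real.pi)⁻¹ ≠ 0 := by positivity
    have h3 : ∫ θ in (0 : ℝ)..2 * Real.pi, h (circleMap 0 1 θ) ^ 2 = 0 := by
      have h4 : (2 * Real.pi)⁻¹ • (∫ θ in (0 : ℝ)..2 * Real.pi, h (circleMap 0 1 θ) ^ 2) = 0 := by
        rw [hmv, h0]; simp
      exact (smul_eq_zero.1 h4).resolve_left h2
    simpa only [h11_pt_cm] using h3
  have hcont := h11_cont hc
  have hre : ∫ θ in (0 : ℝ)..2 * Real.pi, (h (pt 1 θ) ^ 2).re = 0 := by
    have := intervalIntegral.intervalIntegral_re (μ := MeasureTheory.volume)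
      (f := fun θ : ℝ => h (pt 1 θ) ^ 2) (a := 0) (b := 2 * Real.pi)
      ((hcont.pow 2).intervalIntegrable _ _)
    simpa [hint] using this
  unfold ci
  have hci : Continuous (fun θ : ℝ => ‖h (pt 1 θ)‖ ^ 2) := hcont.norm.pow 2
  have hcr : Continuous (fun θ : ℝ => (h (pt 1 θ) ^ 2).re) := Complex.continuous_re.comp (hcont.pow 2)
  have e : ∀ θ : ℝ, (h (pt 1 θ)).re ^ 2 = 1 / 2 * (‖h (pt 1 θ)‖ ^ 2 + (h (pt 1 θ) ^ 2).re) := by
    intro θ
    rw [Complex.sq_norm, Complex.normSq_apply, pow_two (h (pt 1 θ)), Complex.mul_re]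
    ring
  simp_rw [e]
  rw [intervalIntegral.integral_const_mul, intervalIntegral.integral_add
    (hci.intervalIntegrable _ _) (hcr.intervalIntegrable _ _), hre, add_zero]

/-- `∫₀^{2π} exp (i k θ) dθ = 0` for an integer `k ≠ 0` -/
theorem int_exp {k : ℤ} (hk : k ≠ 0) : ∫ θ in (0 : ℝ)..2 * Real.pi, exp (k * θ * I) = 0 := by
  have hc : (k : ℂ) * I ≠ 0 := mul_ne_zero (Int.cast_ne_zero.2 hk) I_ne_zero
  have h1 := integral_exp_mul_complex (a := 0) (b := 2 * Real.pi) hc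
  have h2 : (fun θ : ℝ => exp (k * θ * I)) = fun θ : ℝ => exp ((k : ℂ) * I * θ) := by
    funext θ
    congr 1
    ring
  have h3 : exp ((k : ℂ) * I * ((2 * Real.pi : ℝ) : ℂ)) = 1 := by
    have h4 : (k : ℂ) * I * ((2 * Real.pi : ℝ) : ℂ) = k * (2 * Real.pi * I) := by
      push_cast
      ring
    rw [h4, exp_int_mul_two_pi_mul_I]
  rw [h2, h1, h3, Complex.ofReal_zero, mul_zero, Complex.exp_zero, sub_self, zero_div]

private theorem LBE2_cont (n : ℕ) : Continuous fun θ : ℝ => exp (n * θ * I) := by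
  fun_prop

private theorem LBE2_cont' (n : ℕ) : Continuous fun θ : ℝ => exp (-(n * θ * I)) := by
  fun_prop

private theorem LBE2_pt (G c : ℂ) (n : ℕ) (θ : ℝ) : ‖G - c * exp (n * θ * I)‖ ^ 2 =
    ‖G‖ ^ 2 - 2 * ((starRingEnd ℂ) c * (G * exp (-(n * θ * I)))).re + ‖c‖ ^ 2 := by
  have h1 : ‖exp (n * θ * I)‖ = 1 := by
    have h2 : ((n : ℂ) * θ * I) = ((n * θ : ℝ) : ℂ) * I := by
      push_cast
      ring
    rw [h2, norm_exp_ofReal_mul_I]
  have h3 : exp (-(n * θ * I)) = (starRingEnd ℂ) (exp (n * θ * I)) := by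
    rw [← exp_conj]
    congr 1
    simp [Complex.conj_ofReal]
  rw [h3, ← Complex.normSq_eq_norm_sq, Complex.normSq_sub, Complex.normSq_eq_norm_sq,
    Complex.normSq_eq_norm_sq, norm_mul, h1, map_mul]
  have h4 : G * ((starRingEnd ℂ) c * (starRingEnd ℂ) (exp (n * θ * I))) =
      (starRingEnd ℂ) c * (G * (starRingEnd ℂ) (exp (n * θ * I))) := by ring
  rw [h4]
  ring

private theorem LBE2_step (G : ℝ → ℂ) (hG : Continuous G) (c : ℂ) (n : ℕ)
    (hc : ∫ θ in (0 : ℝ)..2 * Real.pi, G θ * exp (-(n * θ * I)) = (2 * Real.pi : ℝ) * c) :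
    ∫ θ in (0 : ℝ)..2 * Real.pi, ‖G θ - c * exp (n * θ * I)‖ ^ 2 =
      (∫ θ in (0 : ℝ)..2 * Real.pi, ‖G θ‖ ^ 2) - 2 * Real.pi * ‖c‖ ^ 2 := by
  have h1 : Continuous fun θ : ℝ => G θ * exp (-(n * θ * I)) := hG.mul (LBE2_cont' n)
  have h2 : Continuous fun θ : ℝ => (starRingEnd ℂ) c * (G θ * exp (-(n * θ * I))) :=
    continuous_const.mul h1
  have h3 : Continuous fun θ : ℝ =>
      2 * ((starRingEnd ℂ) c * (G θ * exp (-(n * θ * I)))).re :=
    continuous_const.mul (Complex.continuous_re.comp h2)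
  have h4 : Continuous fun θ : ℝ => ‖G θ‖ ^ 2 := hG.norm.pow 2
  have h5 : ∫ θ in (0 : ℝ)..2 * Real.pi, ((starRingEnd ℂ) c * (G θ * exp (-(n * θ * I)))).re =
      2 * Real.pi * ‖c‖ ^ 2 := by
    have h6 := Complex.reCLM.intervalIntegral_comp_comm
      (h2.intervalIntegrable (μ := MeasureTheory.volume) 0 (2 * Real.pi))
    have h7 : ∫ θ in (0 : ℝ)..2 * Real.pi,
        ((starRingEnd ℂ) c * (G θ * exp (-(n * θ * I)))).re =
        (∫ θ in (0 : ℝ)..2 * Real.pi, (starRingEnd ℂ) c * (G θ * exp (-(n * θ * I)))).re := h6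
    rw [h7, intervalIntegral.integral_const_mul, hc]
    have h8 : (starRingEnd ℂ) c * (((2 * Real.pi : ℝ) : ℂ) * c) =
        ((2 * Real.pi * ‖c‖ ^ 2 : ℝ) : ℂ) := by
      have h9 : (starRingEnd ℂ) c * c = ((‖c‖ ^ 2 : ℝ) : ℂ) := by
        rw [mul_comm, Complex.mul_conj, Complex.normSq_eq_norm_sq]
      rw [Complex.ofReal_mul (2 * Real.pi) (‖c‖ ^ 2), ← h9]
      ring
    rw [h8, Complex.ofReal_re]
  have h10 : (fun θ : ℝ => ‖G θ - c * exp (n * θ * I)‖ ^ 2) = fun θ : ℝ =>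
      (‖G θ‖ ^ 2 - 2 * ((starRingEnd ℂ) c * (G θ * exp (-(n * θ * I)))).re) + ‖c‖ ^ 2 :=
    funext fun θ => LBE2_pt (G θ) c n θ
  have h11 : Continuous fun θ : ℝ =>
      ‖G θ‖ ^ 2 - 2 * ((starRingEnd ℂ) c * (G θ * exp (-(n * θ * I)))).re := h4.sub h3
  have h12 : Continuous fun _ : ℝ => ‖c‖ ^ 2 := continuous_const
  rw [h10, intervalIntegral.integral_add (h11.intervalIntegrable _ _)
    (h12.intervalIntegrable _ _), intervalIntegral.integral_sub
    (h4.intervalIntegrable _ _) (h3.intervalIntegrable _ _), intervalIntegral.integral_const_mul,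
    h5, intervalIntegral.integral_const]
  simp only [smul_eq_mul]
  ring

private theorem LBE2_orth {m n : ℕ} (hmn : m ≠ n) (c : ℂ) :
    ∫ θ in (0 : ℝ)..2 * Real.pi, c * exp (m * θ * I) * exp (-(n * θ * I)) = 0 := by
  have h1 : (fun θ : ℝ => c * exp (m * θ * I) * exp (-(n * θ * I))) =
      fun θ : ℝ => c * exp (((m - n : ℤ) : ℂ) * θ * I) := by
    funext θ
    rw [mul_assoc, ← Complex.exp_add]
    congr 2
    push_cast
    ring
  have h2 : (m - n : ℤ) ≠ 0 := by
    omega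
  rw [h1, intervalIntegral.integral_const_mul, int_exp h2, mul_zero]

private theorem LBE2_sum (F : ℝ → ℂ) (hF : Continuous F) (c : ℕ → ℂ)
    (hc : ∀ n : ℕ, ∫ θ in (0 : ℝ)..2 * Real.pi, F θ * exp (-(n * θ * I)) =
      (2 * Real.pi : ℝ) * c n) (N : ℕ) :
    Continuous (fun θ : ℝ => F θ - ∑ n ∈ Finset.range N, c n * exp (n * θ * I)) ∧
    (∀ n, N ≤ n → ∫ θ in (0 : ℝ)..2 * Real.pi,
      (F θ - ∑ j ∈ Finset.range N, c j * exp (j * θ * I)) * exp (-(n * θ * I)) =
      (2 * Real.pi : ℝ) * c n) ∧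
    ∫ θ in (0 : ℝ)..2 * Real.pi, ‖F θ - ∑ n ∈ Finset.range N, c n * exp (n * θ * I)‖ ^ 2 =
      (∫ θ in (0 : ℝ)..2 * Real.pi, ‖F θ‖ ^ 2) -
        2 * Real.pi * ∑ n ∈ Finset.range N, ‖c n‖ ^ 2 := by
  induction N with
  | zero =>
    refine ⟨by simpa using hF, fun n _ => ?_, ?_⟩
    · simpa using hc n
    · simp
  | succ N ih =>
    obtain ⟨i1, i2, i3⟩ := ih
    have h1 : ∀ θ : ℝ, F θ - ∑ n ∈ Finset.range (N + 1), c n * exp (n * θ * I) =
        (F θ - ∑ n ∈ Finset.range N, c n * exp (n * θ * I)) - c N * exp (N * θ * I) := by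
      intro θ
      rw [Finset.sum_range_succ]
      ring
    have h2 : Continuous fun θ : ℝ => c N * exp (N * θ * I) :=
      continuous_const.mul (LBE2_cont N)
    refine ⟨?_, fun n hn => ?_, ?_⟩
    · simp only [h1]
      exact i1.sub h2
    · simp only [h1, sub_mul _ (c N * _)]
      have h3 : Continuous fun θ : ℝ =>
          (F θ - ∑ j ∈ Finset.range N, c j * exp (j * θ * I)) * exp (-(n * θ * I)) :=
        i1.mul (LBE2_cont' n)
      have h4 : Continuous fun θ : ℝ => c N * exp (N * θ * I) * exp (-(n * θ * I)) :=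
        h2.mul (LBE2_cont' n)
      rw [intervalIntegral.integral_sub (h3.intervalIntegrable _ _)
        (h4.intervalIntegrable _ _), i2 n (by omega), LBE2_orth (by omega), sub_zero]
    · simp only [h1]
      rw [LBE2_step _ i1 (c N) N (i2 N le_rfl), i3, Finset.sum_range_succ]
      ring

/-- Bessel's inequality: expand `0 ≤ ∫ ‖h - ∑_{n<N} c_n exp (i n θ)‖^2`, `c_n = coef h n`, with
`int_exp`. -/
theorem bessel (hc : ContinuousOn h (closedBall 0 1)) (N : ℕ) :
    ∑ n ∈ Finset.range N, ‖coef h n‖ ^ 2 ≤ (2 * Real.pi)⁻¹ * ci (fun z => ‖h z‖ ^ 2) 1 := by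
  have hpi : (0 : ℝ) < 2 * Real.pi := by positivity
  have hF : Continuous fun θ : ℝ => h (pt 1 θ) := by
    refine hc.comp_continuous ?_ fun θ => pt_mem zero_le_one le_rfl θ
    exact pt_cont.comp (continuous_const.prodMk continuous_id)
  have h1 : ∀ n : ℕ, ∫ θ in (0 : ℝ)..2 * Real.pi, h (pt 1 θ) * exp (-(n * θ * I)) =
      (2 * Real.pi : ℝ) * coef h n := by
    intro n
    rw [coef, ← mul_assoc, Complex.ofReal_inv, mul_inv_cancel₀, one_mul]
    exact Complex.ofReal_ne_zero.2 hpi.ne'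
  have h2 := (LBE2_sum _ hF (coef h) h1 N).2.2
  have h3 : 0 ≤ ∫ θ in (0 : ℝ)..2 * Real.pi,
      ‖h (pt 1 θ) - ∑ n ∈ Finset.range N, coef h n * exp (n * θ * I)‖ ^ 2 :=
    intervalIntegral.integral_nonneg hpi.le fun θ _ => by positivity
  have h4 : 2 * Real.pi * ∑ n ∈ Finset.range N, ‖coef h n‖ ^ 2 ≤
      ci (fun z => ‖h z‖ ^ 2) 1 := by
    rw [ci]
    linarith
  rw [inv_mul_eq_div, le_div_iff₀ hpi, mul_comm]
  exact h4

private lemma e3a_int {h : ℂ → ℂ} (h1 : ContinuousOn h (closedBall 0 1)) (n : ℕ) :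
    IntervalIntegrable (fun θ : ℝ => h (pt 1 θ) * exp (-(n * θ * I))) MeasureTheory.volume 0
      (2 * Real.pi) := by
  have hp : Continuous fun θ : ℝ => pt 1 θ := by
    unfold pt
    fun_prop
  have hm : ∀ θ : ℝ, pt 1 θ ∈ closedBall (0 : ℂ) 1 := by
    intro θ
    rw [mem_closedBall_zero_iff]
    unfold pt
    rw [norm_mul, norm_exp_ofReal_mul_I]
    simp
  have hc : Continuous fun θ : ℝ => h (pt 1 θ) := h1.comp_continuous hp hm
  have he : Continuous fun θ : ℝ => exp (-(n * θ * I)) := by fun_prop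
  exact (hc.mul he).intervalIntegrable _ _

theorem coef_sub {h₁ h₂ : ℂ → ℂ} (h1 : ContinuousOn h₁ (closedBall 0 1))
    (h2 : ContinuousOn h₂ (closedBall 0 1)) (n : ℕ) :
    coef (fun z => h₁ z - h₂ z) n = coef h₁ n - coef h₂ n := by
  unfold coef
  rw [← mul_sub, ← intervalIntegral.integral_sub (e3a_int h1 n) (e3a_int h2 n)]
  congr 1
  refine intervalIntegral.integral_congr fun θ _ => ?_
  simp only [sub_mul]

theorem coef_poly (a : ℕ → ℂ) (K : ℕ) {n : ℕ} (hn : n < K) :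
    coef (fun z => ∑ k ∈ Finset.range K, a k * z ^ k) n = a n := by
  unfold coef
  have h1 : ∀ θ : ℝ, (∑ k ∈ Finset.range K, a k * pt 1 θ ^ k) * exp (-(n * θ * I)) =
      ∑ k ∈ Finset.range K, a k * exp ((((k : ℤ) - (n : ℤ) : ℤ) : ℂ) * θ * I) := by
    intro θ
    rw [Finset.sum_mul]
    refine Finset.sum_congr rfl fun k _ => ?_
    unfold pt
    rw [ofReal_one, one_mul, ← exp_nat_mul, mul_assoc, ← exp_add]
    congr 2
    push_cast
    ring
  simp only [h1]
  rw [intervalIntegral.integral_finsetSum]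
  · rw [Finset.sum_eq_single n]
    · rw [intervalIntegral.integral_const_mul]
      have h2 : ∀ θ : ℝ, exp ((((n : ℤ) - (n : ℤ) : ℤ) : ℂ) * θ * I) = 1 := by
        intro θ
        rw [sub_self, Int.cast_zero, zero_mul, zero_mul, exp_zero]
      simp only [h2]
      rw [intervalIntegral.integral_const, sub_zero]
      have h3 : ((2 * Real.pi : ℝ) : ℂ) ≠ 0 := by
        exact_mod_cast Real.two_pi_pos.ne'
      rw [real_smul, mul_one, ofReal_inv, mul_comm (a n), ← mul_assoc, inv_mul_cancel₀ h3, one_mul]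
    · intro k _ hk
      rw [intervalIntegral.integral_const_mul, int_exp (by
        intro h
        apply hk
        omega), mul_zero]
    · intro h
      exact absurd (Finset.mem_range.2 hn) h
  · intro k _
    apply Continuous.intervalIntegrable
    fun_prop

private theorem four_ci (n : ℕ) {R : ℝ} (hR : 0 < R) :
    (∮ z in C((0 : ℂ), R), (z - 0)⁻¹ • (h z / z ^ n)) * (R : ℂ) ^ n =
      I * ∫ θ in (0 : ℝ)..2 * Real.pi, h (pt R θ) * exp (-(n * θ * I)) := by
  rw [circleIntegral, ← intervalIntegral.integral_mul_const,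
    ← intervalIntegral.integral_const_mul]
  refine intervalIntegral.integral_congr fun θ _ => ?_
  have h1 : circleMap 0 R θ = pt R θ := by simp [circleMap, pt]
  have hR' : (R : ℂ) ≠ 0 := by exact_mod_cast hR.ne'
  have h2 : pt R θ ≠ 0 := mul_ne_zero hR' (exp_ne_zero _)
  have e1 : pt R θ ^ n = (R : ℂ) ^ n * exp (n * θ * I) := by
    unfold pt
    rw [mul_pow, ← exp_nat_mul, mul_assoc]
  have e2 : exp (-(n * θ * I)) = (exp (n * θ * I))⁻¹ := exp_neg _
  have e3 : exp (n * θ * I) ≠ 0 := exp_ne_zero _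
  simp only [deriv_circleMap, smul_eq_mul, h1, sub_zero]
  rw [e1, e2]
  field_simp

/-- `h (z) / z ^ n` on the annulus `r ≤ |z| ≤ 1`
(`Complex.circleIntegral_sub_center_inv_smul_eq_of_differentiable_on_annulus_off_countable`; the
integral `circleIntegral` over the unit circle of `z⁻¹ • (h z / z^n)` is `2 π i coef h n`). -/
theorem coef_eq_small (hc : ContinuousOn h (closedBall 0 1)) (hd : DifferentiableOn ℂ h (ball 0 1))
    (n : ℕ) {r : ℝ} (h0 : 0 < r) (h1 : r ≤ 1) : coef h n * r ^ n =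
      (2 * Real.pi : ℝ)⁻¹ * ∫ θ in (0 : ℝ)..2 * Real.pi, h (pt r θ) * exp (-(n * θ * I)) := by
  have hA : (∮ z in C((0 : ℂ), 1), (z - 0)⁻¹ • (h z / z ^ n)) =
      ∮ z in C((0 : ℂ), r), (z - 0)⁻¹ • (h z / z ^ n) := by
    refine Complex.circleIntegral_sub_center_inv_smul_eq_of_differentiable_on_annulus_off_countable
      h0 h1 (s := ∅) Set.countable_empty ?_ ?_
    · refine ContinuousOn.div (hc.mono Set.sdiff_subset) (continuousOn_id.pow n) fun z hz => ?_
      refine pow_ne_zero n fun hz0 => hz.2 ?_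
      rw [show z = 0 from hz0]
      exact mem_ball_self h0
    · intro z hz
      have hz1 : z ∈ ball (0 : ℂ) 1 := hz.1.1
      have hz0 : z ≠ 0 := by
        rintro rfl
        exact hz.1.2 (mem_closedBall_self h0.le)
      exact (hd.differentiableAt (isOpen_ball.mem_nhds hz1)).div (differentiableAt_id.pow n)
        (pow_ne_zero n hz0)
  have e1 := four_ci (h := h) n one_pos
  have e2 := four_ci (h := h) n h0
  rw [hA, Complex.ofReal_one, one_pow, mul_one] at e1
  rw [e1, mul_assoc] at e2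
  have e3 := mul_left_cancel₀ I_ne_zero e2
  rw [coef, mul_assoc, e3]

/-- `coef_eq_small` and `‖h z‖ ≤ C |z|^K` for small `z`: `|coef h n| ≤ C r^(K - n)` for small `r`. -/
theorem coef_eq_zero (hc : ContinuousOn h (closedBall 0 1)) (hd : DifferentiableOn ℂ h (ball 0 1))
    {K n : ℕ} (hO : h =O[𝓝 0] (fun z : ℂ => z ^ K)) (hn : n < K) : coef h n = 0 := by
  obtain ⟨C, hC0, hC⟩ := hO.exists_pos
  obtain ⟨δ, hδ0, hδ⟩ := Metric.eventually_nhds_iff.1 hC.bound
  have key : ∀ r : ℝ, 0 < r → r < δ → r ≤ 1 → ‖coef h n‖ ≤ C * r := by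
    intro r hr hrδ hr1
    have h1 := coef_eq_small hc hd n hr hr1
    have h2 : ‖∫ θ in (0 : ℝ)..2 * Real.pi, h (pt r θ) * exp (-(n * θ * I))‖ ≤
        C * r ^ K * |2 * Real.pi - 0| := by
      refine intervalIntegral.norm_integral_le_of_norm_le_const fun θ _ => ?_
      have h3 : ‖pt r θ‖ = r := norm_pt hr.le θ
      have h4 : ‖h (pt r θ)‖ ≤ C * ‖(pt r θ) ^ K‖ := by
        refine hδ ?_
        rw [dist_zero_right, h3]
        exact hrδ
      have h5 : ‖exp (-(n * θ * I))‖ = 1 := by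
        have h6 : (-(n * θ * I) : ℂ) = ((-(n * θ) : ℝ) : ℂ) * I := by push_cast; ring
        rw [h6, norm_exp_ofReal_mul_I]
      rw [norm_mul, h5, mul_one]
      rwa [norm_pow, h3] at h4
    have h7 : |2 * Real.pi - 0| = 2 * Real.pi := by
      rw [sub_zero, abs_of_pos Real.two_pi_pos]
    rw [h7] at h2
    have h8 : ‖coef h n‖ * r ^ n ≤ C * r ^ K := by
      have h9 := congrArg (fun x : ℂ => ‖x‖) h1
      simp only [norm_mul, norm_pow, Complex.norm_real, Real.norm_eq_abs] at h9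
      rw [abs_of_pos hr, abs_of_pos (inv_pos.2 Real.two_pi_pos)] at h9
      rw [h9]
      calc (2 * Real.pi)⁻¹ * ‖∫ θ in (0 : ℝ)..2 * Real.pi, h (pt r θ) * exp (-(n * θ * I))‖
          ≤ (2 * Real.pi)⁻¹ * (C * r ^ K * (2 * Real.pi)) :=
            mul_le_mul_of_nonneg_left h2 (inv_pos.2 Real.two_pi_pos).le
        _ = C * r ^ K := by
            have := Real.two_pi_pos.ne'
            field_simp
    have h10 : r ^ K ≤ r * r ^ n := by
      rw [← pow_succ']
      exact pow_le_pow_of_le_one hr.le hr1 hn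
    have h11 : ‖coef h n‖ * r ^ n ≤ C * r * r ^ n := by
      rw [mul_assoc]
      exact h8.trans (mul_le_mul_of_nonneg_left h10 hC0.le)
    exact le_of_mul_le_mul_right h11 (pow_pos hr n)
  have hlim : Tendsto (fun r : ℝ => C * r) (𝓝[>] 0) (𝓝 0) := by
    have h1 : Tendsto (fun r : ℝ => C * r) (𝓝 0) (𝓝 (C * 0)) := tendsto_id.const_mul C
    rw [mul_zero] at h1
    exact h1.mono_left nhdsWithin_le_nhds
  have hev : ∀ᶠ r : ℝ in 𝓝[>] 0, ‖coef h n‖ ≤ C * r := by
    filter_upwards [Ioo_mem_nhdsGT (lt_min hδ0 one_pos)] with r hr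
    exact key r hr.1 (hr.2.trans_le (min_le_left _ _)) (hr.2.trans_le (min_le_right _ _)).le
  exact norm_le_zero_iff.1 (ge_of_tendsto hlim hev)

theorem coef_of_O (hc : ContinuousOn h (closedBall 0 1)) (hd : DifferentiableOn ℂ h (ball 0 1))
    (a : ℕ → ℂ) {K n : ℕ}
    (hO : (fun z => h z - ∑ k ∈ Finset.range K, a k * z ^ k) =O[𝓝 0] (fun z : ℂ => z ^ K))
    (hn : n < K) : coef h n = a n := by
  have hP : Differentiable ℂ (fun z : ℂ => ∑ k ∈ Finset.range K, a k * z ^ k) := by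
    fun_prop
  have h1 : coef (fun z => h z - ∑ k ∈ Finset.range K, a k * z ^ k) n = 0 :=
    coef_eq_zero (hc.sub hP.continuous.continuousOn) (hd.sub hP.differentiableOn) hO hn
  rw [coef_sub hc hP.continuous.continuousOn n, coef_poly a K hn, sub_eq_zero] at h1
  exact h1

end Pool.Agent.Helper42.LB
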