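import Pool.Agent.Helper42.LB.Fin1
import Pool.Agent.Helper42.LB.Ell

/-!
# LB-C1, C2, C3: the function `fn B`
-/

set_option autoImplicit false

namespace Pool.Agent.Helper42.LB

open Complex Metric Set

variable {τ : ℝ} {B : ℂ → ℂ}

theorem fn_cont (S : Sol τ B) : ContinuousOn (fn B) (closedBall 0 1) :=
  continuousOn_id.mul S.cont.cexp

theorem fn_diff (S : Sol τ B) : DifferentiableOn ℂ (fn B) (ball 0 1) :=
  differentiableOn_id.mul S.diff.cexp

theorem fn_mem (S : Sol τ B) {z : ℂ} (hz : z ∈ closedBall (0 : ℂ) 1) : fn B z ∈ ball (0 : ℂ) 1 :=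
  mem_ball_zero_iff.2 (S.lt z hz)

theorem fn_zero : fn B 0 = 0 := by
  unfold fn
  rw [zero_mul]

theorem B_zero (h0 : 0 < τ) (S : Sol τ B) : B 0 = ((Real.log (τ / 2) / 3 : ℝ) : ℂ) := by
  have h := S.eq 0 (mem_closedBall_self zero_le_one)
  rw [zero_pow (by norm_num), fn_zero, AA_zero] at h
  have h2 : (Complex.log 2 : ℂ) = ((Real.log 2 : ℝ) : ℂ) := by
    rw [Complex.ofReal_log (by norm_num)]
    norm_num
  have h3 : Real.log (τ / 2) = Real.log τ - Real.log 2 := Real.log_div h0.ne' (by norm_num)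
  rw [h3]
  push_cast
  rw [h2] at h
  linear_combination h / 3

theorem fn_pow (h0 : 0 < τ) (S : Sol τ B) {z : ℂ} (hz : z ∈ closedBall (0 : ℂ) 1) :
    fn B z ^ 4 = τ * Phi (fn B (z ^ 4)) := by
  have h1 : exp ((Real.log τ : ℝ) : ℂ) = τ := by
    rw [← Complex.ofReal_exp, Real.exp_log h0]
  rw [Phi_eq (fn_mem S (pow_mem hz 4))]
  have h2 : exp (4 * B z) = exp (B (z ^ 4)) * τ * exp (AA (fn B (z ^ 4))) := by
    rw [S.eq z hz, Complex.exp_add, Complex.exp_add, h1]
  have h3 : exp (B z) ^ 4 = exp (4 * B z) := by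
    rw [← Complex.exp_nat_mul]
    norm_num
  calc fn B z ^ 4 = z ^ 4 * exp (B z) ^ 4 := by unfold fn; ring
    _ = z ^ 4 * (exp (B (z ^ 4)) * τ * exp (AA (fn B (z ^ 4)))) := by rw [h3, h2]
    _ = τ * ((z ^ 4 * exp (B (z ^ 4))) * exp (AA (fn B (z ^ 4)))) := by ring
    _ = τ * (fn B (z ^ 4) * exp (AA (fn B (z ^ 4)))) := rfl

/-- `4 B z` depends only on `z^4` -/
theorem fn_I (S : Sol τ B) {z : ℂ} (hz : z ∈ closedBall (0 : ℂ) 1) :
    fn B (I * z) = I * fn B z := by
  have h1 : (I * z) ^ 4 = z ^ 4 := by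
    rw [mul_pow, Complex.I_pow_four, one_mul]
  have hz' : I * z ∈ closedBall (0 : ℂ) 1 := by
    rw [mem_closedBall_zero_iff] at hz ⊢
    rwa [norm_mul, Complex.norm_I, one_mul]
  have h2 := S.eq (I * z) hz'
  rw [h1, ← S.eq z hz] at h2
  have h3 : B (I * z) = B z := mul_left_cancel₀ (by norm_num) h2
  unfold fn
  rw [h3]
  ring

theorem ps_cont (S : Sol τ B) : ContinuousOn (ps B) (closedBall 0 1) := by
  have h1 : ContinuousOn (fun z => LL (fn B z)) (closedBall 0 1) :=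
    diff_LL.continuousOn.comp (fn_cont S) fun z hz => fn_mem S hz
  exact Complex.continuous_re.comp_continuousOn h1

/-- `fn_I` and `LL_sum` -/
theorem ps_sum (S : Sol τ B) {z : ℂ} (hz : z ∈ closedBall (0 : ℂ) 1) :
    ps B z + ps B (I * z) + ps B (-z) + ps B (-(I * z)) = 0 := by
  have hz' : ‖z‖ ≤ 1 := by simpa using hz
  have h1 : I * z ∈ closedBall (0 : ℂ) 1 := by simpa using hz'
  have h2 : -z ∈ closedBall (0 : ℂ) 1 := by simpa using hz'
  have e1 : fn B (I * z) = I * fn B z := fn_I S hz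
  have e2 : fn B (-z) = -fn B z := by
    have h3 := fn_I S h1
    have h4 : I * (I * z) = -z := by rw [← mul_assoc, I_mul_I]; ring
    rw [h4, e1, ← mul_assoc, I_mul_I] at h3
    rw [h3]; ring
  have e3 : fn B (-(I * z)) = -(I * fn B z) := by
    have h3 := fn_I S h2
    have h4 : I * -z = -(I * z) := by ring
    rw [h4, e2] at h3
    rw [h3]; ring
  unfold ps
  rw [e1, e2, e3]
  exact LL_sum (fn_mem S hz)

theorem LLfn_cont (S : Sol τ B) : ContinuousOn (fun z => LL (fn B z)) (closedBall 0 1) :=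
  diff_LL.continuousOn.comp (fn_cont S) fun _ hz => fn_mem S hz

theorem LLfn_diff (S : Sol τ B) : DifferentiableOn ℂ (fun z => LL (fn B z)) (ball 0 1) :=
  diff_LL.comp (fn_diff S) fun _ hz => fn_mem S (ball_subset_closedBall hz)

/-- Injectivity. Let `fn B a = fn B b`. By `fn_pow` and `Phi_inj`, `fn B (a^4) = fn B (b^4)`, so
`fn B (a^(4^n)) = fn B (b^(4^n))` for all `n`. `fn B` is injective near `0` (derivative
`exp (B 0) ≠ 0`; e.g. `HasStrictDerivAt.eventually_left_inverse` or the inverse function theorem), so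
`a^(4^n) = b^(4^n)` for some `n`. Take the smallest such `n`; if `n > 0` let `c = a^(4^(n-1))`,
`d = b^(4^(n-1))`, `c^4 = d^4`, so `d = ω c` with `ω^4 = 1` (if `c = 0` then `d = 0`), and
`fn B c = fn B d = ω fn B c` by `fn_I`, `fn B c ≠ 0` for `c ≠ 0`, so `ω = 1`, `c = d`: contradiction. -/
theorem fn_inj (h0 : 0 < τ) (S : Sol τ B) : InjOn (fn B) (ball 0 1) := by
  have hcl : ∀ {z : ℂ}, z ∈ ball (0 : ℂ) 1 → z ∈ closedBall (0 : ℂ) 1 :=
    fun h => ball_subset_closedBall h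
  have hpow : ∀ {z : ℂ} (n : ℕ), z ∈ ball (0 : ℂ) 1 → z ^ 4 ^ n ∈ ball (0 : ℂ) 1 := by
    intro z n hz
    rw [mem_ball_zero_iff] at hz ⊢
    rw [norm_pow]
    exact pow_lt_one₀ (norm_nonneg z) hz (by positivity)
  have hτ : (τ : ℂ) ≠ 0 := by exact_mod_cast h0.ne'
  -- first step
  have hA : ∀ a ∈ ball (0 : ℂ) 1, ∀ b ∈ ball (0 : ℂ) 1, fn B a = fn B b →
      fn B (a ^ 4) = fn B (b ^ 4) := by
    intro a ha b hb hab
    have h1 := fn_pow h0 S (hcl ha)
    have h2 := fn_pow h0 S (hcl hb)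
    rw [hab, h2] at h1
    have h3 := mul_left_cancel₀ hτ h1
    exact (Phi_inj (fn_mem S (hcl (by simpa using hpow 1 hb)))
      (fn_mem S (hcl (by simpa using hpow 1 ha))) h3).symm
  -- injectivity near the origin
  have hB : ∀ᶠ q in (nhds (0 : ℂ)) ×ˢ (nhds (0 : ℂ)), fn B q.1 = fn B q.2 → q.1 = q.2 := by
    have han : AnalyticAt ℂ (fn B) 0 :=
      (fn_diff S).analyticAt (isOpen_ball.mem_nhds (mem_ball_self one_pos))
    have hd : deriv (fn B) 0 ≠ 0 := by
      have hBd : DifferentiableAt ℂ B 0 :=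
        (S.diff 0 (mem_ball_self one_pos)).differentiableAt
          (isOpen_ball.mem_nhds (mem_ball_self one_pos))
      have h1 : HasDerivAt (fn B) (1 * exp (B 0) + 0 * (exp (B 0) * deriv B 0)) 0 :=
        (hasDerivAt_id (0 : ℂ)).mul hBd.hasDerivAt.cexp
      rw [h1.deriv, one_mul, zero_mul, add_zero]
      exact exp_ne_zero _
    have hs : HasStrictDerivAt (fn B) (deriv (fn B) 0) 0 := han.hasStrictDerivAt
    have h2 := hs.eventually_left_inverse hd
    filter_upwards [h2.prod_mk h2] with q hq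
    intro hxy
    rw [← hq.1, hxy, hq.2]
  -- the rotations
  have hD : ∀ c ∈ ball (0 : ℂ) 1, ∀ d ∈ ball (0 : ℂ) 1, fn B c = fn B d → c ^ 4 = d ^ 4 →
      c = d := by
    intro c hc d _ hcd h4
    by_cases hc0 : c = 0
    · rw [hc0] at h4 ⊢
      have : d ^ 4 = 0 := by rw [← h4]; ring
      exact (pow_eq_zero_iff (by norm_num)).1 this |>.symm
    have hf : fn B c ≠ 0 := mul_ne_zero hc0 (exp_ne_zero _)
    have hIc : I * c ∈ closedBall (0 : ℂ) 1 := by
      have := hcl hc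
      rw [mem_closedBall_zero_iff] at this ⊢
      simpa using this
    have hIIc : I * (I * c) ∈ closedBall (0 : ℂ) 1 := by
      have := hIc
      rw [mem_closedBall_zero_iff] at this ⊢
      simpa using this
    have r1 := fn_I S (hcl hc)
    have r2 := fn_I S hIc
    have r3 := fn_I S hIIc
    rw [r2, r1] at r3
    rw [r1] at r2
    have hI2 : I * I = (-1 : ℂ) := I_mul_I
    have hfac : (d - c) * ((d + c) * ((d - I * c) * (d + I * c))) = 0 := by
      have h5 : (d - I * c) * (d + I * c) = d ^ 2 + c ^ 2 := by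
        linear_combination (-c ^ 2) * hI2
      rw [h5]
      linear_combination -h4
    rcases mul_eq_zero.1 hfac with h | h
    · exact (sub_eq_zero.1 h).symm
    rcases mul_eq_zero.1 h with h | h
    · exfalso
      have hd : d = I * (I * c) := by linear_combination h - c * hI2
      rw [hd, r2] at hcd
      apply hf
      have h6 : 2 * fn B c = 0 := by linear_combination hcd + fn B c * hI2
      simpa using h6
    rcases mul_eq_zero.1 h with h | h
    · exfalso
      have hd : d = I * c := sub_eq_zero.1 h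
      rw [hd, r1] at hcd
      apply hf
      have h6 : 2 * fn B c = 0 := by linear_combination (1 + I) * hcd + fn B c * hI2
      simpa using h6
    · exfalso
      have hd : d = I * (I * (I * c)) := by linear_combination h - (I * c) * hI2
      rw [hd, r3] at hcd
      apply hf
      have h6 : 2 * fn B c = 0 := by
        linear_combination (1 - I) * hcd + (fn B c * (1 - I * I + I) ) * hI2
      simpa using h6
  intro a ha b hb hab
  have hn : ∀ n : ℕ, fn B (a ^ 4 ^ n) = fn B (b ^ 4 ^ n) := by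
    intro n
    induction n with
    | zero => simpa using hab
    | succ n ih =>
      have h := hA _ (hpow n ha) _ (hpow n hb) ih
      rwa [← pow_mul, ← pow_mul, ← pow_succ] at h
  have ht : ∀ {z : ℂ}, z ∈ ball (0 : ℂ) 1 →
      Filter.Tendsto (fun n : ℕ => z ^ 4 ^ n) Filter.atTop (nhds 0) := by
    intro z hz
    rw [mem_ball_zero_iff] at hz
    exact (tendsto_pow_atTop_nhds_zero_of_norm_lt_one hz).comp
      (tendsto_pow_atTop_atTop_of_one_lt (by norm_num : (1 : ℕ) < 4))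
  have hex : ∃ n : ℕ, a ^ 4 ^ n = b ^ 4 ^ n := by
    obtain ⟨n, hn'⟩ := (((ht ha).prodMk (ht hb)).eventually hB).exists
    exact ⟨n, hn' (hn n)⟩
  obtain ⟨n, hn'⟩ := hex
  induction n with
  | zero => simpa using hn'
  | succ n ih =>
    apply ih
    apply hD _ (hpow n ha) _ (hpow n hb) (hn n)
    rwa [← pow_mul, ← pow_mul, ← pow_succ]

private theorem C3_has (S : Sol τ B) {z : ℂ} (hz : z ∈ ball (0 : ℂ) 1) :
    HasDerivAt (fn B) (exp (B z) * QQ B z) z := by
  have h1 : HasDerivAt B (deriv B z) z :=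
    ((S.diff z hz).differentiableAt (isOpen_ball.mem_nhds hz)).hasDerivAt
  have h2 := (hasDerivAt_id z).mul h1.cexp
  have h3 : exp (B z) * QQ B z = 1 * exp (B z) + id z * (exp (B z) * deriv B z) := by
    unfold QQ
    simp only [id]
    ring
  rw [h3]
  exact h2

theorem deriv_fn (S : Sol τ B) {z : ℂ} (hz : z ∈ ball (0 : ℂ) 1) :
    deriv (fn B) z = exp (B z) * QQ B z :=
  (C3_has S hz).deriv

private theorem C3_pow_mem {z : ℂ} (hz : z ∈ ball (0 : ℂ) 1) (k : ℕ) (hk : k ≠ 0) :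
    z ^ k ∈ ball (0 : ℂ) 1 := by
  rw [mem_ball_zero_iff] at hz ⊢
  rw [norm_pow]
  exact pow_lt_one₀ (norm_nonneg z) hz hk

private theorem C3_zero : QQ B 0 = 1 := by
  unfold QQ
  rw [zero_mul, add_zero]


/-- Differentiate `fn_pow`: `4 f^3 f' = τ Phi' (f (z^4)) f' (z^4) 4 z^3`; multiply with `z` and use
`w Phi' w = Phi w exp (LL w)` (`hasDerivAt_Phi`, `exp_LL`) for `w = f (z^4)`, `z f' = f Q` (`deriv_fn`), and
divide by `4 f^4 ≠ 0` for `z ≠ 0`; for `z = 0` both sides are `1`. -/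
theorem QQ_eq (h0 : 0 < τ) (S : Sol τ B) {z : ℂ} (hz : z ∈ ball (0 : ℂ) 1) :
    QQ B z = exp (LL (fn B (z ^ 4))) * QQ B (z ^ 4) := by
  have hz4 : z ^ 4 ∈ ball (0 : ℂ) 1 := C3_pow_mem hz 4 (by norm_num)
  by_cases hz0 : z = 0
  · subst hz0
    rw [show (0 : ℂ) ^ 4 = 0 by norm_num, fn_zero, LL_zero, exp_zero, one_mul]
  have hw : fn B (z ^ 4) ∈ ball (0 : ℂ) 1 := fn_mem S (ball_subset_closedBall hz4)
  obtain ⟨d, hd, hd2⟩ := hasDerivAt_Phi hw
  have e1 : HasDerivAt (fun x => fn B x ^ 4) (4 * fn B z ^ 3 * (exp (B z) * QQ B z)) z := by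
    have h1 := (C3_has S hz).fun_pow 4
    simpa using h1
  have e2 : HasDerivAt (fun x => (τ : ℂ) * Phi (fn B (x ^ 4)))
      (τ * (d * (exp (B (z ^ 4)) * QQ B (z ^ 4) * (4 * z ^ 3)))) z := by
    have h1 : HasDerivAt (fun x : ℂ => x ^ 4) (4 * z ^ 3) z := by
      have := hasDerivAt_pow 4 z
      simpa using this
    have h2 : HasDerivAt (fun x : ℂ => fn B (x ^ 4))
        (exp (B (z ^ 4)) * QQ B (z ^ 4) * (4 * z ^ 3)) z :=
      HasDerivAt.comp (h₂ := fn B) (h := fun x : ℂ => x ^ 4) z (C3_has S hz4) h1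
    have h3 : HasDerivAt (fun x : ℂ => Phi (fn B (x ^ 4)))
        (d * (exp (B (z ^ 4)) * QQ B (z ^ 4) * (4 * z ^ 3))) z :=
      HasDerivAt.comp (h₂ := Phi) (h := fun x : ℂ => fn B (x ^ 4)) z hd h2
    exact h3.const_mul (τ : ℂ)
  have e3 : (fun x => fn B x ^ 4) =ᶠ[nhds z] fun x => (τ : ℂ) * Phi (fn B (x ^ 4)) := by
    filter_upwards [isOpen_ball.mem_nhds hz] with x hx
    exact fn_pow h0 S (ball_subset_closedBall hx)
  have e4 := e1.unique (e2.congr_of_eventuallyEq e3)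
  have e5 := fn_pow h0 S (ball_subset_closedBall hz)
  have e6 : fn B z ≠ 0 := mul_ne_zero hz0 (exp_ne_zero _)
  rw [← exp_LL hw] at hd2
  have e7 : 4 * fn B z ^ 4 * QQ B z =
      4 * fn B z ^ 4 * (exp (LL (fn B (z ^ 4))) * QQ B (z ^ 4)) := by
    calc 4 * fn B z ^ 4 * QQ B z = z * (4 * fn B z ^ 3 * (exp (B z) * QQ B z)) := by
          have h1 : fn B z = z * exp (B z) := rfl
          have h2 : fn B z ^ 4 = fn B z ^ 3 * (z * exp (B z)) := by
            rw [← h1]
            ring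
          rw [h2]
          ring
      _ = z * (τ * (d * (exp (B (z ^ 4)) * QQ B (z ^ 4) * (4 * z ^ 3)))) := by rw [e4]
      _ = 4 * τ * (z ^ 4 * exp (B (z ^ 4)) * d) * QQ B (z ^ 4) := by ring
      _ = 4 * τ * (fn B (z ^ 4) * d) * QQ B (z ^ 4) := rfl
      _ = 4 * (τ * Phi (fn B (z ^ 4))) * (exp (LL (fn B (z ^ 4))) * QQ B (z ^ 4)) := by
          rw [hd2]
          ring
      _ = 4 * fn B z ^ 4 * (exp (LL (fn B (z ^ 4))) * QQ B (z ^ 4)) := by rw [← e5]
  exact mul_left_cancel₀ (mul_ne_zero (by norm_num) (pow_ne_zero 4 e6)) e7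

/-- Induction with `QQ_eq`, `‖exp w‖ = exp (Re w)`. -/
theorem QQ_norm (h0 : 0 < τ) (S : Sol τ B) (n : ℕ) {z : ℂ} (hz : z ∈ ball (0 : ℂ) 1) :
    ‖QQ B z‖ = Real.exp (SS B n (z ^ 4)) * ‖QQ B (z ^ 4 ^ n)‖ := by
  induction n with
  | zero => simp [SS]
  | succ n ih =>
    have h1 : z ^ 4 ^ n ∈ ball (0 : ℂ) 1 := C3_pow_mem hz _ (pow_ne_zero n (by norm_num))
    have h2 : (z ^ 4 ^ n) ^ 4 = z ^ 4 ^ (n + 1) := by rw [← pow_mul, pow_succ]
    have h3 : (z ^ 4) ^ 4 ^ n = z ^ 4 ^ (n + 1) := by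
      rw [← pow_mul, pow_succ, mul_comm]
    have h4 : SS B (n + 1) (z ^ 4) = SS B n (z ^ 4) + ps B (z ^ 4 ^ (n + 1)) := by
      unfold SS
      rw [Finset.sum_range_succ, h3]
    rw [ih, QQ_eq h0 S h1, h2, norm_mul, Complex.norm_exp, h4, Real.exp_add, ← mul_assoc]
    rfl

/-- `QQ B` is continuous in the disc (`S.diff`, the derivative of an analytic function is analytic),
`QQ B 0 = 1`, so it is not zero near `0`, hence by `QQ_norm` nowhere; compactness of the closed ball. -/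
theorem QQ_lower (h0 : 0 < τ) (S : Sol τ B) {r : ℝ} (h1 : r < 1) :
    ∃ q : ℝ, 0 < q ∧ ∀ z : ℂ, ‖z‖ ≤ r → q ≤ ‖QQ B z‖ := by
  have hc : ContinuousOn (QQ B) (ball 0 1) := by
    have h2 : ContinuousOn (deriv B) (ball 0 1) := (S.diff.deriv isOpen_ball).continuousOn
    exact continuousOn_const.add (continuousOn_id.mul h2)
  have hne : ∀ z ∈ ball (0 : ℂ) 1, 0 < ‖QQ B z‖ := by
    intro z hz
    have h3 : ContinuousAt (QQ B) 0 :=
      hc.continuousAt (isOpen_ball.mem_nhds (mem_ball_self one_pos))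
    have h4 : Filter.Tendsto (fun n : ℕ => z ^ 4 ^ n) Filter.atTop (nhds 0) := by
      have h5 := tendsto_pow_atTop_nhds_zero_of_norm_lt_one (mem_ball_zero_iff.1 hz)
      exact h5.comp (tendsto_pow_atTop_atTop_of_one_lt (by norm_num : 1 < 4))
    have h6 : Filter.Tendsto (fun n : ℕ => QQ B (z ^ 4 ^ n)) Filter.atTop (nhds 1) := by
      have h7 : Filter.Tendsto (QQ B) (nhds 0) (nhds 1) := by
        have h8 := h3.tendsto
        rwa [C3_zero] at h8
      exact h7.comp h4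
    obtain ⟨n, hn⟩ := (h6.eventually_ne one_ne_zero).exists
    rw [QQ_norm h0 S n hz]
    exact mul_pos (Real.exp_pos _) (norm_pos_iff.2 hn)
  rcases lt_or_ge r 0 with hr | hr
  · exact ⟨1, one_pos, fun z hz => absurd (hz.trans_lt hr) (not_lt.2 (norm_nonneg z))⟩
  · have hsub : closedBall (0 : ℂ) r ⊆ ball 0 1 := closedBall_subset_ball h1
    obtain ⟨z0, hz0, hmin⟩ := (isCompact_closedBall (0 : ℂ) r).exists_isMinOn
      ⟨0, mem_closedBall_self hr⟩ (hc.mono hsub).norm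
    exact ⟨‖QQ B z0‖, hne z0 (hsub hz0), fun z hz => hmin (mem_closedBall_zero_iff.2 hz)⟩

end Pool.Agent.Helper42.LB
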