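import Pool.Agent.Helper42.LB.CertP

/-!
# LB-E5: the certificate as `O`-estimates
-/

set_option autoImplicit false

namespace Pool.Agent.Helper42.LB

open Complex Metric Set Filter Topology Asymptotics

theorem O_of_dvd {p : Polynomial ℤ} {K : ℕ} (h : Polynomial.X ^ K ∣ p) :
    (fun x : ℂ => Polynomial.aeval x p) =O[𝓝 0] (fun x : ℂ => x ^ K) := by
  obtain ⟨q, rfl⟩ := h
  have h1 : (fun x : ℂ => Polynomial.aeval x q) =O[𝓝 0] (fun _ : ℂ => (1 : ℂ)) :=
    ((Polynomial.continuous_aeval (A := ℂ) q).continuousAt (x := 0)).tendsto.isBigO_one ℂ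
  have h2 := (isBigO_refl (fun x : ℂ => x ^ K) (𝓝 0)).mul h1
  simpa only [map_mul, map_pow, Polynomial.aeval_X, mul_one] using h2

/-- `cert1` -/
theorem Pr_sq : (fun x : ℂ => Pr x ^ 2 - Pg (16 * x ^ 4)) =O[𝓝 0] (fun x : ℂ => x ^ 388) := by
  have h := O_of_dvd cert1
  refine h.congr_left (fun x => ?_)
  unfold Pr Pg
  rw [map_sub, map_pow, Polynomial.aeval_comp, map_mul, map_pow, Polynomial.aeval_X,
    Polynomial.aeval_C]
  norm_num

/-- `cert2` -/
theorem Pg_sq : (fun x : ℂ => (1 + Pr x) * Pg x ^ 2 - 2 * Pr x) =O[𝓝 0] (fun x : ℂ => x ^ 386) := by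
  have h := O_of_dvd cert2
  refine h.congr_left (fun x => ?_)
  unfold Pr Pg
  rw [map_sub, map_mul, map_mul, map_add, map_one, map_pow, map_ofNat]

/-- `cert3` -/
theorem Pe_rel : (fun x : ℂ => x * deriv Pg x - 2 * ((1 + Pg x) * Pe x)) =O[𝓝 0]
    (fun x : ℂ => x ^ 385) := by
  have h := O_of_dvd cert3
  refine h.congr_left (fun x => ?_)
  have hd : deriv Pg x = Polynomial.aeval x (Polynomial.derivative (toP PL)) :=
    Polynomial.deriv_aeval (toP PL)
  rw [hd]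
  unfold Pe Pg
  rw [map_sub, map_mul, map_mul, map_mul, map_add, map_one, map_ofNat, Polynomial.aeval_X]

theorem Pg_lead : (fun x : ℂ => Pg x - 4 * x) =O[𝓝 0] (fun x : ℂ => x ^ 2) := by
  have hd : Polynomial.X ^ 2 ∣ toP PL - Polynomial.C 4 * Polynomial.X := by
    rw [Polynomial.X_pow_dvd_iff]
    intro d hd
    rw [Polynomial.coeff_sub, Polynomial.coeff_C_mul, Polynomial.coeff_X]
    interval_cases d
    · rw [coeff_PL.1]; norm_num
    · rw [coeff_PL.2]; norm_num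
  refine (O_of_dvd hd).congr_left (fun x => ?_)
  unfold Pg
  rw [map_sub, map_mul, Polynomial.aeval_X, Polynomial.aeval_C]
  norm_num

theorem Pr_lead : (fun x : ℂ => Pr x - 8 * x ^ 2) =O[𝓝 0] (fun x : ℂ => x ^ 3) := by
  have hd : Polynomial.X ^ 3 ∣ toP RL - Polynomial.C 8 * Polynomial.X ^ 2 := by
    rw [Polynomial.X_pow_dvd_iff]
    intro d hd
    rw [Polynomial.coeff_sub, Polynomial.coeff_C_mul, Polynomial.coeff_X_pow]
    interval_cases d
    · rw [coeff_RL.1]; norm_num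
    · rw [coeff_RL.2.1]; norm_num
    · rw [coeff_RL.2.2]; norm_num
  refine (O_of_dvd hd).congr_left (fun x => ?_)
  unfold Pr
  rw [map_sub, map_mul, map_pow, Polynomial.aeval_X, Polynomial.aeval_C]
  norm_num

theorem Pg_zero : Pg 0 = 0 := by
  unfold Pg
  rw [← Polynomial.coeff_zero_eq_aeval_zero', coeff_PL.1, map_zero]

theorem Pg_diff : Differentiable ℂ Pg :=
  Polynomial.differentiable_aeval (toP PL)

theorem Lam_zero : Lam 0 = 0 := by
  unfold Lam
  refine Finset.sum_eq_zero (fun n _ => ?_)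
  rcases Nat.eq_zero_or_pos n with rfl | hn
  · rw [Nat.cast_zero, div_zero, zero_mul]
  · rw [zero_pow hn.ne', mul_zero]

/-- `x Λ' x = Pe x` (`coeff_EL`) -/
theorem Lam_deriv (x : ℂ) : x * deriv Lam x = Pe x := by
  have hd : HasDerivAt Lam (∑ n ∈ Finset.range 385, ((toP EL).coeff n : ℂ) / n * (n * x ^ (n - 1))) x := by
    have h : HasDerivAt (fun y : ℂ => ∑ n ∈ Finset.range 385, ((toP EL).coeff n : ℂ) / n * y ^ n)
        (∑ n ∈ Finset.range 385, ((toP EL).coeff n : ℂ) / n * (n * x ^ (n - 1))) x :=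
      HasDerivAt.fun_sum (fun n _ => (hasDerivAt_pow n x).const_mul _)
    exact h
  have hdeg : (toP EL).natDegree < 385 := by
    have h : (toP EL).natDegree ≤ 384 :=
      Polynomial.natDegree_le_iff_coeff_eq_zero.2 (fun N hN => coeff_EL.2 N hN)
    omega
  unfold Pe
  rw [hd.deriv, Polynomial.aeval_eq_sum_range' hdeg, Finset.mul_sum]
  refine Finset.sum_congr rfl (fun n _ => ?_)
  rcases Nat.eq_zero_or_pos n with rfl | hn
  · rw [coeff_EL.1]
    simp
  · have hn0 : (n : ℂ) ≠ 0 := Nat.cast_ne_zero.2 hn.ne'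
    have e : x ^ n = x * x ^ (n - 1) := by rw [← pow_succ', Nat.sub_add_cancel hn]
    rw [e, zsmul_eq_mul]
    field_simp

/-- `‖D' x‖ ≤ C ‖x‖^(K-1)` for small `x ≠ 0`, hence for small `x`
(`DifferentiableAt` near `0`, `D'` is continuous); mean value inequality on the ball of radius `‖x‖`
(`Convex.norm_image_sub_le_of_norm_deriv_le`). -/
theorem O_of_deriv {D : ℂ → ℂ} {K : ℕ} (hK : 1 ≤ K) (hd : ∀ᶠ x in 𝓝 (0 : ℂ), DifferentiableAt ℂ D x)
    (h0 : D 0 = 0) (h : (fun x : ℂ => x * deriv D x) =O[𝓝 0] (fun x : ℂ => x ^ K)) :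
    D =O[𝓝 0] (fun x : ℂ => x ^ K) := by
  obtain ⟨c, hc⟩ := h.bound
  obtain ⟨δ, hδ, hball⟩ := Metric.eventually_nhds_iff_ball.1 (hd.and hc)
  obtain ⟨C, hC⟩ : ∃ C : ℝ, C = max c 0 := ⟨_, rfl⟩
  have hC0 : 0 ≤ C := hC ▸ le_max_right _ _
  have hcC : c ≤ C := hC ▸ le_max_left _ _
  have hdiff : DifferentiableOn ℂ D (ball 0 δ) := fun x hx =>
    (hball x hx).1.differentiableWithinAt
  have hcont : ContinuousAt (deriv D) 0 :=
    (hdiff.deriv isOpen_ball).continuousOn.continuousAt (ball_mem_nhds 0 hδ)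
  have hne : ∀ x ∈ ball (0 : ℂ) δ, x ≠ 0 → ‖deriv D x‖ ≤ C * ‖x‖ ^ (K - 1) := by
    intro x hx hx0
    have h1 := (hball x hx).2
    rw [norm_mul, norm_pow] at h1
    have h2 : ‖x‖ * ‖deriv D x‖ ≤ ‖x‖ * (C * ‖x‖ ^ (K - 1)) := by
      have e : ‖x‖ ^ K = ‖x‖ * ‖x‖ ^ (K - 1) := by
        rw [← pow_succ', Nat.sub_add_cancel hK]
      calc ‖x‖ * ‖deriv D x‖ ≤ c * ‖x‖ ^ K := h1
        _ ≤ C * ‖x‖ ^ K := mul_le_mul_of_nonneg_right hcC (pow_nonneg (norm_nonneg _) _)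
        _ = ‖x‖ * (C * ‖x‖ ^ (K - 1)) := by rw [e]; ring
    exact le_of_mul_le_mul_left h2 (norm_pos_iff.2 hx0)
  have hall : ∀ x ∈ ball (0 : ℂ) δ, ‖deriv D x‖ ≤ C * ‖x‖ ^ (K - 1) := by
    intro x hx
    by_cases hx0 : x = 0
    · subst hx0
      have h1 : Tendsto (fun x : ℂ => ‖deriv D x‖) (𝓝[≠] 0) (𝓝 ‖deriv D 0‖) :=
        (hcont.norm.tendsto).mono_left nhdsWithin_le_nhds
      have h2 : Tendsto (fun x : ℂ => C * ‖x‖ ^ (K - 1)) (𝓝[≠] 0)
          (𝓝 (C * ‖(0 : ℂ)‖ ^ (K - 1))) := by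
        have h3 : Continuous (fun x : ℂ => C * ‖x‖ ^ (K - 1)) := by fun_prop
        exact (h3.tendsto 0).mono_left nhdsWithin_le_nhds
      refine le_of_tendsto_of_tendsto h1 h2 ?_
      filter_upwards [self_mem_nhdsWithin, mem_nhdsWithin_of_mem_nhds (ball_mem_nhds (0 : ℂ) hδ)]
        with y hy1 hy2
      exact hne y hy2 hy1
    · exact hne x hx hx0
  refine IsBigO.of_bound C ?_
  filter_upwards [ball_mem_nhds (0 : ℂ) hδ] with x hx
  have hsub : ∀ y ∈ closedBall (0 : ℂ) ‖x‖, y ∈ ball (0 : ℂ) δ := by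
    intro y hy
    rw [mem_closedBall_zero_iff] at hy
    rw [mem_ball_zero_iff] at hx ⊢
    exact lt_of_le_of_lt hy hx
  have h1 := Convex.norm_image_sub_le_of_norm_deriv_le (𝕜 := ℂ) (f := D)
    (C := C * ‖x‖ ^ (K - 1)) (s := closedBall (0 : ℂ) ‖x‖) (x := 0) (y := x)
    (fun y hy => (hball y (hsub y hy)).1)
    (fun y hy => (hall y (hsub y hy)).trans (mul_le_mul_of_nonneg_left
      (pow_le_pow_left₀ (norm_nonneg _) (mem_closedBall_zero_iff.1 hy) _) hC0))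
    (convex_closedBall _ _) (mem_closedBall_self (norm_nonneg _))
    (mem_closedBall_zero_iff.2 le_rfl)
  rw [h0, sub_zero, sub_zero, mul_assoc, ← pow_succ, Nat.sub_add_cancel hK] at h1
  rw [norm_pow]
  exact h1

private theorem Lam_log_diff : Differentiable ℂ Lam := by
  unfold Lam
  fun_prop

private theorem Lam_log_cont : ContinuousAt (fun x : ℂ => 1 + Pg x) 0 :=
  (continuous_const.add Pg_diff.continuous).continuousAt

private theorem Lam_log_slit : ∀ᶠ x in 𝓝 (0 : ℂ), 1 + Pg x ∈ slitPlane := by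
  refine Lam_log_cont.eventually_mem ?_
  refine isOpen_slitPlane.mem_nhds ?_
  rw [Pg_zero, add_zero]
  exact one_mem_slitPlane

private theorem Lam_log_has {x : ℂ} (hx : 1 + Pg x ∈ slitPlane) :
    HasDerivAt (fun x : ℂ => log (1 + Pg x) - 2 * Lam x)
      (deriv Pg x / (1 + Pg x) - 2 * deriv Lam x) x := by
  have h1 : HasDerivAt (fun x : ℂ => 1 + Pg x) (deriv Pg x) x :=
    (Pg_diff x).hasDerivAt.const_add 1
  have h2 : HasDerivAt (fun x : ℂ => 2 * Lam x) (2 * deriv Lam x) x :=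
    (Lam_log_diff x).hasDerivAt.const_mul 2
  exact (h1.clog hx).sub h2

private theorem Lam_log_eq {x : ℂ} (hx : 1 + Pg x ∈ slitPlane) :
    (1 + Pg x)⁻¹ * (x * deriv Pg x - 2 * ((1 + Pg x) * Pe x)) =
      x * deriv (fun x : ℂ => log (1 + Pg x) - 2 * Lam x) x := by
  rw [(Lam_log_has hx).deriv, ← Lam_deriv x]
  have h0 : 1 + Pg x ≠ 0 := slitPlane_ne_zero hx
  field_simp

/-- `O_of_deriv` for `D x = log (1 + Pg x) - 2 Lam x`: near `0`, `1 + Pg x` is in the slit plane, and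
`x D' x = (x Pg' x - 2 (1 + Pg x) Pe x) / (1 + Pg x)` (`Lam_deriv`, `Pe_rel`). -/
theorem Lam_log : (fun x : ℂ => log (1 + Pg x) - 2 * Lam x) =O[𝓝 0] (fun x : ℂ => x ^ 385) := by
  refine O_of_deriv (by norm_num) ?_ ?_ ?_
  · filter_upwards [Lam_log_slit] with x hx
    exact (Lam_log_has hx).differentiableAt
  · rw [Pg_zero, Lam_zero, add_zero, log_one, mul_zero, sub_zero]
  · have h1 : (fun x : ℂ => (1 + Pg x)⁻¹) =O[𝓝 0] (fun _ : ℂ => (1 : ℂ)) := by
      have h2 : ContinuousAt (fun x : ℂ => (1 + Pg x)⁻¹) 0 :=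
        Lam_log_cont.inv₀ (by rw [Pg_zero, add_zero]; exact one_ne_zero)
      exact h2.tendsto.isBigO_one ℂ
    have h3 := h1.mul Pe_rel
    simp only [one_mul] at h3
    refine h3.congr' ?_ EventuallyEq.rfl
    filter_upwards [Lam_log_slit] with x hx
    exact Lam_log_eq hx

end Pool.Agent.Helper42.LB
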