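import Pool.Agent.Helper42.LB.Jet
import Pool.Agent.Helper42.LB.Ser

/-!
# LB-E6: the Taylor coefficients for `τ = 1`
-/

set_option autoImplicit false

namespace Pool.Agent.Helper42.LB

open Complex Metric Set Filter Topology Asymptotics

theorem rho_pos : 0 < rho := Real.exp_pos _

theorem rho_cube : rho ^ 3 = 1 / 2 := by
  unfold rho
  rw [← Real.exp_nat_mul]
  have h : ((3 : ℕ) : ℝ) * (Real.log (1 / 2) / 3) = Real.log (1 / 2) := by
    push_cast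
    ring
  rw [h, Real.exp_log (by norm_num)]

private theorem E6a_ne {F : ℂ} (hF : F ∈ ball (0 : ℂ) 1) (n : ℕ) (hn : n ≠ 0) :
    1 + F ^ n ≠ 0 := by
  intro h
  rw [mem_ball_zero_iff] at hF
  have h1 : F ^ n = -1 := by linear_combination h
  have h2 : ‖F‖ ^ n = 1 := by rw [← norm_pow, h1, norm_neg, norm_one]
  have h3 := pow_lt_one₀ (norm_nonneg F) hF hn
  linarith

/-- `ff_pow`, `Phi_rel` with `w = ff 1 m (z^4)`, `4 F^4 / (1 + F^4)^2` for `F = ff 1 (m+1) z` -/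
theorem gm_rel1 (m : ℕ) {z : ℂ} (hz : z ∈ closedBall (0 : ℂ) 1) :
    Rm (m + 1) z ^ 2 = gm m (z ^ 4) := by
  have hz4 : z ^ 4 ∈ closedBall (0 : ℂ) 1 := by
    rw [mem_closedBall_zero_iff] at hz ⊢
    rw [norm_pow]
    exact pow_le_one₀ (norm_nonneg _) hz
  have hb := ff_lt (τ := 1) one_pos le_rfl m hz4
  have h1 := ff_pow (τ := 1) one_pos m hb
  have h2 := Phi_rel hb
  rw [ofReal_one, one_mul] at h1
  unfold Rm gm
  rw [← h2, ← h1, div_pow]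
  congr 1
  ring

/-- `1 + R = (1 + F^2)^2 / (1 + F^4)` -/
theorem gm_rel2 (m : ℕ) {z : ℂ} (hz : z ∈ closedBall (0 : ℂ) 1) :
    (1 + Rm m z) * gm m z ^ 2 = 2 * Rm m z := by
  have hb := ff_lt (τ := 1) one_pos le_rfl m hz
  have h2 := E6a_ne hb 2 (by norm_num)
  have h4 := E6a_ne hb 4 (by norm_num)
  unfold Rm gm
  field_simp
  ring

/-- `exp_two_LL` -/
theorem gm_exp (m : ℕ) {z : ℂ} (hz : z ∈ closedBall (0 : ℂ) 1) :
    exp (2 * LL (ff 1 m z)) = 1 + gm m z :=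
  exp_two_LL (ff_lt (τ := 1) one_pos le_rfl m hz)

/-- `ff 1 m z - rho z = O(z^2)` as `fB 1 m` is differentiable at `0`, `exp (fB 1 m 0) = rho`
(`fB_zero`). -/
theorem ff_lead (m : ℕ) : (fun z : ℂ => ff 1 m z - rho * z) =O[𝓝 0] (fun z : ℂ => z ^ 2) := by
  have hd : DifferentiableAt ℂ (fun z => exp (fB 1 m z)) 0 :=
    ((fB_diff one_pos le_rfl m).differentiableAt (ball_mem_nhds 0 one_pos)).cexp
  have h0 : exp (fB 1 m 0) = (rho : ℂ) := by
    rw [fB_zero one_pos m, ← ofReal_exp]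
    rfl
  have h1 := hd.isBigO_sub
  have h2 := (isBigO_refl (fun z : ℂ => z) (𝓝 0)).mul h1
  refine h2.congr ?_ ?_
  · intro z
    unfold ff
    rw [h0]
    ring
  · intro z
    ring

private lemma lead_one {f : ℂ → ℂ} {a : ℂ}
    (hf : (fun z : ℂ => f z - a * z) =O[𝓝 0] (fun z : ℂ => z ^ 2)) :
    f =O[𝓝 0] (fun z : ℂ => z) := by
  have h1 : (fun z : ℂ => z ^ 2) =O[𝓝 0] (fun z : ℂ => z) := by
    simpa using (isLittleO_pow_pow (𝕜 := ℂ) (m := 1) (n := 2) (by norm_num)).isBigO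
  have h2 : (fun z : ℂ => a * z) =O[𝓝 0] (fun z : ℂ => z) := isBigO_const_mul_self _ _ _
  refine ((hf.trans h1).add h2).congr_left (fun z => by ring)

private lemma lead_inv {u : ℂ → ℂ} (hu : Tendsto u (𝓝 0) (𝓝 0)) :
    (fun z => (1 + u z)⁻¹) =O[𝓝 0] (fun _ : ℂ => (1 : ℂ)) ∧ ∀ᶠ z in 𝓝 (0 : ℂ), 1 + u z ≠ 0 := by
  have h1 : Tendsto (fun z => 1 + u z) (𝓝 0) (𝓝 1) := by
    simpa using (tendsto_const_nhds (x := (1 : ℂ))).add hu
  have h2 := h1.inv₀ one_ne_zero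
  exact ⟨h2.isBigO_one ℂ, h1.eventually_ne one_ne_zero⟩

theorem gm_lead (m : ℕ) : (fun z : ℂ => gm m z - 2 * rho * z) =O[𝓝 0] (fun z : ℂ => z ^ 2) := by
  have hf := ff_lead m
  have h1 := lead_one hf
  have ht : Tendsto (ff 1 m) (𝓝 0) (𝓝 0) := h1.trans_tendsto tendsto_id
  have hu : Tendsto (fun z => ff 1 m z ^ 2) (𝓝 0) (𝓝 0) := by simpa using ht.pow 2
  obtain ⟨hi, hne⟩ := lead_inv hu
  have e1 : (fun z => 2 * (ff 1 m z - rho * z) * (1 + ff 1 m z ^ 2)⁻¹) =O[𝓝 0]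
      (fun z : ℂ => z ^ 2) := by
    simpa using (hf.const_mul_left 2).mul hi
  have e2 : (fun z => 2 * (rho : ℂ) * (z * ff 1 m z ^ 2) * (1 + ff 1 m z ^ 2)⁻¹) =O[𝓝 0]
      (fun z : ℂ => z ^ 2) := by
    have h3 : (fun z : ℂ => z * ff 1 m z ^ 2) =O[𝓝 0] (fun z : ℂ => z * z ^ 2) :=
      (isBigO_refl _ _).mul (h1.pow 2)
    have h4 : (fun z : ℂ => z * z ^ 2) =O[𝓝 0] (fun z : ℂ => z ^ 2) :=
      ((isLittleO_pow_pow (𝕜 := ℂ) (m := 2) (n := 3) (by norm_num)).isBigO).congr_left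
        (fun z => by ring)
    simpa using ((h3.trans h4).const_mul_left (2 * (rho : ℂ))).mul hi
  refine (e1.sub e2).congr' ?_ EventuallyEq.rfl
  filter_upwards [hne] with z hz
  unfold gm
  field_simp
  ring

theorem Rm_lead (m : ℕ) : (fun z : ℂ => Rm m z - 2 * rho ^ 2 * z ^ 2) =O[𝓝 0]
    (fun z : ℂ => z ^ 3) := by
  have hf := ff_lead m
  have h1 := lead_one hf
  have ht : Tendsto (ff 1 m) (𝓝 0) (𝓝 0) := h1.trans_tendsto tendsto_id
  have hu : Tendsto (fun z => ff 1 m z ^ 4) (𝓝 0) (𝓝 0) := by simpa using ht.pow 4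
  obtain ⟨hi, hne⟩ := lead_inv hu
  have h5 : (fun z : ℂ => ff 1 m z + rho * z) =O[𝓝 0] (fun z : ℂ => z) :=
    h1.add (isBigO_const_mul_self _ _ _)
  have h6 : (fun z : ℂ => (ff 1 m z - rho * z) * (ff 1 m z + rho * z)) =O[𝓝 0]
      (fun z : ℂ => z ^ 3) :=
    (hf.mul h5).congr_right (fun z => by ring)
  have e1 : (fun z => 2 * ((ff 1 m z - rho * z) * (ff 1 m z + rho * z)) *
      (1 + ff 1 m z ^ 4)⁻¹) =O[𝓝 0] (fun z : ℂ => z ^ 3) := by
    simpa using (h6.const_mul_left 2).mul hi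
  have e2 : (fun z => 2 * (rho : ℂ) ^ 2 * (z ^ 2 * ff 1 m z ^ 4) * (1 + ff 1 m z ^ 4)⁻¹) =O[𝓝 0]
      (fun z : ℂ => z ^ 3) := by
    have h3 : (fun z : ℂ => z ^ 2 * ff 1 m z ^ 4) =O[𝓝 0] (fun z : ℂ => z ^ 2 * z ^ 4) :=
      (isBigO_refl _ _).mul (h1.pow 4)
    have h4 : (fun z : ℂ => z ^ 2 * z ^ 4) =O[𝓝 0] (fun z : ℂ => z ^ 3) :=
      ((isLittleO_pow_pow (𝕜 := ℂ) (m := 3) (n := 6) (by norm_num)).isBigO).congr_left
        (fun z => by ring)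
    simpa using ((h3.trans h4).const_mul_left (2 * (rho : ℂ) ^ 2)).mul hi
  refine (e1.sub e2).congr' ?_ EventuallyEq.rfl
  filter_upwards [hne] with z hz
  unfold Rm
  field_simp
  ring

/-- `u^2 - v^2 = (u - v) (u + v)` with `u + v = 2 a z^k + O(z^(k+1))`, `a ≠ 0`, so
`‖u + v‖ ≥ |a| |z|^k` for small `z`. -/
theorem O_sqrt {u v : ℂ → ℂ} {a : ℂ} (ha : a ≠ 0) {k e : ℕ}
    (hu : (fun z => u z - a * z ^ k) =O[𝓝 0] (fun z : ℂ => z ^ (k + 1)))
    (hv : (fun z => v z - a * z ^ k) =O[𝓝 0] (fun z : ℂ => z ^ (k + 1)))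
    (h : (fun z => u z ^ 2 - v z ^ 2) =O[𝓝 0] (fun z : ℂ => z ^ (e + k))) :
    (fun z => u z - v z) =O[𝓝 0] (fun z : ℂ => z ^ e) := by
  obtain ⟨c1, hc1⟩ := hu.bound
  obtain ⟨c2, hc2⟩ := hv.bound
  obtain ⟨c3, hc3⟩ := h.bound
  have ha0 : 0 < ‖a‖ := norm_pos_iff.2 ha
  have hC : 0 < |c1| + |c2| + 1 := by positivity
  refine IsBigO.of_bound (|c3| / ‖a‖) ?_
  filter_upwards [hc1, hc2, hc3, ball_mem_nhds (0 : ℂ) (div_pos ha0 hC)] with z h1 h2 h3 h4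
  rw [mem_ball_zero_iff, lt_div_iff₀ hC] at h4
  rw [norm_pow] at h1 h2 h3 ⊢
  by_cases hz : z = 0
  · subst hz
    rw [norm_zero, zero_pow (Nat.succ_ne_zero k), mul_zero] at h1 h2
    have e1 : u 0 = a * 0 ^ k := sub_eq_zero.1 (norm_le_zero_iff.1 h1)
    have e2 : v 0 = a * 0 ^ k := sub_eq_zero.1 (norm_le_zero_iff.1 h2)
    rw [e1, e2, sub_self, norm_zero]
    positivity
  · have hz0 : 0 < ‖z‖ := norm_pos_iff.2 hz
    have hk : 0 < ‖z‖ ^ k := pow_pos hz0 k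
    have h5 : ‖a‖ * ‖z‖ ^ k ≤ ‖u z + v z‖ := by
      have e1 : u z + v z = 2 * (a * z ^ k) + ((u z - a * z ^ k) + (v z - a * z ^ k)) := by ring
      have e2 : ‖2 * (a * z ^ k)‖ = 2 * (‖a‖ * ‖z‖ ^ k) := by
        rw [norm_mul, norm_mul, norm_pow]
        norm_num
      have e3 : ‖(u z - a * z ^ k) + (v z - a * z ^ k)‖ ≤ ‖a‖ * ‖z‖ ^ k := by
        refine (norm_add_le _ _).trans ?_
        have e4 : c1 * ‖z‖ ^ (k + 1) ≤ |c1| * ‖z‖ ^ (k + 1) :=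
          mul_le_mul_of_nonneg_right (le_abs_self _) (by positivity)
        have e5 : c2 * ‖z‖ ^ (k + 1) ≤ |c2| * ‖z‖ ^ (k + 1) :=
          mul_le_mul_of_nonneg_right (le_abs_self _) (by positivity)
        calc ‖u z - a * z ^ k‖ + ‖v z - a * z ^ k‖
            ≤ |c1| * ‖z‖ ^ (k + 1) + |c2| * ‖z‖ ^ (k + 1) := add_le_add (h1.trans e4) (h2.trans e5)
          _ = (‖z‖ * (|c1| + |c2|)) * ‖z‖ ^ k := by ring
          _ ≤ ‖a‖ * ‖z‖ ^ k := by
            refine mul_le_mul_of_nonneg_right ?_ hk.le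
            nlinarith
      rw [e1]
      have e6 := norm_sub_le (2 * (a * z ^ k) + ((u z - a * z ^ k) + (v z - a * z ^ k)))
        ((u z - a * z ^ k) + (v z - a * z ^ k))
      rw [add_sub_cancel_right, e2] at e6
      linarith
    have h6 : ‖u z - v z‖ * (‖a‖ * ‖z‖ ^ k) ≤ |c3| * ‖z‖ ^ e * ‖z‖ ^ k := by
      calc ‖u z - v z‖ * (‖a‖ * ‖z‖ ^ k) ≤ ‖u z - v z‖ * ‖u z + v z‖ :=
            mul_le_mul_of_nonneg_left h5 (norm_nonneg _)
        _ = ‖u z ^ 2 - v z ^ 2‖ := by rw [← norm_mul]; congr 1; ring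
        _ ≤ c3 * ‖z‖ ^ (e + k) := h3
        _ ≤ |c3| * ‖z‖ ^ (e + k) := mul_le_mul_of_nonneg_right (le_abs_self _) (by positivity)
        _ = |c3| * ‖z‖ ^ e * ‖z‖ ^ k := by rw [pow_add]; ring
    have h7 : ‖u z - v z‖ * ‖a‖ ≤ |c3| * ‖z‖ ^ e := by
      refine le_of_mul_le_mul_right ?_ hk
      rw [mul_assoc]
      exact h6
    rw [div_mul_eq_mul_div, le_div_iff₀ ha0]
    exact h7

/-- With `x = (rho/2) z`: `16 x^4 = (rho/2) z^4` (`rho_cube`), so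
`Rm (m+1) z^2 - Pr x^2 = gm m (z^4) - Pg ((rho/2) z^4) - (Pr x^2 - Pg (16 x^4)) = O(z^(4e)) + O(z^388)`
(`gm_rel1`, `O_comp_four`, `Pr_sq`); `O_sqrt` with `k = 2`, `a = 2 rho^2` (`Rm_lead`, `Pr_lead`). -/
theorem jet_R (m e : ℕ) (he : e ≤ 97) (he1 : 1 ≤ e)
    (h : (fun z : ℂ => gm m z - Pg (rho / 2 * z)) =O[𝓝 0] (fun z : ℂ => z ^ e)) :
    (fun z : ℂ => Rm (m + 1) z - Pr (rho / 2 * z)) =O[𝓝 0] (fun z : ℂ => z ^ (4 * e - 2)) := by
  have hrho : (rho : ℂ) ≠ 0 := by exact_mod_cast rho_pos.ne'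
  have hrho3 : (rho : ℂ) ^ 3 = 1 / 2 := by
    rw [← ofReal_pow, rho_cube]
    norm_num
  have hlim : Tendsto (fun z : ℂ => (rho : ℂ) / 2 * z) (𝓝 0) (𝓝 0) := by
    have h1 : Continuous (fun z : ℂ => (rho : ℂ) / 2 * z) := by fun_prop
    simpa using h1.tendsto 0
  have hpow : ∀ n : ℕ, (fun z : ℂ => ((rho : ℂ) / 2 * z) ^ n) =O[𝓝 0] (fun z : ℂ => z ^ n) := by
    intro n
    have h1 : (fun z : ℂ => ((rho : ℂ) / 2 * z) ^ n) =
        fun z : ℂ => ((rho : ℂ) / 2) ^ n * z ^ n := by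
      funext z
      rw [mul_pow]
    rw [h1]
    exact isBigO_const_mul_self _ _ _
  refine O_sqrt (a := 2 * (rho : ℂ) ^ 2) (k := 2) (by simp [hrho]) (Rm_lead (m + 1)) ?_ ?_
  · have h1 := (Pr_lead.comp_tendsto hlim).trans (hpow 3)
    refine h1.congr_left fun z => ?_
    simp only [Function.comp_apply]
    ring
  · have e0 : 4 * e - 2 + 2 = 4 * e := by omega
    rw [e0]
    have h1 : (fun z : ℂ => gm m (z ^ 4) - Pg (rho / 2 * z ^ 4)) =O[𝓝 0]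
        (fun z : ℂ => z ^ (4 * e)) := O_comp_four h
    have h2 : (fun z : ℂ => Pr (rho / 2 * z) ^ 2 - Pg (16 * (rho / 2 * z) ^ 4)) =O[𝓝 0]
        (fun z : ℂ => z ^ (4 * e)) := by
      have h3 := (Pr_sq.comp_tendsto hlim).trans (hpow 388)
      refine h3.trans ?_
      refine IsBigO.of_bound 1 ?_
      filter_upwards [ball_mem_nhds (0 : ℂ) one_pos] with z hz
      rw [mem_ball_zero_iff] at hz
      rw [norm_pow, norm_pow, one_mul]
      exact pow_le_pow_of_le_one (norm_nonneg _) hz.le (by omega)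
    refine (h1.sub h2).congr' ?_ EventuallyEq.rfl
    filter_upwards [ball_mem_nhds (0 : ℂ) one_pos] with z hz
    have h4 := gm_rel1 m (ball_subset_closedBall hz)
    have h5 : 16 * ((rho : ℂ) / 2 * z) ^ 4 = rho / 2 * z ^ 4 := by
      calc 16 * ((rho : ℂ) / 2 * z) ^ 4 = (rho : ℂ) ^ 3 * rho * z ^ 4 := by ring
        _ = rho / 2 * z ^ 4 := by rw [hrho3]; ring
    rw [h5, h4]
    ring

private theorem E6d_pow {K L : ℕ} (h : L ≤ K) :
    (fun z : ℂ => z ^ K) =O[𝓝 0] (fun z : ℂ => z ^ L) := by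
  refine IsBigO.of_bound 1 ?_
  filter_upwards [ball_mem_nhds (0 : ℂ) one_pos] with z hz
  rw [mem_ball_zero_iff] at hz
  rw [norm_pow, norm_pow, one_mul]
  exact pow_le_pow_of_le_one (norm_nonneg _) hz.le h

private theorem E6d_mul (c : ℂ) {u : ℂ → ℂ} {K : ℕ} (hu : u =O[𝓝 0] (fun x : ℂ => x ^ K)) :
    (fun z => u (c * z)) =O[𝓝 0] (fun z : ℂ => z ^ K) := by
  have ht : Tendsto (fun z : ℂ => c * z) (𝓝 0) (𝓝 0) := by
    have : Continuous (fun z : ℂ => c * z) := by fun_prop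
    simpa using this.tendsto 0
  have h1 := hu.comp_tendsto ht
  refine IsBigO.trans (by simpa [Function.comp_def] using h1) ?_
  have h2 : (fun z : ℂ => (c * z) ^ K) = fun z => c ^ K * z ^ K := by
    funext z; rw [mul_pow]
  change (fun z : ℂ => (c * z) ^ K) =O[𝓝 0] _
  rw [h2]
  exact (isBigO_refl _ _).const_mul_left _

private theorem E6d_tend {u : ℂ → ℂ} {a : ℂ} {k : ℕ} (hk : 1 ≤ k)
    (hu : (fun z => u z - a * z ^ k) =O[𝓝 0] (fun z : ℂ => z ^ (k + 1))) :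
    Tendsto u (𝓝 0) (𝓝 0) := by
  have h1 : Tendsto (fun z : ℂ => z ^ (k + 1)) (𝓝 0) (𝓝 0) := by
    have : Continuous (fun z : ℂ => z ^ (k + 1)) := by fun_prop
    simpa using this.tendsto 0
  have h2 : Tendsto (fun z : ℂ => a * z ^ k) (𝓝 0) (𝓝 0) := by
    have h3 : Continuous (fun z : ℂ => a * z ^ k) := by fun_prop
    have h4 := h3.tendsto 0
    have h5 : a * (0 : ℂ) ^ k = 0 := by rw [zero_pow (by omega), mul_zero]
    rwa [h5] at h4
  have h3 := (hu.trans_tendsto h1).add h2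
  simpa using h3

/-- `gm^2 = 2 R / (1 + R)` (`gm_rel2`), `Pg^2 = 2 Pr / (1 + Pr) + O(z^386)` (`Pg_sq`), and
`2 R / (1 + R) - 2 P / (1 + P) = 2 (R - P) / ((1 + R)(1 + P))`; `O_sqrt` with `k = 1`, `a = 2 rho`
(`gm_lead`, `Pg_lead`). -/
theorem jet_G (m e : ℕ) (he : e ≤ 386) (he1 : 1 ≤ e)
    (h : (fun z : ℂ => Rm m z - Pr (rho / 2 * z)) =O[𝓝 0] (fun z : ℂ => z ^ e)) :
    (fun z : ℂ => gm m z - Pg (rho / 2 * z)) =O[𝓝 0] (fun z : ℂ => z ^ (e - 1)) := by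
  have ha : (2 * rho : ℂ) ≠ 0 := by
    have := rho_pos
    simp [this.ne']
  have hu : (fun z => gm m z - 2 * rho * z ^ 1) =O[𝓝 0] (fun z : ℂ => z ^ (1 + 1)) := by
    simpa using gm_lead m
  have hv : (fun z => Pg (rho / 2 * z) - 2 * rho * z ^ 1) =O[𝓝 0] (fun z : ℂ => z ^ (1 + 1)) := by
    have h1 := E6d_mul (rho / 2) Pg_lead
    refine h1.congr_left fun z => ?_
    ring
  have hR0 : Tendsto (Rm m) (𝓝 0) (𝓝 0) := E6d_tend (k := 2) (by norm_num) (Rm_lead m)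
  have hP0 : Tendsto (fun z : ℂ => Pr (rho / 2 * z)) (𝓝 0) (𝓝 0) := by
    have h1 := E6d_mul (rho / 2) Pr_lead
    refine E6d_tend (a := 2 * rho ^ 2) (k := 2) (by norm_num) (h1.congr_left fun z => ?_)
    ring
  have hinv : (fun z : ℂ => ((1 + Rm m z) * (1 + Pr (rho / 2 * z)))⁻¹) =O[𝓝 0]
      (fun _ : ℂ => (1 : ℂ)) := by
    have h1 : Tendsto (fun z : ℂ => ((1 + Rm m z) * (1 + Pr (rho / 2 * z)))⁻¹) (𝓝 0)
        (𝓝 (((1 + 0) * (1 + 0))⁻¹)) :=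
      ((tendsto_const_nhds.add hR0).mul (tendsto_const_nhds.add hP0)).inv₀ (by norm_num)
    exact h1.isBigO_one ℂ
  have hR1 : (fun z : ℂ => 1 + Rm m z) =O[𝓝 0] (fun _ : ℂ => (1 : ℂ)) :=
    (tendsto_const_nhds.add hR0).isBigO_one ℂ
  have hE : (fun z : ℂ => (1 + Pr (rho / 2 * z)) * Pg (rho / 2 * z) ^ 2 -
      2 * Pr (rho / 2 * z)) =O[𝓝 0] (fun z : ℂ => z ^ e) :=
    (E6d_mul (rho / 2) Pg_sq).trans (E6d_pow he)
  have hnum : (fun z : ℂ => 2 * (Rm m z - Pr (rho / 2 * z)) -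
      (1 + Rm m z) * ((1 + Pr (rho / 2 * z)) * Pg (rho / 2 * z) ^ 2 - 2 * Pr (rho / 2 * z)))
      =O[𝓝 0] (fun z : ℂ => z ^ e) := by
    refine (h.const_mul_left 2).sub ?_
    have := hR1.mul hE
    simpa using this
  have hsq : (fun z : ℂ => gm m z ^ 2 - Pg (rho / 2 * z) ^ 2) =O[𝓝 0]
      (fun z : ℂ => z ^ ((e - 1) + 1)) := by
    rw [Nat.sub_add_cancel he1]
    have h2 := hinv.mul hnum
    simp only [one_mul] at h2
    refine h2.congr' ?_ (Eventually.of_forall fun z => rfl)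
    have hne1 : ∀ᶠ z in 𝓝 (0 : ℂ), 1 + Rm m z ≠ 0 := by
      have h3 : Tendsto (fun z : ℂ => 1 + Rm m z) (𝓝 0) (𝓝 (1 + 0)) :=
        tendsto_const_nhds.add hR0
      exact h3.eventually_ne (by norm_num)
    have hne2 : ∀ᶠ z in 𝓝 (0 : ℂ), 1 + Pr (rho / 2 * z) ≠ 0 := by
      have h3 : Tendsto (fun z : ℂ => 1 + Pr (rho / 2 * z)) (𝓝 0) (𝓝 (1 + 0)) :=
        tendsto_const_nhds.add hP0
      exact h3.eventually_ne (by norm_num)
    filter_upwards [hne1, hne2, ball_mem_nhds (0 : ℂ) one_pos] with z h4 h5 h6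
    have h7 := gm_rel2 m (ball_subset_closedBall h6)
    rw [inv_mul_eq_div, div_eq_iff (mul_ne_zero h4 h5)]
    linear_combination (-(1 + Pr (rho / 2 * z))) * h7
  exact O_sqrt ha hu hv hsq

/-- `e = 2` for `m = 0` (`gm_lead`, `Pg_lead`), then `5, 17, 65, 257`, and for `m = 5`: `gm 4` with
`e = 97` gives `386` for `Rm 5` and `385` for `gm 5`. -/
theorem jet5 : (fun z : ℂ => gm 5 z - Pg (rho / 2 * z)) =O[𝓝 0] (fun z : ℂ => z ^ 385) := by
  have h0 : (fun z : ℂ => gm 0 z - Pg (rho / 2 * z)) =O[𝓝 0] (fun z : ℂ => z ^ 2) := by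
    have h1 := (gm_lead 0).sub (E6d_mul (rho / 2) Pg_lead)
    refine h1.congr_left fun z => ?_
    ring
  have h1 := jet_G 1 6 (by norm_num) (by norm_num) (jet_R 0 2 (by norm_num) (by norm_num) h0)
  have h2 := jet_G 2 18 (by norm_num) (by norm_num) (jet_R 1 5 (by norm_num) (by norm_num) h1)
  have h3 := jet_G 3 66 (by norm_num) (by norm_num) (jet_R 2 17 (by norm_num) (by norm_num) h2)
  have h4 := jet_G 4 258 (by norm_num) (by norm_num) (jet_R 3 65 (by norm_num) (by norm_num) h3)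
  have h5 : (fun z : ℂ => gm 4 z - Pg (rho / 2 * z)) =O[𝓝 0] (fun z : ℂ => z ^ 97) :=
    h4.trans (E6d_pow (by norm_num))
  exact jet_G 5 386 (by norm_num) (by norm_num) (jet_R 4 97 (by norm_num) (by norm_num) h5)

/-- For small `z`, `2 LL (ff 1 5 z) = log (1 + gm 5 z)` (`gm_exp`, `Complex.log_exp`, `LL` is small), and
`log` is Lipschitz near `1`; `jet5` and `Lam_log` at `x = (rho/2) z`. -/
theorem LL_jet : (fun z : ℂ => LL (ff 1 5 z) - Lam (rho / 2 * z)) =O[𝓝 0]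
    (fun z : ℂ => z ^ 385) := by
  have hcb : closedBall (0 : ℂ) 1 ∈ 𝓝 (0 : ℂ) := closedBall_mem_nhds 0 one_pos
  have hf0 : ff 1 5 0 = 0 := by
    unfold ff
    rw [zero_mul]
  have hfc : Tendsto (ff 1 5) (𝓝 0) (𝓝 0) := by
    have h := (ff_cont one_pos le_rfl 5).continuousAt hcb
    rw [ContinuousAt, hf0] at h
    exact h
  have hLc : Tendsto (fun z => LL (ff 1 5 z)) (𝓝 0) (𝓝 0) := by
    have h := (LLff_cont one_pos le_rfl 5).continuousAt hcb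
    rw [ContinuousAt, hf0, LL_zero] at h
    exact h
  have hgc : Tendsto (gm 5) (𝓝 0) (𝓝 0) := by
    have h1 : Tendsto (fun z => 2 * ff 1 5 z) (𝓝 0) (𝓝 (2 * 0)) := hfc.const_mul 2
    have h2 : Tendsto (fun z => 1 + ff 1 5 z ^ 2) (𝓝 0) (𝓝 (1 + 0 ^ 2)) :=
      (hfc.pow 2).const_add 1
    have h3 := h1.div h2 (by norm_num)
    have e : (2 * 0 / (1 + 0 ^ 2) : ℂ) = 0 := by norm_num
    rw [e] at h3
    exact h3
  have hx : Tendsto (fun z : ℂ => (rho : ℂ) / 2 * z) (𝓝 0) (𝓝 0) := by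
    have h := (continuous_const_mul ((rho : ℂ) / 2)).tendsto 0
    rw [mul_zero] at h
    exact h
  have hPc : Tendsto (fun z : ℂ => Pg (rho / 2 * z)) (𝓝 0) (𝓝 0) := by
    have h := Pg_diff.continuous.tendsto 0
    rw [Pg_zero] at h
    exact h.comp hx
  -- the logarithm is Lipschitz near `1`
  have hlog : (fun z : ℂ => log (1 + gm 5 z) - log (1 + Pg (rho / 2 * z))) =O[𝓝 0]
      (fun z : ℂ => z ^ 385) := by
    have h1 : (fun p : ℂ × ℂ => log p.1 - log p.2) =O[𝓝 ((1 : ℂ), (1 : ℂ))]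
        (fun p : ℂ × ℂ => p.1 - p.2) :=
      (Complex.hasStrictDerivAt_log one_mem_slitPlane).hasStrictFDerivAt.isBigO_sub
    have h2 : Tendsto (fun z : ℂ => (1 + gm 5 z, 1 + Pg (rho / 2 * z))) (𝓝 0)
        (𝓝 ((1 : ℂ), (1 : ℂ))) := by
      have h3 : Tendsto (fun z : ℂ => 1 + gm 5 z) (𝓝 0) (𝓝 (1 + 0)) := hgc.const_add 1
      have h4 : Tendsto (fun z : ℂ => 1 + Pg (rho / 2 * z)) (𝓝 0) (𝓝 (1 + 0)) :=
        hPc.const_add 1
      rw [add_zero] at h3 h4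
      exact h3.prodMk_nhds h4
    have h5 := h1.comp_tendsto h2
    refine (h5.trans ?_)
    have h6 : ((fun p : ℂ × ℂ => p.1 - p.2) ∘
        fun z : ℂ => (1 + gm 5 z, 1 + Pg (rho / 2 * z))) =
        fun z : ℂ => gm 5 z - Pg (rho / 2 * z) := by
      funext z
      simp only [Function.comp_apply]
      ring
    rw [h6]
    exact jet5
  have hLam : (fun z : ℂ => log (1 + Pg (rho / 2 * z)) - 2 * Lam (rho / 2 * z)) =O[𝓝 0]
      (fun z : ℂ => z ^ 385) := by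
    have h1 := Lam_log.comp_tendsto hx
    refine h1.trans ?_
    have h2 : ((fun x : ℂ => x ^ 385) ∘ fun z : ℂ => (rho : ℂ) / 2 * z) =
        fun z : ℂ => ((rho : ℂ) / 2) ^ 385 * z ^ 385 := by
      funext z
      simp only [Function.comp_apply]
      exact mul_pow _ _ _
    rw [h2]
    exact isBigO_const_mul_self _ _ _
  have hev : ∀ᶠ z in 𝓝 (0 : ℂ), log (1 + gm 5 z) = 2 * LL (ff 1 5 z) := by
    have h1 : Tendsto (fun z => 2 * LL (ff 1 5 z)) (𝓝 0) (𝓝 0) := by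
      have h := hLc.const_mul 2
      rw [mul_zero] at h
      exact h
    have h2 : ∀ᶠ z in 𝓝 (0 : ℂ), 2 * LL (ff 1 5 z) ∈ ball (0 : ℂ) 1 :=
      h1.eventually (ball_mem_nhds 0 one_pos)
    filter_upwards [h2, hcb] with z hz hz1
    rw [← gm_exp 5 hz1]
    have h3 : |(2 * LL (ff 1 5 z)).im| < 1 := by
      rw [mem_ball_zero_iff] at hz
      exact lt_of_le_of_lt (Complex.abs_im_le_norm _) hz
    rw [abs_lt] at h3
    have h4 := Real.pi_gt_three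
    exact Complex.log_exp (by linarith [h3.1]) (by linarith [h3.2])
  have hsum := (hlog.add hLam).const_mul_left (1 / 2 : ℂ)
  refine IsBigO.congr' hsum ?_ (EventuallyEq.refl _ _)
  filter_upwards [hev] with z hz
  rw [hz]
  ring

/-- `LL_jet`, `coef_of_O`, `LLff_cont`, `LLff_diff` -/
theorem coef_one {n : ℕ} (hn : n < 385) :
    coef (fun z => LL (ff 1 5 z)) n = ((toP EL).coeff n : ℂ) / n * (rho / 2) ^ n := by
  refine coef_of_O (LLff_cont one_pos le_rfl 5) (LLff_diff one_pos le_rfl 5)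
    (fun k => ((toP EL).coeff k : ℂ) / k * (rho / 2) ^ k) (K := 385) ?_ hn
  have h1 : (fun z : ℂ => LL (ff 1 5 z) - ∑ k ∈ Finset.range 385,
      ((toP EL).coeff k : ℂ) / k * (rho / 2) ^ k * z ^ k) =
      fun z : ℂ => LL (ff 1 5 z) - Lam (rho / 2 * z) := by
    funext z
    unfold Lam
    congr 1
    refine Finset.sum_congr rfl fun k _ => ?_
    rw [mul_pow]
    ring
  exact h1 ▸ LL_jet

end Pool.Agent.Helper42.LB
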