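import Pool.Agent.Helper42.LB.Four
import Pool.Agent.Helper42.LB.Fun
import Pool.Agent.Helper42.LB.Fin2

/-!
# LB-E4: the finite approximations have the same Taylor coefficients
-/

set_option autoImplicit false

namespace Pool.Agent.Helper42.LB

open Complex Metric Set Filter Topology Asymptotics

variable {τ : ℝ} {B : ℂ → ℂ}

/-- composition of `O`-estimates with `z ↦ z^4` -/
theorem O_comp_four {u : ℂ → ℂ} {K : ℕ} (hu : u =O[𝓝 0] (fun z : ℂ => z ^ K)) :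
    (fun z => u (z ^ 4)) =O[𝓝 0] (fun z : ℂ => z ^ (4 * K)) := by
  have ht : Tendsto (fun z : ℂ => z ^ 4) (𝓝 0) (𝓝 0) := by
    have : Continuous (fun z : ℂ => z ^ 4) := by fun_prop
    simpa using this.tendsto 0
  have := hu.comp_tendsto ht
  simpa [Function.comp_def, pow_mul] using this

/-- `AA` and `LL` are Lipschitz near `0` (continuously differentiable), `f₁`, `f₂` tend to `0`. -/
theorem O_comp_lip {g f₁ f₂ : ℂ → ℂ} (hg : DifferentiableOn ℂ g (ball 0 1))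
    (h1 : Tendsto f₁ (𝓝 0) (𝓝 0)) (h2 : Tendsto f₂ (𝓝 0) (𝓝 0)) {K : ℕ}
    (h : (fun z => f₁ z - f₂ z) =O[𝓝 0] (fun z : ℂ => z ^ K)) :
    (fun z => g (f₁ z) - g (f₂ z)) =O[𝓝 0] (fun z : ℂ => z ^ K) := by
  have ha : AnalyticAt ℂ g 0 := hg.analyticAt (ball_mem_nhds 0 one_pos)
  have hs := ha.hasStrictFDerivAt
  have hb := hs.isBigO_sub
  have ht : Tendsto (fun z => (f₁ z, f₂ z)) (𝓝 0) (𝓝 ((0 : ℂ), (0 : ℂ))) := by
    rw [nhds_prod_eq]; exact h1.prodMk h2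
  have := hb.comp_tendsto ht
  exact (by simpa [Function.comp_def] using this :
    (fun z => g (f₁ z) - g (f₂ z)) =O[𝓝 0] (fun z => f₁ z - f₂ z)).trans h

/-- `z exp (b₁ z) - z exp (b₂ z)` -/
theorem O_exp {b₁ b₂ : ℂ → ℂ} (h1 : ContinuousAt b₁ 0) (h2 : ContinuousAt b₂ 0) {K : ℕ}
    (h : (fun z => b₁ z - b₂ z) =O[𝓝 0] (fun z : ℂ => z ^ K)) :
    (fun z => z * exp (b₁ z) - z * exp (b₂ z)) =O[𝓝 0] (fun z : ℂ => z ^ K) := by
  refine IsBigO.trans ?_ h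
  obtain ⟨R, hR1, hR2⟩ : ∃ R : ℝ, ‖b₁ 0‖ < R ∧ ‖b₂ 0‖ < R :=
    ⟨max ‖b₁ 0‖ ‖b₂ 0‖ + 1, by linarith [le_max_left ‖b₁ 0‖ ‖b₂ 0‖],
      by linarith [le_max_right ‖b₁ 0‖ ‖b₂ 0‖]⟩
  have e1 : ∀ᶠ z in 𝓝 (0 : ℂ), ‖b₁ z‖ < R := h1.norm.eventually_lt continuousAt_const hR1
  have e2 : ∀ᶠ z in 𝓝 (0 : ℂ), ‖b₂ z‖ < R := h2.norm.eventually_lt continuousAt_const hR2
  have e3 : ∀ᶠ z in 𝓝 (0 : ℂ), ‖z‖ < 1 := by
    filter_upwards [ball_mem_nhds (0 : ℂ) one_pos] with z hz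
    simpa using hz
  refine IsBigO.of_bound (Real.exp R) ?_
  filter_upwards [e1, e2, e3] with z hz1 hz2 hz3
  have key : ‖exp (b₁ z) - exp (b₂ z)‖ ≤ Real.exp R * ‖b₁ z - b₂ z‖ := by
    refine Convex.norm_image_sub_le_of_norm_deriv_le (𝕜 := ℂ) (s := ball (0 : ℂ) R) (f := exp)
      (fun x _ => Complex.differentiableAt_exp) (fun x hx => ?_) (convex_ball 0 R)
      (by simpa using hz2) (by simpa using hz1)
    rw [Complex.deriv_exp, Complex.norm_exp]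
    refine Real.exp_le_exp.2 ((Complex.re_le_norm x).trans ?_)
    have : ‖x‖ < R := by simpa using hx
    exact this.le
  rw [← mul_sub, norm_mul]
  calc ‖z‖ * ‖exp (b₁ z) - exp (b₂ z)‖ ≤ 1 * ‖exp (b₁ z) - exp (b₂ z)‖ := by
        gcongr
    _ ≤ Real.exp R * ‖b₁ z - b₂ z‖ := by rw [one_mul]; exact key

private theorem E4b_ball : ball (0 : ℂ) 1 ∈ 𝓝 (0 : ℂ) := ball_mem_nhds 0 one_pos

/-- the functions `f` from the estimate for the logarithms -/
private theorem E4b_ff (h0 : 0 < τ) (h1 : τ ≤ 1) (S : Sol τ B) (m : ℕ) {K : ℕ}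
    (h : (fun z => B z - fB τ m z) =O[𝓝 0] (fun z : ℂ => z ^ K)) {g : ℂ → ℂ}
    (hg : DifferentiableOn ℂ g (ball 0 1)) :
    (fun z => g (fn B z) - g (ff τ m z)) =O[𝓝 0] (fun z : ℂ => z ^ K) := by
  have c1 : ContinuousAt B 0 := (S.diff.differentiableAt E4b_ball).continuousAt
  have c2 : ContinuousAt (fB τ m) 0 :=
    ((fB_diff h0 h1 m).differentiableAt E4b_ball).continuousAt
  have t1 : Tendsto (fn B) (𝓝 0) (𝓝 0) := by
    have h2 : ContinuousAt (fn B) 0 :=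
      ((fn_diff S).differentiableAt E4b_ball).continuousAt
    have h3 := h2.tendsto
    rwa [fn_zero] at h3
  have t2 : Tendsto (ff τ m) (𝓝 0) (𝓝 0) := by
    have h2 : ContinuousAt (ff τ m) 0 :=
      ((ff_diff h0 h1 m).differentiableAt E4b_ball).continuousAt
    have h3 := h2.tendsto
    have h4 : ff τ m 0 = 0 := zero_mul _
    rwa [h4] at h3
  exact O_comp_lip hg t1 t2 (O_exp c1 c2 h)

/-- Induction on `m`. `m = 0`: `B` is differentiable at `0` and `B 0 = fB τ 0 0` (`B_zero`, `fB_zero`).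
Step: `4 (B z - fB τ (m+1) z) = (B - fB τ m) (z^4) + AA (fn B (z^4)) - AA (ff τ m (z^4))`
(`Sol.eq`), `O_comp_four`, `O_comp_lip`, `O_exp`. -/
theorem Sol_jet (h0 : 0 < τ) (h1 : τ ≤ 1) (S : Sol τ B) (m : ℕ) :
    (fun z => B z - fB τ m z) =O[𝓝 0] (fun z : ℂ => z ^ 4 ^ m) := by
  induction m with
  | zero =>
    have h2 := (S.diff.differentiableAt E4b_ball).isBigO_sub
    refine (h2.congr' ?_ ?_)
    · refine Eventually.of_forall fun z => ?_
      change B z - B 0 = B z - fB τ 0 z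
      rw [B_zero h0 S]
      rfl
    · refine Eventually.of_forall fun z => ?_
      change z - 0 = z ^ 4 ^ 0
      rw [pow_zero, pow_one, sub_zero]
  | succ m ih =>
    have h2 := O_comp_four ih
    have h3 := O_comp_four (E4b_ff h0 h1 S m ih diff_AA)
    have h4 := (h2.add h3).const_mul_left (1 / 4)
    rw [pow_succ']
    refine h4.congr' ?_ (Eventually.of_forall fun z => rfl)
    filter_upwards [E4b_ball] with z hz
    have h5 := S.eq z (ball_subset_closedBall hz)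
    have h6 : fB τ (m + 1) z =
      (fB τ m (z ^ 4) + (Real.log τ : ℝ) + AA (ff τ m (z ^ 4))) / 4 := rfl
    rw [h6]
    linear_combination (-(1 / 4 : ℂ)) * h5

/-- `Sol_jet`, `O_exp`, `O_comp_lip`, `coef_eq_zero`, `coef_sub`. -/
theorem coef_fn_eq (h0 : 0 < τ) (h1 : τ ≤ 1) (S : Sol τ B) {m n : ℕ} (hn : n < 4 ^ m) :
    coef (fun z => LL (fn B z)) n = coef (fun z => LL (ff τ m z)) n := by
  have h2 := E4b_ff h0 h1 S m (Sol_jet h0 h1 S m) diff_LL
  have h3 := coef_eq_zero ((LLfn_cont S).sub (LLff_cont h0 h1 m))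
    ((LLfn_diff S).sub (LLff_diff h0 h1 m)) h2 hn
  have h4 := coef_sub (LLfn_cont S) (LLff_cont h0 h1 m) n
  have h5 : coef (fun z => LL (fn B z) - LL (ff τ m z)) n = 0 := h3
  rw [h4] at h5
  exact sub_eq_zero.1 h5

end Pool.Agent.Helper42.LB
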