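import Pool.Agent.Helper42.LB.Gm

/-!
# LB-E7, E8: the lower bound of the variance
-/

set_option autoImplicit false

namespace Pool.Agent.Helper42.LB

open Complex Metric Set Filter Topology Asymptotics

/-- `rho ^ 6 = 1/4`, `rho ^ 12 = 1/16` (`rho_cube`) -/
theorem rho_bounds : 629960524 / 1000000000 ≤ rho ^ 2 ∧ 396850262 / 1000000000 ≤ rho ^ 4 := by
  have h0 := rho_pos
  have h3 := rho_cube
  constructor
  · refine (pow_le_pow_iff_left₀ (by norm_num) (by positivity) (three_ne_zero)).1 ?_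
    have e : (rho ^ 2) ^ 3 = (rho ^ 3) ^ 2 := by ring
    rw [e, h3]
    norm_num
  · refine (pow_le_pow_iff_left₀ (by norm_num) (by positivity) (three_ne_zero)).1 ?_
    have e : (rho ^ 4) ^ 3 = (rho ^ 3) ^ 4 := by ring
    rw [e, h3]
    norm_num

/-- For `k = 3 q + s`: `rho^(2k) = rho^(2s) / 4^q` -/
theorem wt_le (k : ℕ) :
    1000 * ((if k % 3 = 0 then 1000000000 else if k % 3 = 1 then 629960524 else 396850262 : ℕ) : ℝ) /
      4 ^ (k / 3) ≤ 10 ^ 12 * rho ^ (2 * k) := by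
  obtain ⟨hb1, hb2⟩ := rho_bounds
  have h3 := rho_cube
  obtain ⟨q, s, hs, rfl⟩ : ∃ q s, s < 3 ∧ k = 3 * q + s := ⟨k / 3, k % 3, Nat.mod_lt _ (by norm_num),
    by omega⟩
  have e1 : (3 * q + s) / 3 = q := by omega
  have e2 : (3 * q + s) % 3 = s := by omega
  have e3 : rho ^ (2 * (3 * q + s)) = rho ^ (2 * s) / 4 ^ q := by
    have e4 : rho ^ (2 * (3 * q + s)) = (rho ^ 3) ^ (2 * q) * rho ^ (2 * s) := by
      rw [← pow_mul, ← pow_add]
      congr 1
      ring
    rw [e4, h3, pow_mul, show ((1 : ℝ) / 2) ^ 2 = 1 / 4 by norm_num, one_div, inv_pow]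
    ring
  rw [e1, e2, e3, ← mul_div_assoc]
  have h4 : (0 : ℝ) < 4 ^ q := by positivity
  refine div_le_div_of_nonneg_right ?_ h4.le
  interval_cases s
  · norm_num
  · norm_num at hb1 ⊢
    linarith
  · norm_num at hb2 ⊢
    linarith

/-- Induction on `l` for all `k`: `wt_le`, `Nat.cast_div_le`; for `k = 0` the first term is `0`
(division by zero). -/
theorem lowS_le (l : List ℤ) (k : ℕ) : (lowS k l : ℝ) ≤
    10 ^ 12 * ∑ n ∈ Finset.range l.length,
      (((toP l).coeff n : ℝ) / ((k + n : ℕ) * 2 ^ (k + n))) ^ 2 * rho ^ (2 * (k + n)) := by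
  induction l generalizing k with
  | nil => simp [lowS]
  | cons a l ih =>
    have h1 : ∀ n, (toP (a :: l)).coeff (n + 1) = (toP l).coeff n := by
      intro n
      change (Polynomial.C a + Polynomial.X * toP l).coeff (n + 1) = _
      rw [Polynomial.coeff_add, Polynomial.coeff_C_succ, Polynomial.coeff_X_mul, zero_add]
    have h2 : (toP (a :: l)).coeff 0 = a := by
      change (Polynomial.C a + Polynomial.X * toP l).coeff 0 = _
      rw [Polynomial.coeff_add, Polynomial.coeff_C_zero, Polynomial.coeff_X_mul_zero, add_zero]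
    have h3 := wt_le k
    rw [List.length_cons, Finset.sum_range_succ', mul_add, add_comm]
    have h4 : lowS k (a :: l) = a.natAbs ^ 2 * 1000 * (if k % 3 = 0 then 1000000000 else
        if k % 3 = 1 then 629960524 else 396850262) / (k ^ 2 * 4 ^ (k + k / 3)) +
        lowS (k + 1) l := rfl
    rw [h4, Nat.cast_add]
    refine add_le_add ?_ ?_
    · refine Nat.cast_div_le.trans ?_
      rw [h2, add_zero]
      have h5 : ((a.natAbs : ℕ) : ℝ) ^ 2 = (a : ℝ) ^ 2 := by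
        rw [Nat.cast_natAbs, Int.cast_abs, sq_abs]
      have h6 : (((a.natAbs ^ 2 * 1000 * (if k % 3 = 0 then 1000000000 else
          if k % 3 = 1 then 629960524 else 396850262) : ℕ) : ℝ) /
          ((k ^ 2 * 4 ^ (k + k / 3) : ℕ) : ℝ)) =
          ((a : ℝ) / ((k : ℕ) * 2 ^ k)) ^ 2 * (1000 * ((if k % 3 = 0 then 1000000000 else
            if k % 3 = 1 then 629960524 else 396850262 : ℕ) : ℝ) / 4 ^ (k / 3)) := by
        rw [Nat.cast_mul, Nat.cast_mul, Nat.cast_pow, h5, Nat.cast_mul, Nat.cast_pow, Nat.cast_pow,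
          pow_add, div_pow, mul_pow, div_mul_div_comm]
        congr 1
        · push_cast
          ring
        · rw [← pow_mul, mul_comm k 2, pow_mul]
          push_cast
          ring
      rw [h6]
      calc _ ≤ ((a : ℝ) / ((k : ℕ) * 2 ^ k)) ^ 2 * (10 ^ 12 * rho ^ (2 * k)) :=
            mul_le_mul_of_nonneg_left h3 (by positivity)
        _ = _ := by ring
    · refine (ih (k + 1)).trans (le_of_eq ?_)
      congr 1
      refine Finset.sum_congr rfl fun n _ => ?_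
      rw [h1, show k + 1 + n = k + (n + 1) by ring]

/-- `lowS_EL`, `lowS_le`, `length_EL`, `coef_one` -/
theorem sum_one : 13309 / 10000 ≤ ∑ n ∈ Finset.range 385,
    ‖coef (fun z => LL (ff 1 5 z)) n‖ ^ 2 := by
  have h1 : ∀ n ∈ Finset.range 385, ‖coef (fun z => LL (ff 1 5 z)) n‖ ^ 2 =
      (((toP EL).coeff n : ℝ) / ((0 + n : ℕ) * 2 ^ (0 + n))) ^ 2 * rho ^ (2 * (0 + n)) := by
    intro n hn
    rw [coef_one (Finset.mem_range.1 hn), norm_mul, norm_div, norm_pow, norm_div,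
      Complex.norm_intCast, Complex.norm_natCast, Complex.norm_real, Complex.norm_ofNat,
      Real.norm_of_nonneg rho_pos.le, zero_add, mul_pow, div_pow |((toP EL).coeff n : ℝ)|, sq_abs,
      ← pow_mul, mul_comm n 2, div_pow ((toP EL).coeff n : ℝ), mul_pow, div_pow rho,
      ← pow_mul, mul_comm n 2]
    by_cases hn0 : (n : ℝ) = 0
    · rw [hn0]
      simp
    · field_simp
  rw [Finset.sum_congr rfl h1]
  have h2 := lowS_le EL 0
  rw [length_EL] at h2
  have h3 : (1330900000000 : ℝ) ≤ (lowS 0 EL : ℝ) := by exact_mod_cast lowS_EL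
  have h4 := h3.trans h2
  have h5 : (13309 / 10000 : ℝ) = 1330900000000 / 10 ^ 12 := by norm_num
  rw [h5, div_le_iff₀' (by norm_num)]
  exact h4

/-- `log 4 = 2 log 2`, `Real.log_two_lt_d9` -/
theorem log_four_lt : 24 / 25 * Real.log 4 < 13309 / 10000 := by
  have h1 : Real.log 4 = 2 * Real.log 2 := by
    rw [show (4 : ℝ) = 2 ^ 2 by norm_num, Real.log_pow]
    norm_num
  rw [h1]
  have h2 := Real.log_two_lt_d9
  linarith

/-- The sum is continuous in `τ` on `(0, 1]` (`coef_cont`) and larger than `0.96 log 4` at `τ = 1`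
(`sum_one`, `log_four_lt`), so also for some `τ < 1`; `coef_fn_eq` with `m = 5` (`385 < 4^5`). -/
theorem exists_tau : ∃ τ : ℝ, 0 < τ ∧ τ < 1 ∧ ∀ B : ℂ → ℂ, Sol τ B →
    24 / 25 * Real.log 4 < ∑ n ∈ Finset.range 385, ‖coef (fun z => LL (fn B z)) n‖ ^ 2 := by
  have hF : ContinuousOn (fun τ : ℝ => ∑ n ∈ Finset.range 385,
      ‖coef (fun z => LL (ff τ 5 z)) n‖ ^ 2) (Ioc 0 1) :=
    continuousOn_finsetSum _ fun n _ => (coef_cont 5 n).norm.pow 2
  have h1 : (1 : ℝ) ∈ Ioc (0 : ℝ) 1 := by simp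
  have h2 : ∀ᶠ τ in 𝓝[Ioc (0 : ℝ) 1] 1, 24 / 25 * Real.log 4 < ∑ n ∈ Finset.range 385,
      ‖coef (fun z => LL (ff τ 5 z)) n‖ ^ 2 :=
    (hF 1 h1).eventually (lt_mem_nhds (lt_of_lt_of_le log_four_lt sum_one))
  have h3 : ∀ᶠ τ in 𝓝[<] (1 : ℝ), τ ∈ Ioo (0 : ℝ) 1 :=
    Ioo_mem_nhdsLT (by norm_num)
  have h4 : 𝓝[<] (1 : ℝ) ≤ 𝓝[Ioc (0 : ℝ) 1] 1 := by
    refine le_inf nhdsWithin_le_nhds ?_
    rw [le_principal_iff]
    exact mem_of_superset (Ioo_mem_nhdsLT (by norm_num : (0 : ℝ) < 1)) Ioo_subset_Ioc_self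
  obtain ⟨τ, ht, ht1⟩ := ((h2.filter_mono h4).and h3).exists
  refine ⟨τ, ht1.1, ht1.2, fun B S => lt_of_lt_of_eq ht (Finset.sum_congr rfl fun n hn => ?_)⟩
  rw [Finset.mem_range] at hn
  rw [coef_fn_eq ht1.1 ht1.2.le S (m := 5) (by norm_num; omega)]

end Pool.Agent.Helper42.LB
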