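import Pool.Agent.Helper42.LB.Growth
import Pool.Agent.Helper42.LB.Lim
import Pool.Agent.Helper42.LB.Low

/-!
# LB-F: a univalent function with large integral means
-/

set_option autoImplicit false

namespace Pool.Agent.Helper42.LB

open Complex Metric Set Filter Topology

/-- `exists_tau`, `exists_sol`; `fn_diff`, `fn_inj`; `var_half` and `bessel` for `h = LL (fn B)`
(`LLfn_cont`, `LLfn_diff`, `LL_zero`, `fn_zero`) give `(2 π)⁻¹ ci (ps^2) 1 > 12/25 log 4`; `growth` with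
`c = 6/25`. -/
theorem main_growth : ∃ f : ℂ → ℂ, DifferentiableOn ℂ f (ball 0 1) ∧ InjOn f (ball 0 1) ∧
    ∃ p₀ : ℝ, 0 < p₀ ∧ ∀ p : ℝ, 0 < p → p ≤ p₀ → ∃ K : ℝ, 0 < K ∧ ∀ r : ℝ, 0 < r → r < 1 →
      K * (1 - r) ^ (-(6 / 25 * p ^ 2)) ≤
        ∫ θ in (0 : ℝ)..2 * Real.pi, ‖deriv f (r * exp (θ * I))‖ ^ p := by
  obtain ⟨τ, h0, h1, hτ⟩ := exists_tau
  obtain ⟨B, S⟩ := exists_sol h0 h1
  have hs := hτ B S
  have hb := bessel (LLfn_cont S) 385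
  have hv : ci (fun z => ps B z ^ 2) 1 = 1 / 2 * ci (fun z => ‖LL (fn B z)‖ ^ 2) 1 :=
    var_half (LLfn_cont S) (LLfn_diff S) (by simp [fn_zero, LL_zero])
  have h3 : 2 * Real.log 4 * (6 / 25) < (2 * Real.pi)⁻¹ * ci (fun z => ps B z ^ 2) 1 := by
    rw [hv]
    nlinarith [hs, hb]
  obtain ⟨p₀, hp0, H⟩ := growth h0 S (c := 6 / 25) (by norm_num) h3
  refine ⟨fn B, fn_diff S, fn_inj h0 S, p₀, hp0, fun p hp hp1 => ?_⟩
  obtain ⟨K, hK, H2⟩ := H p hp hp1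
  exact ⟨K, hK, fun r hr hr1 => H2 r hr hr1⟩

/-- the same for the means with the exponent `1 / p` -/
theorem main_mean : ∃ f : ℂ → ℂ, DifferentiableOn ℂ f (ball 0 1) ∧ InjOn f (ball 0 1) ∧
    ∃ p₀ : ℝ, 0 < p₀ ∧ ∀ p : ℝ, 0 < p → p ≤ p₀ → ∃ c : ℝ, 0 < c ∧ ∀ r : ℝ, 0 < r → r < 1 →
      c * (1 - r) ^ (-(6 / 25 * p)) ≤ ((2 * Real.pi)⁻¹ *
        ∫ θ in (0 : ℝ)..2 * Real.pi, ‖deriv f (r * exp (θ * I))‖ ^ p) ^ (1 / p) := by
  obtain ⟨f, hd, hi, p₀, hp0, H⟩ := main_growth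
  refine ⟨f, hd, hi, p₀, hp0, fun p hp hp1 => ?_⟩
  obtain ⟨K, hK, H2⟩ := H p hp hp1
  have hpi : 0 < (2 * Real.pi)⁻¹ := by positivity
  refine ⟨((2 * Real.pi)⁻¹ * K) ^ (1 / p), by positivity, fun r hr hr1 => ?_⟩
  have h1 : 0 < 1 - r := by linarith
  have e : ((2 * Real.pi)⁻¹ * K) ^ (1 / p) * (1 - r) ^ (-(6 / 25 * p)) =
      ((2 * Real.pi)⁻¹ * (K * (1 - r) ^ (-(6 / 25 * p ^ 2)))) ^ (1 / p) := by
    rw [← mul_assoc, Real.mul_rpow (x := (2 * Real.pi)⁻¹ * K) (y := (1 - r) ^ (-(6 / 25 * p ^ 2)))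
      (by positivity) (by positivity), ← Real.rpow_mul h1.le]
    congr 2
    field_simp
  rw [e]
  exact Real.rpow_le_rpow (by positivity) (mul_le_mul_of_nonneg_left (H2 r hr hr1) hpi.le)
    (by positivity)

end Pool.Agent.Helper42.LB
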