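import Pool.Agent.Helper42.LB.Cir
import Pool.Agent.Helper42.LB.Fun

/-!
# LB-D2: orthogonality of the functions `ps B (z ^ 4 ^ j)`
-/

set_option autoImplicit false

namespace Pool.Agent.Helper42.LB

open Complex Metric Set Finset

variable {τ : ℝ} {B : ℂ → ℂ} {w : ℂ → ℝ} {r : ℝ}

theorem SS_cont (S : Sol τ B) (n : ℕ) : ContinuousOn (SS B n) (closedBall 0 1) := by
  unfold SS
  exact continuousOn_finsetSum _ fun j _ => comp_pow_cont (ps_cont S) (4 ^ j)

theorem SS_add (m n : ℕ) (z : ℂ) : SS B (m + n) z = SS B m z + SS B n (z ^ 4 ^ m) := by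
  unfold SS
  rw [Finset.sum_range_add]
  congr 1
  refine Finset.sum_congr rfl fun j _ => ?_
  rw [← pow_mul, ← pow_add]

theorem SS_bound {M : ℝ} (hM : ∀ z ∈ closedBall (0 : ℂ) 1, |ps B z| ≤ M) (n : ℕ) {z : ℂ}
    (hz : z ∈ closedBall (0 : ℂ) 1) : |SS B n z| ≤ n * M := by
  unfold SS
  refine (Finset.abs_sum_le_sum_abs _ _).trans ?_
  have h : ∑ j ∈ Finset.range n, |ps B (z ^ 4 ^ j)| ≤ ∑ _j ∈ Finset.range n, M :=
    Finset.sum_le_sum fun j _ => hM _ (pow_mem hz _)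
  rw [Finset.sum_const, Finset.card_range, nsmul_eq_mul] at h
  exact h

theorem ps_bound (S : Sol τ B) : ∃ M : ℝ, 0 < M ∧ ∀ z ∈ closedBall (0 : ℂ) 1, |ps B z| ≤ M := by
  obtain ⟨C, hC⟩ := (isCompact_closedBall (0 : ℂ) 1).exists_bound_of_continuousOn (ps_cont S)
  refine ⟨max C 1, lt_max_of_lt_right one_pos, fun z hz => ?_⟩
  have h := hC z hz
  rw [Real.norm_eq_abs] at h
  exact h.trans (le_max_left _ _)

/-- The sum of the four rotated integrals (`ci_rot`, `pt 1 (π/2) = I`, ...) is the integral of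
`(ps z + ps (I z) + ps (-z) + ps (-I z)) w (z^4) = 0` (`ps_sum`). -/
theorem ci_ps_mul (S : Sol τ B) (hw : ContinuousOn w (closedBall 0 1)) (h0 : 0 ≤ r) (h1 : r ≤ 1) :
    ci (fun z => ps B z * w (z ^ 4)) r = 0 := by
  have hI : pt 1 (Real.pi / 2) = I := by
    unfold pt
    push_cast
    rw [Complex.exp_pi_div_two_mul_I, one_mul]
  have hr : ∀ u : ℂ → ℝ, ci (fun z => u (I * z)) r = ci u r := by
    intro u
    have h := ci_rot u r (Real.pi / 2)
    rw [hI] at h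
    exact h
  have hc : ∀ u : ℂ → ℝ, ContinuousOn u (closedBall 0 1) →
      ContinuousOn (fun z => u (I * z)) (closedBall 0 1) := by
    intro u hu
    refine hu.comp (continuous_const.mul continuous_id).continuousOn ?_
    intro z hz
    rw [mem_closedBall_zero_iff] at hz ⊢
    rw [norm_mul, Complex.norm_I, one_mul]
    exact hz
  obtain ⟨F, hF⟩ : ∃ F : ℂ → ℝ, F = fun z => ps B z * w (z ^ 4) := ⟨_, rfl⟩
  have hF0 : ContinuousOn F (closedBall 0 1) := by
    rw [hF]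
    exact (ps_cont S).mul (comp_pow_cont hw 4)
  have hF1 := hc F hF0
  have hF2 := hc _ hF1
  have hF3 := hc _ hF2
  have e1 : ci (fun z => F (I * z)) r = ci F r := hr F
  have e2 : ci (fun z => F (I * (I * z))) r = ci F r := by
    rw [hr (fun z => F (I * z)), e1]
  have e3 : ci (fun z => F (I * (I * (I * z)))) r = ci F r := by
    rw [hr (fun z => F (I * (I * z))), e2]
  have hsum : ci (fun z => ((F z + F (I * z)) + F (I * (I * z))) + F (I * (I * (I * z)))) r =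
      4 * ci F r := by
    have hA : ContinuousOn (fun z => F z + F (I * z)) (closedBall 0 1) := hF0.add hF1
    have hB : ContinuousOn (fun z => F z + F (I * z) + F (I * (I * z))) (closedBall 0 1) :=
      hA.add hF2
    rw [ci_add hB hF3 h0 h1, ci_add hA hF2 h0 h1, ci_add hF0 hF1 h0 h1, e1, e2, e3]
    ring
  have hzero : ci (fun z => ((F z + F (I * z)) + F (I * (I * z))) + F (I * (I * (I * z)))) r =
      0 := by
    rw [ci_congr (w := fun _ => 0) h0, ci_const, mul_zero]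
    intro z hz
    have hz1 : z ∈ closedBall (0 : ℂ) 1 := by
      rw [mem_closedBall_zero_iff, hz]
      exact h1
    have h2 : I * (I * z) = -z := by rw [← mul_assoc, I_mul_I, neg_one_mul]
    have h3 : I * (I * (I * z)) = -(I * z) := by rw [← mul_assoc, I_mul_I, neg_one_mul]
    rw [h3, h2]
    have p1 : (I * z) ^ 4 = z ^ 4 := by rw [mul_pow, I_pow_four, one_mul]
    have p2 : (-z) ^ 4 = z ^ 4 := by ring
    have p3 : (-(I * z)) ^ 4 = z ^ 4 := by rw [← p1]; ring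
    rw [hF]
    simp only [p1, p2, p3]
    have h4 := ps_sum S hz1
    rw [← add_mul, ← add_mul, ← add_mul, h4, zero_mul]
  have h5 : 4 * ci F r = 0 := hsum.symm.trans hzero
  rw [← hF]
  linarith

/-- `ci_pow` with `N = 4^i` for `u z = ps z * w ((z^4)^(4^(n-i-1)))`, and `ci_ps_mul`. -/
theorem ci_ps_pow_mul (S : Sol τ B) (hw : ContinuousOn w (closedBall 0 1)) (h0 : 0 ≤ r)
    (h1 : r ≤ 1) {i n : ℕ} (hi : i < n) : ci (fun z => ps B (z ^ 4 ^ i) * w (z ^ 4 ^ n)) r = 0 := by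
  have hw' : ContinuousOn (fun z => w (z ^ 4 ^ (n - i - 1))) (closedBall 0 1) :=
    comp_pow_cont hw _
  have hu : ContinuousOn (fun z => ps B z * w ((z ^ 4) ^ 4 ^ (n - i - 1))) (closedBall 0 1) :=
    (ps_cont S).mul (comp_pow_cont hw' 4)
  have hz := ci_ps_mul S hw' (pow_nonneg h0 (4 ^ i)) (pow_le_one₀ h0 h1)
  have hp := ci_pow hu h0 h1 (N := 4 ^ i) (by positivity)
  have he : (4 : ℕ) ^ i * (4 * 4 ^ (n - i - 1)) = 4 ^ n := by
    rw [← pow_succ', ← pow_add]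
    congr 1
    omega
  have hf : (fun z : ℂ => ps B (z ^ 4 ^ i) * w (z ^ 4 ^ n)) =
      fun z => ps B (z ^ 4 ^ i) * w (((z ^ 4 ^ i) ^ 4) ^ 4 ^ (n - i - 1)) := by
    funext z
    rw [← pow_mul, ← pow_mul, he]
  rw [hf]
  exact hp.trans hz

theorem ci_SS_mul (S : Sol τ B) (hw : ContinuousOn w (closedBall 0 1)) (h0 : 0 ≤ r)
    (h1 : r ≤ 1) (n : ℕ) : ci (fun z => SS B n z * w (z ^ 4 ^ n)) r = 0 := by
  have hf : (fun z : ℂ => SS B n z * w (z ^ 4 ^ n)) =
      fun z => ∑ i ∈ range n, ps B (z ^ 4 ^ i) * w (z ^ 4 ^ n) := by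
    funext z
    unfold SS
    rw [Finset.sum_mul]
  rw [hf]
  have h2 := ci_sum (s := fun i z => ps B (z ^ 4 ^ i) * w (z ^ 4 ^ n)) n
    (fun i => (comp_pow_cont (ps_cont S) (4 ^ i)).mul (comp_pow_cont hw (4 ^ n))) h0 h1
  refine h2.trans (Finset.sum_eq_zero fun i hi => ?_)
  exact ci_ps_pow_mul S hw h0 h1 (Finset.mem_range.1 hi)

/-- Induction on `n` for all `w`: `SS (n+1) z = SS n z + ps (z^(4^n))`, so
`SS (n+1)^2 w = SS n^2 w' (z^(4^n)) + 2 SS n (ps w') (z^(4^n)) + ps (z^(4^n))^2 w (z^(4^(n+1)))` with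
`w' z = w (z^4)`; the middle term has integral `0` (`ci_SS_mul`). -/
theorem ci_SS_sq_mul (S : Sol τ B) (hw : ContinuousOn w (closedBall 0 1)) (h0 : 0 ≤ r)
    (h1 : r ≤ 1) (n : ℕ) : ci (fun z => SS B n z ^ 2 * w (z ^ 4 ^ n)) r =
      ∑ j ∈ range n, ci (fun z => ps B (z ^ 4 ^ j) ^ 2 * w (z ^ 4 ^ n)) r := by
  induction n generalizing w with
  | zero => simp [SS, ci]
  | succ n ih =>
    have hw4 : ContinuousOn (fun z => w (z ^ 4)) (closedBall 0 1) := comp_pow_cont hw 4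
    have hpw : ContinuousOn (fun z => ps B z * w (z ^ 4)) (closedBall 0 1) := (ps_cont S).mul hw4
    have hpn : ContinuousOn (fun z => ps B (z ^ 4 ^ n)) (closedBall 0 1) :=
      comp_pow_cont (ps_cont S) _
    have hwn : ContinuousOn (fun z => w ((z ^ 4 ^ n) ^ 4)) (closedBall 0 1) :=
      comp_pow_cont (u := fun z => w (z ^ 4)) hw4 (4 ^ n)
    have hpwn : ContinuousOn (fun z => ps B (z ^ 4 ^ n) * w ((z ^ 4 ^ n) ^ 4)) (closedBall 0 1) :=
      hpn.mul hwn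
    have hz : ∀ z : ℂ, z ^ 4 ^ (n + 1) = (z ^ 4 ^ n) ^ 4 := fun z => by
      rw [← pow_mul, pow_succ]
    have hfun : (fun z => SS B (n + 1) z ^ 2 * w (z ^ 4 ^ (n + 1))) = fun z =>
        (SS B n z ^ 2 * w ((z ^ 4 ^ n) ^ 4) +
          2 * (SS B n z * (ps B (z ^ 4 ^ n) * w ((z ^ 4 ^ n) ^ 4)))) +
          ps B (z ^ 4 ^ n) ^ 2 * w ((z ^ 4 ^ n) ^ 4) := by
      funext z
      rw [hz, SS, Finset.sum_range_succ, ← SS]
      ring
    have h2 : ContinuousOn (fun z => SS B n z * (ps B (z ^ 4 ^ n) * w ((z ^ 4 ^ n) ^ 4)))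
        (closedBall 0 1) := (SS_cont S n).mul hpwn
    have e1 := ih (w := fun z => w (z ^ 4)) hw4
    have e2 := ci_SS_mul S hpw h0 h1 n
    have h3 : ContinuousOn (fun z => SS B n z ^ 2 * w ((z ^ 4 ^ n) ^ 4)) (closedBall 0 1) :=
      ((SS_cont S n).pow 2).mul hwn
    have h4 : ContinuousOn (fun z => 2 * (SS B n z * (ps B (z ^ 4 ^ n) * w ((z ^ 4 ^ n) ^ 4))))
        (closedBall 0 1) := continuousOn_const.mul h2
    have h5 : ContinuousOn (fun z => ps B (z ^ 4 ^ n) ^ 2 * w ((z ^ 4 ^ n) ^ 4))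
        (closedBall 0 1) := (hpn.pow 2).mul hwn
    have h6 : ContinuousOn (fun z => SS B n z ^ 2 * w ((z ^ 4 ^ n) ^ 4) +
        2 * (SS B n z * (ps B (z ^ 4 ^ n) * w ((z ^ 4 ^ n) ^ 4)))) (closedBall 0 1) := h3.add h4
    rw [hfun, ci_add h6 h5 h0 h1, ci_add h3 h4 h0 h1, ci_mul_left, e1, e2,
      Finset.sum_range_succ]
    simp only [hz]
    ring

end Pool.Agent.Helper42.LB
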