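import Pool.Agent.Helper42.LB.Cay

/-!
# LB-A2, A3, A4: the slit map
-/

set_option autoImplicit false

namespace Pool.Agent.Helper42.LB

open Complex Metric

variable {w : ℂ}

theorem Phi_zero : Phi 0 = 0 := by
  rw [Phi, VV_zero, sub_self, zero_div]

theorem VV_add_ne (hw : w ∈ ball (0 : ℂ) 1) : VV w + 1 ≠ 0 := by
  intro h
  have h1 := VV_re hw
  have h2 := congrArg Complex.re h
  rw [add_re, one_re, zero_re] at h2
  linarith

/-- `VV^2 - 1 = (cay^2 - 1)/2 = 2 w / (1 - w)^2` -/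
theorem VV_sub_mul (hw : w ∈ ball (0 : ℂ) 1) :
    (VV w - 1) * (VV w + 1) = 2 * w / (1 - w) ^ 2 := by
  have h1 := one_sub_ne hw
  have h2 : (VV w - 1) * (VV w + 1) = VV w ^ 2 - 1 := by ring
  rw [h2, VV_sq hw, cay]
  field_simp
  ring

/-- `|V - 1| < |V + 1|` for `Re V > 0` -/
theorem Phi_mem (hw : w ∈ ball (0 : ℂ) 1) : Phi w ∈ ball (0 : ℂ) 1 := by
  have h1 := VV_re hw
  have h2 : 0 < ‖VV w + 1‖ := norm_pos_iff.2 (VV_add_ne hw)
  rw [mem_ball, dist_zero_right, Phi, norm_div, div_lt_one h2]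
  have h3 : ‖VV w - 1‖ ^ 2 < ‖VV w + 1‖ ^ 2 := by
    rw [← normSq_eq_norm_sq, ← normSq_eq_norm_sq, normSq_apply, normSq_apply, sub_re, sub_im,
      add_re, add_im, one_re, one_im]
    nlinarith
  exact lt_of_pow_lt_pow_left₀ 2 (norm_nonneg _) h3

theorem diff_Phi : DifferentiableOn ℂ Phi (ball 0 1) := by
  intro w hw
  apply DifferentiableAt.differentiableWithinAt
  exact (((hasDerivAt_VV hw).sub_const 1).div ((hasDerivAt_VV hw).add_const 1)
    (VV_add_ne hw)).differentiableAt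

/-- Schwarz lemma (`Complex.norm_le_norm_of_mapsTo_ball_self` or a similar name) -/
theorem Phi_le (hw : w ∈ ball (0 : ℂ) 1) : ‖Phi w‖ ≤ ‖w‖ := by
  refine norm_le_norm_of_mapsTo_ball diff_Phi
    (fun z hz => ball_subset_closedBall (Phi_mem hz)) Phi_zero ?_
  rwa [mem_ball, dist_zero_right] at hw

private theorem A2b_cay_add (hw : w ∈ ball (0 : ℂ) 1) : cay w + 1 = 2 / (1 - w) := by
  have h := one_sub_ne hw
  unfold cay
  field_simp
  ring

private theorem A2b_cay_re (hw : w ∈ ball (0 : ℂ) 1) : 0 < (cay w + 1).re := by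
  rw [add_re, one_re]
  linarith [cay_re hw]

private theorem A2b_VV_re (hw : w ∈ ball (0 : ℂ) 1) : 0 < (VV w + 1).re := by
  rw [add_re, one_re]
  linarith [VV_re hw]

private theorem A2b_exp {x : ℂ} (hx : x ≠ 0) : exp (2 * log x) = x ^ 2 := by
  rw [two_mul, exp_add, exp_log hx, sq]

/-- `exp (AA w) = (cay w + 1)^2 / (2 (VV w + 1)^2)`, `cay w + 1 = 2 / (1 - w)`, `VV_sub_mul`. -/
theorem Phi_eq (hw : w ∈ ball (0 : ℂ) 1) : Phi w = w * exp (AA w) := by
  have h1 := one_sub_ne hw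
  have h2 := VV_add_ne hw
  have h3 := A2b_cay_add hw
  have h4 : cay w + 1 ≠ 0 := by
    rw [h3]
    exact div_ne_zero two_ne_zero h1
  have h5 := VV_sub_mul hw
  rw [AA, exp_sub, exp_sub, A2b_exp h4, A2b_exp h2, exp_log two_ne_zero, h3, Phi]
  have h6 : VV w - 1 = 2 * w / (1 - w) ^ 2 / (VV w + 1) := by
    rw [← h5, mul_div_cancel_right₀ _ h2]
  rw [h6]
  field_simp

/-- `cay w + 1` and `VV w + 1` have positive real part. -/
theorem diff_AA : DifferentiableOn ℂ AA (ball 0 1) := by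
  intro w hw
  apply DifferentiableAt.differentiableWithinAt
  have h1 : DifferentiableAt ℂ (fun w => log (cay w + 1)) w :=
    (((hasDerivAt_cay hw).differentiableAt).add_const 1).clog
      (mem_slitPlane_iff.2 (Or.inl (A2b_cay_re hw)))
  have h2 : DifferentiableAt ℂ (fun w => log (VV w + 1)) w :=
    (((hasDerivAt_VV hw).differentiableAt).add_const 1).clog
      (mem_slitPlane_iff.2 (Or.inl (A2b_VV_re hw)))
  exact ((h1.const_mul 2).sub (h2.const_mul 2)).sub_const (log 2)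

theorem AA_zero : AA 0 = -log 2 := by
  rw [AA, cay_zero, VV_zero, sub_self, zero_sub]

/-- `Phi_le` and `Phi_eq` for `w ≠ 0`. -/
theorem AA_re_nonpos (hw : w ∈ ball (0 : ℂ) 1) : (AA w).re ≤ 0 := by
  by_cases h0 : w = 0
  · rw [h0, AA_zero, neg_re, log_re, Complex.norm_ofNat]
    have := Real.log_pos (by norm_num : (1 : ℝ) < 2)
    linarith
  · have h1 := Phi_le hw
    rw [Phi_eq hw, norm_mul, norm_exp] at h1
    have h2 : 0 < ‖w‖ := norm_pos_iff.2 h0
    by_contra h3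
    push Not at h3
    have h4 : 1 < Real.exp (AA w).re := Real.one_lt_exp_iff.2 h3
    nlinarith

private theorem AA_bound_ge (z : ℂ) (hz : 0 < z.re) : 1 ≤ ‖z + 1‖ ∧ ‖z‖ ≤ ‖z + 1‖ := by
  constructor
  · have h := Complex.re_le_norm (z + 1)
    rw [Complex.add_re, Complex.one_re] at h
    linarith
  · have h1 : ‖z‖ ^ 2 ≤ ‖z + 1‖ ^ 2 := by
      rw [← Complex.normSq_eq_norm_sq, ← Complex.normSq_eq_norm_sq, Complex.normSq_apply,
        Complex.normSq_apply, Complex.add_re, Complex.add_im, Complex.one_re, Complex.one_im]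
      nlinarith
    exact (pow_le_pow_iff_left₀ (norm_nonneg _) (norm_nonneg _) two_ne_zero).1 h1

private theorem AA_bound_ratio (v V : ℂ) (hv : 0 < v.re) (hV : 0 < V.re)
    (h : V ^ 2 = (1 + v ^ 2) / 2) : ‖v + 1‖ ≤ 4 * ‖V + 1‖ ∧ ‖V + 1‖ ≤ 4 * ‖v + 1‖ := by
  obtain ⟨a1, a2⟩ := AA_bound_ge v hv
  obtain ⟨b1, b2⟩ := AA_bound_ge V hV
  have n1 := norm_nonneg v
  have n2 := norm_nonneg V
  have e1 : ‖v‖ ^ 2 ≤ 2 * ‖V‖ ^ 2 + 1 := by
    have h1 : v ^ 2 = 2 * V ^ 2 - 1 := by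
      rw [h]
      ring
    calc ‖v‖ ^ 2 = ‖v ^ 2‖ := (norm_pow v 2).symm
      _ = ‖2 * V ^ 2 - 1‖ := by rw [h1]
      _ ≤ ‖2 * V ^ 2‖ + ‖(1 : ℂ)‖ := norm_sub_le _ _
      _ = 2 * ‖V‖ ^ 2 + 1 := by
        rw [norm_mul, norm_pow, norm_one, Complex.norm_ofNat]
  have e2 : ‖V‖ ^ 2 ≤ (1 + ‖v‖ ^ 2) / 2 := by
    calc ‖V‖ ^ 2 = ‖V ^ 2‖ := (norm_pow V 2).symm
      _ = ‖(1 + v ^ 2) / 2‖ := by rw [h]
      _ = ‖1 + v ^ 2‖ / 2 := by rw [norm_div, Complex.norm_ofNat]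
      _ ≤ (‖(1 : ℂ)‖ + ‖v ^ 2‖) / 2 := by
        have := norm_add_le (1 : ℂ) (v ^ 2)
        linarith
      _ = (1 + ‖v‖ ^ 2) / 2 := by rw [norm_one, norm_pow]
  have e3 : ‖v‖ ≤ 2 * ‖V‖ + 1 := by
    by_contra hc
    rw [not_le] at hc
    nlinarith
  have e4 : ‖V‖ ≤ 1 + ‖v‖ := by
    by_contra hc
    rw [not_le] at hc
    nlinarith
  have t1 : ‖v + 1‖ ≤ ‖v‖ + 1 := (norm_add_le v 1).trans (by rw [norm_one])
  have t2 : ‖V + 1‖ ≤ ‖V‖ + 1 := (norm_add_le V 1).trans (by rw [norm_one])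
  constructor
  · linarith
  · linarith

private theorem AA_bound_log {a b : ℝ} (ha : 0 < a) (hb : 0 < b) (h1 : a ≤ 4 * b)
    (h2 : b ≤ 4 * a) : |Real.log a - Real.log b| ≤ Real.log 4 := by
  have e1 : Real.log a ≤ Real.log 4 + Real.log b := by
    rw [← Real.log_mul (by norm_num) hb.ne']
    exact Real.log_le_log ha h1
  have e2 : Real.log b ≤ Real.log 4 + Real.log a := by
    rw [← Real.log_mul (by norm_num) ha.ne']
    exact Real.log_le_log hb h2
  rw [abs_le]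
  constructor <;> linarith

/-- With `v = cay w`, `V = VV w` (positive real parts), `2 V^2 = 1 + v^2`:
`|log z| ≤ |log |z|| + π`, so it is enough to bound `|v + 1| / |V + 1|` from above and from below
(`AA w = 2 log (v+1) - 2 log (V+1) - log 2`, `Re AA = 2 log (|v+1|/|V+1|) - log 2`, `|Im AA| ≤ 4 π`).
`|V + 1| ≥ max 1 |V|`, `|v| ≤ 2 |V| + 1`, so `|v + 1| ≤ 2 |V| + 2 ≤ 4 |V + 1|`; `|v + 1| ≥ max 1 |v|`,
`|V| ≤ 1 + |v|`, so `|V + 1| ≤ 2 + |v| ≤ 3 |v + 1|`. -/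
theorem AA_bound : ∃ C : ℝ, 0 < C ∧ ∀ w ∈ ball (0 : ℂ) 1, ‖AA w‖ ≤ C := by
  refine ⟨2 * Real.log 4 + Real.log 2 + 5 * Real.pi, ?_, ?_⟩
  · have h1 : 0 < Real.log 4 := Real.log_pos (by norm_num)
    have h2 : 0 < Real.log 2 := Real.log_pos (by norm_num)
    have h3 := Real.pi_pos
    positivity
  · intro w hw
    obtain ⟨r1, r2⟩ := AA_bound_ratio (cay w) (VV w) (cay_re hw) (VV_re hw) (VV_sq hw)
    have a1 := (AA_bound_ge (cay w) (cay_re hw)).1
    have b1 := (AA_bound_ge (VV w) (VV_re hw)).1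
    have hl := AA_bound_log (lt_of_lt_of_le one_pos a1) (lt_of_lt_of_le one_pos b1) r1 r2
    have hre : (AA w).re = 2 * (Real.log ‖cay w + 1‖ - Real.log ‖VV w + 1‖) - Real.log 2 := by
      have q : ∀ z : ℂ, (2 * z).re = 2 * z.re := fun z => by simp
      rw [AA, Complex.sub_re, Complex.sub_re, q, q,
        Complex.log_re, Complex.log_re, Complex.log_re, Complex.norm_ofNat]
      ring
    have him : (AA w).im = 2 * (arg (cay w + 1) - arg (VV w + 1)) - arg 2 := by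
      have q : ∀ z : ℂ, (2 * z).im = 2 * z.im := fun z => by simp
      rw [AA, Complex.sub_im, Complex.sub_im, q, q,
        Complex.log_im, Complex.log_im, Complex.log_im]
      ring
    have g1 : |(AA w).re| ≤ 2 * Real.log 4 + Real.log 2 := by
      rw [hre]
      have h2 : 0 < Real.log 2 := Real.log_pos (by norm_num)
      rw [abs_le] at hl ⊢
      constructor <;> linarith [hl.1, hl.2]
    have g2 : |(AA w).im| ≤ 5 * Real.pi := by
      rw [him]
      have c1 := abs_le.1 (Complex.abs_arg_le_pi (cay w + 1))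
      have c2 := abs_le.1 (Complex.abs_arg_le_pi (VV w + 1))
      have c3 := abs_le.1 (Complex.abs_arg_le_pi 2)
      rw [abs_le]
      constructor <;> linarith [c1.1, c1.2, c2.1, c2.2, c3.1, c3.2]
    have g3 := Complex.norm_le_abs_re_add_abs_im (AA w)
    linarith

private theorem Phi_rel_sq (hw : w ∈ ball (0 : ℂ) 1) : VV w ^ 2 * (1 - w) ^ 2 = 1 + w ^ 2 := by
  have hw1 := one_sub_ne hw
  rw [VV_sq hw]
  unfold cay
  field_simp
  ring

private theorem Phi_rel_ne (hw : w ∈ ball (0 : ℂ) 1) : VV w ≠ 0 := by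
  intro h0
  have h1 := VV_re hw
  rw [h0, Complex.zero_re] at h1
  exact lt_irrefl _ h1

/-- `4 Phi / (1 + Phi)^2 = (V - 1)(V + 1) / V^2 = 2 w / (1 + w^2)`, because
`V^2 (1 - w)^2 = 1 + w^2`. -/
theorem Phi_rel (hw : w ∈ ball (0 : ℂ) 1) : 4 * Phi w / (1 + Phi w) ^ 2 = 2 * w / (1 + w ^ 2) := by
  have h1 := Phi_rel_sq hw
  have hV := Phi_rel_ne hw
  have hV1 := VV_add_ne hw
  have hw1 := one_sub_ne hw
  have h2 := VV_sub_mul hw
  have h3 : 1 + w ^ 2 ≠ 0 := by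
    intro h0
    rw [h0, mul_eq_zero] at h1
    rcases h1 with h1 | h1
    · exact hV (pow_eq_zero_iff (two_ne_zero) |>.1 h1)
    · exact hw1 (pow_eq_zero_iff (two_ne_zero) |>.1 h1)
  have h4 : (VV w - 1) * (VV w + 1) * (1 - w) ^ 2 = 2 * w := by
    rw [h2]
    field_simp
  have e1 : 1 + Phi w = 2 * VV w / (VV w + 1) := by
    unfold Phi
    field_simp
    ring
  have e2 : 4 * Phi w / (1 + Phi w) ^ 2 = (VV w - 1) * (VV w + 1) / VV w ^ 2 := by
    rw [e1]
    unfold Phi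
    field_simp
    ring
  rw [e2, div_eq_div_iff (pow_ne_zero 2 hV) h3, ← h1, ← h4]
  ring

/-- `Phi' = 2 V' / (V + 1)^2`, `V' = v / (V (1 - w)^2)`, `exp (LL w) = v / V` (see `Ell`), and
`VV_sub_mul`. -/
theorem hasDerivAt_Phi (hw : w ∈ ball (0 : ℂ) 1) :
    ∃ d, HasDerivAt Phi d w ∧ w * d = Phi w * (cay w / VV w) := by
  have hV := Phi_rel_ne hw
  have hV1 := VV_add_ne hw
  have hw1 := one_sub_ne hw
  have h2 := VV_sub_mul hw
  have hd := hasDerivAt_VV hw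
  have h4 : (VV w - 1) * (VV w + 1) * (1 - w) ^ 2 = 2 * w := by
    rw [h2]
    field_simp
  refine ⟨_, (hd.sub_const 1).div (hd.add_const 1) hV1, ?_⟩
  have e : w * (((cay w / (VV w * (1 - w) ^ 2)) * (VV w + 1) -
      (VV w - 1) * (cay w / (VV w * (1 - w) ^ 2))) / (VV w + 1) ^ 2) =
      (2 * w) * (cay w / (VV w * (1 - w) ^ 2 * (VV w + 1) ^ 2)) := by
    field_simp
    ring
  rw [e, ← h4]
  unfold Phi
  field_simp

/-- `V = (1 + Phi)/(1 - Phi)`, so `V`, then `V^2`, `v^2`, `v` (positive real part), then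
`w = (v - 1)/(v + 1)` are determined by `Phi w`. -/
theorem Phi_inj : Set.InjOn Phi (ball 0 1) := by
  intro w₁ h₁ w₂ h₂ h
  have a1 := VV_add_ne h₁
  have a2 := VV_add_ne h₂
  have b1 := one_sub_ne h₁
  have b2 := one_sub_ne h₂
  have hV : VV w₁ = VV w₂ := by
    unfold Phi at h
    rw [div_eq_div_iff a1 a2] at h
    have h3 : 2 * (VV w₁ - VV w₂) = 0 := by linear_combination h
    rcases mul_eq_zero.1 h3 with h4 | h4
    · exact absurd h4 two_ne_zero
    · exact sub_eq_zero.1 h4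
  have hv2 : cay w₁ ^ 2 = cay w₂ ^ 2 := by
    have e1 := VV_sq h₁
    have e2 := VV_sq h₂
    rw [hV, e2] at e1
    linear_combination (-2) * e1
  have hv : cay w₁ = cay w₂ := by
    rcases sq_eq_sq_iff_eq_or_eq_neg.1 hv2 with h5 | h5
    · exact h5
    · exfalso
      have r1 := cay_re h₁
      have r2 := cay_re h₂
      rw [h5, Complex.neg_re] at r1
      linarith
  unfold cay at hv
  rw [div_eq_div_iff b1 b2] at hv
  have h6 : 2 * (w₁ - w₂) = 0 := by linear_combination hv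
  rcases mul_eq_zero.1 h6 with h7 | h7
  · exact absurd h7 two_ne_zero
  · exact sub_eq_zero.1 h7

end Pool.Agent.Helper42.LB
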